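import Pool.Agent.helper968_exist.Rel

/-!
Completing partial actions, and free amalgams.
-/

namespace H968E

open Classical Finset

variable {V : Type}

/-- Replace the orientations. -/
def Rels.setO (r : Rels V) (o : V → V → V → Prop) : Rels V := { r with O := o }

@[simp] theorem Rels.setO_G (r : Rels V) (o : V → V → V → Prop) : (r.setO o).G = r.G := rfl
@[simp] theorem Rels.setO_P (r : Rels V) (o : V → V → V → Prop) : (r.setO o).P = r.P := rfl
@[simp] theorem Rels.setO_R (r : Rels V) (o : V → V → V → Prop) : (r.setO o).R = r.R := rfl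
@[simp] theorem Rels.setO_O (r : Rels V) (o : V → V → V → Prop) : (r.setO o).O = o := rfl

theorem Ax0.setO {r : Rels V} {S : Set V} (h : Ax0 r S) (o : V → V → V → Prop) :
    Ax0 (r.setO o) S where
  gr := h.gr
  GP := h.GP
  RG := h.RG

theorem Act.setO {r : Rels V} {p : V → V → Prop} {S : Set V} (h : Act r p S)
    (o : V → V → V → Prop) : Act (r.setO o) p S where
  adj := h.adj
  cov := h.cov
  rf := h.rf

/-- Partial actions on closed subsets extend to a structure satisfying the axioms. -/
theorem complete {r : Rels V} {B : Finset V} (hB : Ax0 r (B : Set V)) (K : V → Finset V)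
    (hK : ∀ x ∈ B, r.P x → Cl r.G (K x) (B : Set V))
    (hact : ∀ x ∈ B, r.P x → Act r (r.O x) (K x : Set V)) :
    ∃ o : V → V → V → Prop, Ax (r.setO o) (B : Set V) ∧
      ∀ x ∈ B, r.P x → ∀ v ∈ K x, ∀ w ∈ K x, (o x v w ↔ r.O x v w) := by
  have h1 : ∀ x : V, ∃ p : V → V → Prop, x ∈ B → r.P x → Act r p (B : Set V) ∧
      ∀ v ∈ K x, ∀ w ∈ K x, (p v w ↔ r.O x v w) := by
    intro x
    by_cases hx : x ∈ B
    · by_cases hp : r.P x
      · obtain ⟨p, hp1, hp2⟩ := Act.extend hB (hK x hx hp) (hact x hx hp)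
        exact ⟨p, fun _ _ => ⟨hp1, hp2⟩⟩
      · exact ⟨fun _ _ => False, fun _ h => absurd h hp⟩
    · exact ⟨fun _ _ => False, fun h => absurd h hx⟩
  choose p hp using h1
  refine ⟨fun x v w => r.P x ∧ p x v w, ⟨hB.setO _, ?_, ?_⟩, ?_⟩
  · intro x _ v _ w _ h
    exact h.1
  · intro x hx hpx
    refine ((hp x hx hpx).1.setO _).congr ?_
    intro v _ w _
    exact ⟨fun h => h.2, fun h => ⟨hpx, h⟩⟩
  · intro x hx hpx v hv w hw
    rw [← (hp x hx hpx).2 v hv w hw]
    exact ⟨fun h => h.2, fun h => ⟨hpx, h⟩⟩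

/-- Free amalgams of structures satisfying the axioms. -/
theorem amalg {r : Rels V} {S T : Finset V} (h : FreeR r S T) (hS : Ax r (S : Set V))
    (hT : Ax r (T : Set V)) (hcS : Cl r.G (S ∩ T) (S : Set V))
    (hcT : Cl r.G (S ∩ T) (T : Set V))
    (hO : ∀ x ∈ S ∪ T, ∀ v ∈ S ∪ T, ∀ w ∈ S ∪ T, r.O x v w → r.G.Adj v w) :
    ∃ o : V → V → V → Prop, Ax (r.setO o) ((S ∪ T : Finset V) : Set V) ∧
      (∀ x ∈ S, ∀ v ∈ S, ∀ w ∈ S, (o x v w ↔ r.O x v w)) ∧
      (∀ x ∈ T, ∀ v ∈ T, ∀ w ∈ T, (o x v w ↔ r.O x v w)) := by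
  have h0 : Ax0 r ((S ∪ T : Finset V) : Set V) := h.ax0 hS.toAx0 hT.toAx0 hcS hcT
  have hcS' : Cl r.G S ((S ∪ T : Finset V) : Set V) := h.G.closed hcT
  have hcT' : Cl r.G T ((S ∪ T : Finset V) : Set V) := by
    rw [Finset.union_comm]
    rw [Finset.inter_comm] at hcS
    exact h.G.symm.closed hcS
  obtain ⟨o, ho1, ho2⟩ := complete h0
    (fun x => if x ∈ S then (if x ∈ T then S ∪ T else S) else T) (by
      intro x hx hp
      by_cases h1 : x ∈ S
      · by_cases h2 : x ∈ T
        · simp only [h1, h2, if_true]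
          exact Cl.refl _
        · simp only [h1, h2, if_true, if_false]
          exact hcS'
      · simp only [h1, if_false]
        exact hcT') (by
      intro x hx hp
      by_cases h1 : x ∈ S
      · by_cases h2 : x ∈ T
        · simp only [h1, h2, if_true]
          exact h.act (hS.act x h1 hp) (hT.act x h2 hp) (hO x hx)
        · simp only [h1, h2, if_true, if_false]
          exact hS.act x h1 hp
      · simp only [h1, if_false]
        have h2 : x ∈ T := by
          rcases Finset.mem_union.1 hx with h3 | h3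
          · exact absurd h3 h1
          · exact h3
        exact hT.act x h2 hp)
  refine ⟨o, ho1, ?_, ?_⟩
  · intro x hx v hv w hw
    have hxu : x ∈ S ∪ T := Finset.mem_union_left _ hx
    have hvu : v ∈ S ∪ T := Finset.mem_union_left _ hv
    have hwu : w ∈ S ∪ T := Finset.mem_union_left _ hw
    by_cases hp : r.P x
    · have h3 := ho2 x hxu hp
      by_cases h2 : x ∈ T
      · simp only [hx, h2, if_true] at h3
        exact h3 v hvu w hwu
      · simp only [hx, h2, if_true, if_false] at h3
        exact h3 v hv w hw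
    · exact ⟨fun h4 => absurd (ho1.OP x hxu v hvu w hwu h4) hp,
        fun h4 => absurd (hS.OP x hx v hv w hw h4) hp⟩
  · intro x hx v hv w hw
    have hxu : x ∈ S ∪ T := Finset.mem_union_right _ hx
    have hvu : v ∈ S ∪ T := Finset.mem_union_right _ hv
    have hwu : w ∈ S ∪ T := Finset.mem_union_right _ hw
    by_cases hp : r.P x
    · have h3 := ho2 x hxu hp
      by_cases h2 : x ∈ S
      · simp only [hx, h2, if_true] at h3
        exact h3 v hvu w hwu
      · simp only [h2, if_false] at h3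
        exact h3 v hv w hw
    · exact ⟨fun h4 => absurd (ho1.OP x hxu v hvu w hwu h4) hp,
        fun h4 => absurd (hT.OP x hx v hv w hw h4) hp⟩

end H968E
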