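import Pool.Agent.helper968_exist.Amal

namespace H968E

open Classical Finset

/-- Transport of the axioms along an embedding. -/
theorem RefOn.ax {F V : Type} {q : Rels F} {r : Rels V} {B : Finset F} {e : F → V}
    (h : RefOn q r (B : Set F) e) (hq : Ax q (B : Set F)) :
    Ax r ((B.image e : Finset V) : Set V) where
  gr := by
    intro X hX hne
    have hX' : X ⊆ B.image e := by exact_mod_cast hX
    obtain ⟨Y, hY, rfl⟩ := Finset.subset_image_iff.1 hX'
    have hY' : (Y : Set F) ⊆ B := hY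
    rw [h.dl hY', Finset.card_image_of_injOn (h.inj.mono hY')]
    exact hq.gr Y hY' (Finset.image_nonempty.1 hne)
  GP := by
    intro u hu v hv huv
    obtain ⟨x, hx, rfl⟩ := Finset.mem_image.1 (Finset.mem_coe.1 hu)
    obtain ⟨y, hy, rfl⟩ := Finset.mem_image.1 (Finset.mem_coe.1 hv)
    rw [h.G x hx y hy] at huv
    rw [h.P x hx]
    exact hq.GP x hx y hy huv
  RG := by
    intro v hv a ha b hb c hc hR
    obtain ⟨v, hv', rfl⟩ := Finset.mem_image.1 (Finset.mem_coe.1 hv)
    obtain ⟨a, ha', rfl⟩ := Finset.mem_image.1 (Finset.mem_coe.1 ha)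
    obtain ⟨b, hb', rfl⟩ := Finset.mem_image.1 (Finset.mem_coe.1 hb)
    obtain ⟨c, hc', rfl⟩ := Finset.mem_image.1 (Finset.mem_coe.1 hc)
    rw [h.R v hv' a ha' b hb' c hc'] at hR
    obtain ⟨h1, h2, h3, h4, h5, h6⟩ := hq.RG v hv' a ha' b hb' c hc' hR
    exact ⟨(h.G v hv' a ha').2 h1, (h.G v hv' b hb').2 h2, (h.G v hv' c hc').2 h3,
      fun h7 => h4 (h.inj ha' hb' h7), fun h7 => h5 (h.inj ha' hc' h7),
      fun h7 => h6 (h.inj hb' hc' h7)⟩
  OP := by
    intro x hx v hv w hw hO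
    obtain ⟨x, hx', rfl⟩ := Finset.mem_image.1 (Finset.mem_coe.1 hx)
    obtain ⟨v, hv', rfl⟩ := Finset.mem_image.1 (Finset.mem_coe.1 hv)
    obtain ⟨w, hw', rfl⟩ := Finset.mem_image.1 (Finset.mem_coe.1 hw)
    rw [h.O x hx' v hv' w hw'] at hO
    rw [h.P x hx']
    exact hq.OP x hx' v hv' w hw' hO
  act := by
    intro x hx hp
    obtain ⟨x, hx', rfl⟩ := Finset.mem_image.1 (Finset.mem_coe.1 hx)
    rw [h.P x hx'] at hp
    have hact := hq.act x hx' hp
    refine ⟨?_, ?_, ?_⟩
    · intro v hv w hw hO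
      obtain ⟨v, hv', rfl⟩ := Finset.mem_image.1 (Finset.mem_coe.1 hv)
      obtain ⟨w, hw', rfl⟩ := Finset.mem_image.1 (Finset.mem_coe.1 hw)
      exact (h.G v hv' w hw').2 (hact.adj v hv' w hw' ((h.O x hx' v hv' w hw').1 hO))
    · intro v hv w hw hG
      obtain ⟨v, hv', rfl⟩ := Finset.mem_image.1 (Finset.mem_coe.1 hv)
      obtain ⟨w, hw', rfl⟩ := Finset.mem_image.1 (Finset.mem_coe.1 hw)
      rcases hact.cov v hv' w hw' ((h.G v hv' w hw').1 hG) with h1 | h1
      · exact Or.inl ((h.O x hx' v hv' w hw').2 h1)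
      · exact Or.inr ((h.O x hx' w hw' v hv').2 h1)
    · intro v hv a ha b hb c hc hR h1 h2 h3
      obtain ⟨v, hv', rfl⟩ := Finset.mem_image.1 (Finset.mem_coe.1 hv)
      obtain ⟨a, ha', rfl⟩ := Finset.mem_image.1 (Finset.mem_coe.1 ha)
      obtain ⟨b, hb', rfl⟩ := Finset.mem_image.1 (Finset.mem_coe.1 hb)
      obtain ⟨c, hc', rfl⟩ := Finset.mem_image.1 (Finset.mem_coe.1 hc)
      exact hact.rf v hv' a ha' b hb' c hc' ((h.R v hv' a ha' b hb' c hc').1 hR)
        ((h.O x hx' v hv' a ha').1 h1) ((h.O x hx' v hv' b hb').1 h2)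
        ((h.O x hx' v hv' c hc').1 h3)

/-- The union of the structure `Q` on `D` and the image of `q` on `B`. -/
def amR {F V : Type} (Q : Rels V) (D : Finset V) (q : Rels F) (B : Finset F) (e : F → V)
    (he : Set.InjOn e (B : Set F)) : Rels V where
  G :=
    { Adj := fun u v => (u ∈ D ∧ v ∈ D ∧ Q.G.Adj u v) ∨
        ∃ x ∈ B, ∃ y ∈ B, u = e x ∧ v = e y ∧ q.G.Adj x y
      symm := by
        constructor
        rintro u v (⟨h1, h2, h3⟩ | ⟨x, hx, y, hy, h1, h2, h3⟩)
        · exact Or.inl ⟨h2, h1, h3.symm⟩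
        · exact Or.inr ⟨y, hy, x, hx, h2, h1, h3.symm⟩
      loopless := by
        constructor
        rintro u (⟨h1, h2, h3⟩ | ⟨x, hx, y, hy, h1, h2, h3⟩)
        · exact Q.G.loopless.irrefl u h3
        · have : x = y := he hx hy (h1.symm.trans h2)
          subst this
          exact q.G.loopless.irrefl x h3 }
  P := fun u => (u ∈ D ∧ Q.P u) ∨ ∃ x ∈ B, u = e x ∧ q.P x
  R := fun v a b c => (v ∈ D ∧ a ∈ D ∧ b ∈ D ∧ c ∈ D ∧ Q.R v a b c) ∨
    ∃ v' ∈ B, ∃ a' ∈ B, ∃ b' ∈ B, ∃ c' ∈ B, v = e v' ∧ a = e a' ∧ b = e b' ∧ c = e c' ∧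
      q.R v' a' b' c'
  O := fun x v w => (x ∈ D ∧ v ∈ D ∧ w ∈ D ∧ Q.O x v w) ∨
    ∃ x' ∈ B, ∃ v' ∈ B, ∃ w' ∈ B, x = e x' ∧ v = e v' ∧ w = e w' ∧ q.O x' v' w'

section

variable {F V : Type} {Q : Rels V} {D : Finset V} {q : Rels F} {A B : Finset F} {e : F → V}
  {he : Set.InjOn e (B : Set F)}

theorem amR_left (hg : RefOn q Q (A : Set F) e)
    (hout : ∀ x ∈ B, e x ∈ D → x ∈ A) :
    RefOn Q (amR Q D q B e he) (D : Set V) id where
  inj := Set.injOn_id _
  P x hx := by
    constructor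
    · rintro (⟨_, h⟩ | ⟨y, hy, h1, h2⟩)
      · exact h
      · have h3 : y ∈ A := hout y hy (by rw [← h1]; exact hx)
        have := (hg.P y h3).2 h2
        rw [← h1] at this
        exact this
    · intro h
      exact Or.inl ⟨hx, h⟩
  G x hx y hy := by
    constructor
    · rintro (⟨_, _, h⟩ | ⟨x', hx', y', hy', h1, h2, h3⟩)
      · exact h
      · have hx1 : x' ∈ A := hout x' hx' (by rw [← h1]; exact hx)
        have hy1 : y' ∈ A := hout y' hy' (by rw [← h2]; exact hy)
        have := (hg.G x' hx1 y' hy1).2 h3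
        rw [← h1, ← h2] at this
        exact this
    · intro h
      exact Or.inl ⟨hx, hy, h⟩
  R v hv a ha b hb c hc := by
    constructor
    · rintro (⟨_, _, _, _, h⟩ | ⟨v', hv', a', ha', b', hb', c', hc', h1, h2, h3, h4, h5⟩)
      · exact h
      · have hv1 : v' ∈ A := hout v' hv' (by rw [← h1]; exact hv)
        have ha1 : a' ∈ A := hout a' ha' (by rw [← h2]; exact ha)
        have hb1 : b' ∈ A := hout b' hb' (by rw [← h3]; exact hb)
        have hc1 : c' ∈ A := hout c' hc' (by rw [← h4]; exact hc)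
        have := (hg.R v' hv1 a' ha1 b' hb1 c' hc1).2 h5
        rw [← h1, ← h2, ← h3, ← h4] at this
        exact this
    · intro h
      exact Or.inl ⟨hv, ha, hb, hc, h⟩
  O x hx v hv w hw := by
    constructor
    · rintro (⟨_, _, _, h⟩ | ⟨x', hx', v', hv', w', hw', h1, h2, h3, h4⟩)
      · exact h
      · have hx1 : x' ∈ A := hout x' hx' (by rw [← h1]; exact hx)
        have hv1 : v' ∈ A := hout v' hv' (by rw [← h2]; exact hv)
        have hw1 : w' ∈ A := hout w' hw' (by rw [← h3]; exact hw)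
        have := (hg.O x' hx1 v' hv1 w' hw1).2 h4
        rw [← h1, ← h2, ← h3] at this
        exact this
    · intro h
      exact Or.inl ⟨hx, hv, hw, h⟩

theorem amR_right (hg : RefOn q Q (A : Set F) e) (hout : ∀ x ∈ B, e x ∈ D → x ∈ A) :
    RefOn q (amR Q D q B e he) (B : Set F) e where
  inj := he
  P x hx := by
    constructor
    · rintro (⟨h1, h2⟩ | ⟨y, hy, h1, h2⟩)
      · exact (hg.P x (hout x hx h1)).1 h2
      · have : x = y := he hx hy h1
        subst this
        exact h2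
    · intro h
      exact Or.inr ⟨x, hx, rfl, h⟩
  G x hx y hy := by
    constructor
    · rintro (⟨h1, h2, h3⟩ | ⟨x', hx', y', hy', h1, h2, h3⟩)
      · exact (hg.G x (hout x hx h1) y (hout y hy h2)).1 h3
      · have hx1 : x = x' := he hx hx' h1
        have hy1 : y = y' := he hy hy' h2
        subst hx1 hy1
        exact h3
    · intro h
      exact Or.inr ⟨x, hx, y, hy, rfl, rfl, h⟩
  R v hv a ha b hb c hc := by
    constructor
    · rintro (⟨h1, h2, h3, h4, h5⟩ | ⟨v', hv', a', ha', b', hb', c', hc', h1, h2, h3, h4, h5⟩)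
      · exact (hg.R v (hout v hv h1) a (hout a ha h2) b (hout b hb h3) c (hout c hc h4)).1 h5
      · have hv1 : v = v' := he hv hv' h1
        have ha1 : a = a' := he ha ha' h2
        have hb1 : b = b' := he hb hb' h3
        have hc1 : c = c' := he hc hc' h4
        subst hv1 ha1 hb1 hc1
        exact h5
    · intro h
      exact Or.inr ⟨v, hv, a, ha, b, hb, c, hc, rfl, rfl, rfl, rfl, h⟩
  O x hx v hv w hw := by
    constructor
    · rintro (⟨h1, h2, h3, h4⟩ | ⟨x', hx', v', hv', w', hw', h1, h2, h3, h4⟩)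
      · exact (hg.O x (hout x hx h1) v (hout v hv h2) w (hout w hw h3)).1 h4
      · have hx1 : x = x' := he hx hx' h1
        have hv1 : v = v' := he hv hv' h2
        have hw1 : w = w' := he hw hw' h3
        subst hx1 hv1 hw1
        exact h4
    · intro h
      exact Or.inr ⟨x, hx, v, hv, w, hw, rfl, rfl, rfl, h⟩

theorem amR_free : FreeR (amR Q D q B e he) D (B.image e) where
  G := by
    rintro u _ v _ (⟨h1, h2, _⟩ | ⟨x, hx, y, hy, h1, h2, _⟩)
    · exact Or.inl ⟨h1, h2⟩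
    · right
      rw [h1, h2]
      exact ⟨Finset.mem_image_of_mem e hx, Finset.mem_image_of_mem e hy⟩
  R := by
    rintro v _ a _ b _ c _ (⟨h1, h2, h3, h4, _⟩ |
      ⟨v', hv', a', ha', b', hb', c', hc', h1, h2, h3, h4, _⟩)
    · exact Or.inl ⟨h1, h2, h3, h4⟩
    · right
      rw [h1, h2, h3, h4]
      exact ⟨Finset.mem_image_of_mem e hv', Finset.mem_image_of_mem e ha',
        Finset.mem_image_of_mem e hb', Finset.mem_image_of_mem e hc'⟩

end

/-- The embedding of `B` into `ℕ` extending `g`, fresh outside `D`. -/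
theorem exists_fresh {F : Type} (D : Finset ℕ) (A B : Finset F) (g : F → ℕ)
    (hg : Set.InjOn g (A : Set F)) (hD : ∀ x ∈ A, g x ∈ D) :
    ∃ e : F → ℕ, (∀ x ∈ A, e x = g x) ∧ Set.InjOn e (B : Set F) ∧
      ∀ x ∈ B, e x ∈ D → x ∈ A := by
  let idx : F → ℕ := fun x => if h : x ∈ B then (B.equivFin ⟨x, h⟩).val else 0
  have hidx : ∀ x ∈ B, ∀ y ∈ B, idx x = idx y → x = y := by
    intro x hx y hy hxy
    simp only [idx, dif_pos hx, dif_pos hy] at hxy
    have h1 := B.equivFin.injective (Fin.ext hxy)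
    exact congrArg Subtype.val h1
  refine ⟨fun x => if x ∈ A then g x else D.sup id + 1 + idx x, ?_, ?_, ?_⟩
  · intro x hx
    simp [hx]
  · intro x hx y hy hxy
    simp only at hxy
    by_cases h1 : x ∈ A
    · by_cases h2 : y ∈ A
      · simp only [h1, h2, if_true] at hxy
        exact hg h1 h2 hxy
      · simp only [h1, h2, if_true, if_false] at hxy
        have h3 : id (g x) ≤ D.sup id := Finset.le_sup (hD x h1)
        simp only [id] at h3
        omega
    · by_cases h2 : y ∈ A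
      · simp only [h1, h2, if_true, if_false] at hxy
        have h3 : id (g y) ≤ D.sup id := Finset.le_sup (hD y h2)
        simp only [id] at h3
        omega
      · simp only [h1, h2, if_false] at hxy
        exact hidx x hx y hy (by omega)
  · intro x hx hxD
    by_contra h1
    simp only [h1, if_false] at hxD
    have h3 : id (D.sup id + 1 + idx x) ≤ D.sup id := Finset.le_sup hxD
    simp only [id] at h3
    omega

theorem amalg_gen {F V : Type} (Q : Rels V) (D : Finset V) (hQ : Ax Q (D : Set V)) (q : Rels F)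
    (A B : Finset F) (hq : Ax q (B : Set F)) (hAB : Cl q.G A (B : Set F)) (g : F → V)
    (hg : RefOn q Q (A : Set F) g) (hgc : Cl Q.G (A.image g) (D : Set V)) (e : F → V)
    (he1 : ∀ x ∈ A, e x = g x) (he2 : Set.InjOn e (B : Set F))
    (he3 : ∀ x ∈ B, e x ∈ D → x ∈ A) :
    ∃ Q' : Rels V, RefOn Q Q' (D : Set V) id ∧ RefOn q Q' (B : Set F) e ∧
      D ∩ B.image e = A.image g ∧ FreeR Q' D (B.image e) ∧
      Ax Q' ((D ∪ B.image e : Finset V) : Set V) := by
  have hA : A ⊆ B := by exact_mod_cast hAB.sub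
  have hgD : ∀ x ∈ A, g x ∈ D := fun x hx =>
    Finset.mem_coe.1 (hgc.sub (Finset.mem_coe.2 (Finset.mem_image_of_mem g hx)))
  have hge : RefOn q Q (A : Set F) e :=
    { inj := fun x hx y hy hxy => hg.inj hx hy (by rw [← he1 x hx, ← he1 y hy]; exact hxy)
      P := fun x hx => by rw [he1 x hx]; exact hg.P x hx
      G := fun x hx y hy => by rw [he1 x hx, he1 y hy]; exact hg.G x hx y hy
      R := fun v hv a ha b hb c hc => by
        rw [he1 v hv, he1 a ha, he1 b hb, he1 c hc]; exact hg.R v hv a ha b hb c hc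
      O := fun x hx v hv w hw => by
        rw [he1 x hx, he1 v hv, he1 w hw]; exact hg.O x hx v hv w hw }
  have himg : A.image e = A.image g := Finset.image_congr fun x hx => he1 x hx
  have hint : D ∩ B.image e = A.image g := by
    ext u
    rw [Finset.mem_inter, Finset.mem_image, Finset.mem_image]
    constructor
    · rintro ⟨h1, x, hx, rfl⟩
      have h2 := he3 x hx h1
      exact ⟨x, h2, (he1 x h2).symm⟩
    · rintro ⟨x, hx, rfl⟩
      exact ⟨hgD x hx, x, hA hx, he1 x hx⟩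
  let r : Rels V := amR Q D q B e he2
  have hL : RefOn Q r (D : Set V) id := amR_left hge he3
  have hR : RefOn q r (B : Set F) e := amR_right hge he3
  have hfree : FreeR r D (B.image e) := amR_free
  have hAxD : Ax r (D : Set V) := by
    have := hL.ax hQ
    rwa [Finset.image_id] at this
  have hAxT : Ax r ((B.image e : Finset V) : Set V) := hR.ax hq
  have hcS : Cl r.G (D ∩ B.image e) (D : Set V) := by
    have := hL.cl hgc
    rw [Finset.image_id, Finset.image_id] at this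
    rwa [hint]
  have hcT : Cl r.G (D ∩ B.image e) ((B.image e : Finset V) : Set V) := by
    have := hR.cl hAB
    rw [himg] at this
    rwa [hint]
  obtain ⟨o, ho1, ho2, ho3⟩ := amalg hfree hAxD hAxT hcS hcT (by
    rintro x _ v _ w _ (⟨h1, h2, h3, h4⟩ | ⟨x', hx', v', hv', w', hw', h1, h2, h3, h4⟩)
    · exact Or.inl ⟨h2, h3, (hQ.act x h1 (hQ.OP x h1 v h2 w h3 h4)).adj v h2 w h3 h4⟩
    · exact Or.inr ⟨v', hv', w', hw', h2, h3,
        (hq.act x' hx' (hq.OP x' hx' v' hv' w' hw' h4)).adj v' hv' w' hw' h4⟩)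
  refine ⟨r.setO o, ?_, ?_, hint, ?_, ho1⟩
  · exact
      { inj := hL.inj
        P := hL.P
        G := hL.G
        R := hL.R
        O := fun x hx v hv w hw => (ho2 x hx v hv w hw).trans (hL.O x hx v hv w hw) }
  · exact
      { inj := hR.inj
        P := hR.P
        G := hR.G
        R := hR.R
        O := fun x hx v hv w hw =>
          (ho3 (e x) (Finset.mem_image_of_mem e hx) (e v) (Finset.mem_image_of_mem e hv) (e w)
            (Finset.mem_image_of_mem e hw)).trans (hR.O x hx v hv w hw) }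
  · exact ⟨hfree.G, hfree.R⟩

theorem amalg_gen_inst {F V : Type} [inst : DecidableEq V] (Q : Rels V) (D : Finset V)
    (hQ : Ax Q (D : Set V)) (q : Rels F)
    (A B : Finset F) (hq : Ax q (B : Set F)) (hAB : Cl q.G A (B : Set F)) (g : F → V)
    (hg : RefOn q Q (A : Set F) g) (hgc : Cl Q.G (A.image g) (D : Set V)) (e : F → V)
    (he1 : ∀ x ∈ A, e x = g x) (he2 : Set.InjOn e (B : Set F))
    (he3 : ∀ x ∈ B, e x ∈ D → x ∈ A) :
    ∃ Q' : Rels V, RefOn Q Q' (D : Set V) id ∧ RefOn q Q' (B : Set F) e ∧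
      D ∩ B.image e = A.image g ∧ FreeR Q' D (B.image e) ∧
      Ax Q' ((D ∪ B.image e : Finset V) : Set V) := by
  obtain rfl : inst = fun a b => propDecidable (a = b) := Subsingleton.elim _ _
  exact amalg_gen Q D hQ q A B hq hAB g hg hgc e he1 he2 he3

theorem amalg_nat_inst [inst : DecidableEq ℕ] {F : Type} (Q : Rels ℕ) (D : Finset ℕ)
    (hQ : Ax Q (D : Set ℕ)) (q : Rels F)
    (A B : Finset F) (hq : Ax q (B : Set F)) (hAB : Cl q.G A (B : Set F)) (g : F → ℕ)
    (hg : RefOn q Q (A : Set F) g)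
    (hgc : Cl Q.G (@Finset.image F ℕ inst g A) (D : Set ℕ)) :
    ∃ (Q' : Rels ℕ) (e : F → ℕ), RefOn Q Q' (D : Set ℕ) id ∧ RefOn q Q' (B : Set F) e ∧
      (∀ x ∈ A, e x = g x) ∧
      @Inter.inter _ (@Finset.instInter ℕ inst) D (@Finset.image F ℕ inst e B) =
        @Finset.image F ℕ inst g A ∧
      FreeR Q' D (@Finset.image F ℕ inst e B) ∧
      Ax Q' ((@Union.union _ (@Finset.instUnion ℕ inst) D (@Finset.image F ℕ inst e B) :
        Finset ℕ) : Set ℕ) := by
  have hgD : ∀ x ∈ A, g x ∈ D := fun x hx =>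
    Finset.mem_coe.1 (hgc.sub (Finset.mem_coe.2 (Finset.mem_image_of_mem g hx)))
  obtain ⟨e, he1, he2, he3⟩ := exists_fresh D A B g hg.inj hgD
  obtain ⟨Q', h1, h2, h3, h4, h5⟩ := @amalg_gen_inst F ℕ inst Q D hQ q A B hq hAB g hg
    hgc e he1 he2 he3
  exact ⟨Q', e, h1, h2, he1, h3, h4, h5⟩

theorem amalg_nat {F : Type} (Q : Rels ℕ) (D : Finset ℕ) (hQ : Ax Q (D : Set ℕ)) (q : Rels F)
    (A B : Finset F) (hq : Ax q (B : Set F)) (hAB : Cl q.G A (B : Set F)) (g : F → ℕ)
    (hg : RefOn q Q (A : Set F) g) (hgc : Cl Q.G (A.image g) (D : Set ℕ)) :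
    ∃ (Q' : Rels ℕ) (e : F → ℕ), RefOn Q Q' (D : Set ℕ) id ∧ RefOn q Q' (B : Set F) e ∧
      (∀ x ∈ A, e x = g x) ∧ D ∩ B.image e = A.image g ∧ FreeR Q' D (B.image e) ∧
      Ax Q' ((D ∪ B.image e : Finset ℕ) : Set ℕ) :=
  amalg_nat_inst Q D hQ q A B hq hAB g hg hgc

end H968E
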