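import Pool.Agent.helper968_exist.AmalN

namespace H968E

open Classical Finset

/-- The amalgamation hypothesis. -/
def AmalgProp (V : Type) [DecidableEq V] : Prop :=
  ∀ (Q : Rels V) (D : Finset V) (_ : Ax Q (D : Set V)) (q : Rels V)
    (A B : Finset V) (_ : Ax q (B : Set V)) (_ : Cl q.G A (B : Set V)) (g : V → V)
    (_ : RefOn q Q (A : Set V) g) (_ : Cl Q.G (A.image g) (D : Set V)),
    ∃ (Q' : Rels V) (e : V → V), RefOn Q Q' (D : Set V) id ∧ RefOn q Q' (B : Set V) e ∧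
      (∀ x ∈ A, e x = g x) ∧ D ∩ B.image e = A.image g ∧ FreeR Q' D (B.image e) ∧
      Ax Q' ((D ∪ B.image e : Finset V) : Set V)

variable {V : Type}

/-- Transfer of closedness along an identity embedding. -/
theorem RefOn.cl_id {Q Q' : Rels V} {A D : Finset V} (h : RefOn Q Q' (D : Set V) id)
    (hA : Cl Q.G A (D : Set V)) : Cl Q'.G A (D : Set V) := by
  have := h.cl hA
  simpa only [Finset.image_id] using this

theorem RefOn.dl_id {Q Q' : Rels V} {D : Finset V} (h : RefOn Q Q' (D : Set V) id)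
    {X : Finset V} (hX : X ⊆ D) : H968E.dl Q'.G X = H968E.dl Q.G X := by
  have := h.dl (X := X) (by exact_mod_cast hX)
  simpa only [Finset.image_id] using this

theorem RefOn.comp_id {F : Type} {q : Rels F} {Q Q' : Rels V} {A : Finset F} {D : Finset V}
    {g : F → V} (hg : RefOn q Q (A : Set F) g) (h : RefOn Q Q' (D : Set V) id)
    (hD : A.image g ⊆ D) : RefOn q Q' (A : Set F) g := by
  have h1 : RefOn Q Q' (g '' (A : Set F)) id := h.mono (by
    rw [← Finset.coe_image]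
    exact_mod_cast hD)
  have := hg.comp h1
  simpa only [Function.id_comp] using this

/-- The invariant of the chain construction (`m + 1` copies). -/
structure Chain (r : Rels V) (Z Y0 Y1 : Finset V) (g : V → V) (m : ℕ) (Q : Rels V)
    (D : Finset V) (e : ℕ → V → V) : Prop where
  ax : Ax Q (D : Set V)
  ref : ∀ i ≤ m, RefOn r Q (Z : Set V) (e i)
  cl : ∀ i ≤ m, Cl Q.G (Z.image (e i)) (D : Set V)
  nxt : ∀ i, i < m → ∀ x ∈ Y0, e (i + 1) x = e i (g x)
  c4 : ∀ i ≤ m, 0 < i → Y0.image (e 0) ∩ Z.image (e i) ⊆ (Y0 ∩ Y1).image (e 0)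
  c5 : ∀ i < m, Y1.image (e m) ∩ Z.image (e i) ⊆ (Y0 ∩ Y1).image (e 0)
  c6 : ∀ X : Finset V, X ⊆ D → Z.image (e 0) ⊆ X →
    dl Q.G (Z.image (e 0)) + m ≤ dl Q.G X ∨
    (X ∩ Y1.image (e m) ⊆ (Y0 ∩ Y1).image (e 0) ∧
      dl Q.G (Z.image (e 0)) + m ≤ dl Q.G X + 1) ∨
    ∃ X' X'' : Finset V, X = X' ∪ X'' ∧ X' ∩ X'' = (Y0 ∩ Y1).image (e 0) ∧ FreeR Q X' X'' ∧
      Z.image (e 0) ⊆ X' ∧ X ∩ Z.image (e m) ⊆ X''

theorem Chain.const {r : Rels V} {Z Y0 Y1 : Finset V} {g : V → V} {m : ℕ} {Q : Rels V}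
    {D : Finset V} {e : ℕ → V → V} (h : Chain r Z Y0 Y1 g m Q D e)
    (hgC : ∀ x ∈ Y0 ∩ Y1, g x = x) : ∀ i ≤ m, ∀ x ∈ Y0 ∩ Y1, e i x = e 0 x := by
  intro i
  induction i with
  | zero => intro _ x _; rfl
  | succ i ih =>
    intro hi x hx
    rw [h.nxt i (by omega) x (Finset.mem_inter.1 hx).1, hgC x hx]
    exact ih (by omega) x hx

theorem chain_zero (r : Rels V) (Z Y0 Y1 : Finset V) (hZ : Ax r (Z : Set V)) (g : V → V) :
    Chain r Z Y0 Y1 g 0 r Z (fun _ => id) where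
  ax := hZ
  ref i _ := ⟨Set.injOn_id _, fun _ _ => Iff.rfl, fun _ _ _ _ => Iff.rfl,
    fun _ _ _ _ _ _ _ _ => Iff.rfl, fun _ _ _ _ _ _ => Iff.rfl⟩
  cl i _ := by
    simp only [Finset.image_id]
    exact Cl.refl Z
  nxt i hi := absurd hi (by omega)
  c4 i hi h0 := absurd hi (by omega)
  c5 i hi := absurd hi (by omega)
  c6 X hX hZX := by
    left
    simp only [Finset.image_id] at hZX ⊢
    have : X = Z := Finset.Subset.antisymm hX hZX
    rw [this]
    simp

theorem FreeR.sub {r : Rels V} {S T X : Finset V} (h : FreeR r S T) (hX : X ⊆ S ∪ T) :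
    FreeR r (X ∩ S) (X ∩ T) := by
  have hXX : ∀ u, u ∈ X ∩ S ∪ X ∩ T → u ∈ X := by
    intro u hu
    rcases Finset.mem_union.1 hu with h1 | h1
    · exact (Finset.mem_inter.1 h1).1
    · exact (Finset.mem_inter.1 h1).1
  refine ⟨?_, ?_⟩
  · intro u hu v hv huv
    have hu' := hXX u hu
    have hv' := hXX v hv
    rcases h.G u (hX hu') v (hX hv') huv with ⟨a, b⟩ | ⟨a, b⟩
    · exact Or.inl ⟨Finset.mem_inter.2 ⟨hu', a⟩, Finset.mem_inter.2 ⟨hv', b⟩⟩
    · exact Or.inr ⟨Finset.mem_inter.2 ⟨hu', a⟩, Finset.mem_inter.2 ⟨hv', b⟩⟩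
  · intro v hv a ha b hb c hc h1
    have hv' := hXX v hv
    have ha' := hXX a ha
    have hb' := hXX b hb
    have hc' := hXX c hc
    rcases h.R v (hX hv') a (hX ha') b (hX hb') c (hX hc') h1 with ⟨p, q, s, t⟩ | ⟨p, q, s, t⟩
    · exact Or.inl ⟨Finset.mem_inter.2 ⟨hv', p⟩, Finset.mem_inter.2 ⟨ha', q⟩,
        Finset.mem_inter.2 ⟨hb', s⟩, Finset.mem_inter.2 ⟨hc', t⟩⟩
    · exact Or.inr ⟨Finset.mem_inter.2 ⟨hv', p⟩, Finset.mem_inter.2 ⟨ha', q⟩,
        Finset.mem_inter.2 ⟨hb', s⟩, Finset.mem_inter.2 ⟨hc', t⟩⟩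

theorem chain_succ (ham : AmalgProp V) (r : Rels V) (Z Y0 Y1 : Finset V) (hZ : Ax r (Z : Set V))
    (h0 : Cl r.G Y0 (Z : Set V)) (h1 : Cl r.G Y1 (Z : Set V)) (g : V → V)
    (hg : RefOn r r (Y0 : Set V) g) (hgi : Y0.image g = Y1) (hgC : ∀ x ∈ Y0 ∩ Y1, g x = x)
    (m : ℕ) (Q : Rels V) (D : Finset V) (e : ℕ → V → V) (h : Chain r Z Y0 Y1 g m Q D e) :
    ∃ Q' D' e', Chain r Z Y0 Y1 g (m + 1) Q' D' e' := by
  have hY0 : Y0 ⊆ Z := by exact_mod_cast h0.sub
  have hY1 : Y1 ⊆ Z := by exact_mod_cast h1.sub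
  have hm := h.ref m le_rfl
  have hconst := h.const hgC
  have hgY1 : (g '' (Y0 : Set V)) ⊆ (Z : Set V) := by
    rw [← Finset.coe_image, hgi]
    exact_mod_cast hY1
  have hg' : RefOn r Q (Y0 : Set V) (e m ∘ g) := hg.comp (hm.mono hgY1)
  have himg : Y0.image (e m ∘ g) = Y1.image (e m) := by
    rw [← Finset.image_image, hgi]
  have hclY1 : Cl Q.G (Y1.image (e m)) (D : Set V) := (hm.cl h1).trans (h.cl m le_rfl)
  obtain ⟨Q', f, hid, hf, hfg, hint, hfree, hax⟩ := ham Q D h.ax r Y0 Z hZ h0 (e m ∘ g) hg'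
    (by rw [himg]; exact hclY1)
  have himf : Y0.image f = Y1.image (e m) := by
    rw [← himg]
    exact Finset.image_congr (fun x hx => hfg x hx)
  rw [himg, ← himf] at hint
  -- sizes of things
  have hZD : ∀ i ≤ m, Z.image (e i) ⊆ D := fun i hi => by exact_mod_cast (h.cl i hi).sub
  have hclf : Cl Q'.G (Y0.image f) ((Z.image f : Finset V) : Set V) := hf.cl h0
  have hclD : Cl Q'.G D ((D ∪ Z.image f : Finset V) : Set V) :=
    hfree.G.closed (by rw [hint]; exact hclf)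
  have hclY : Cl Q'.G (Y0.image f) (D : Set V) := by
    rw [himf]
    exact hid.cl_id hclY1
  have hclZ : Cl Q'.G (Z.image f) ((D ∪ Z.image f : Finset V) : Set V) := by
    rw [Finset.union_comm]
    exact hfree.G.symm.closed (by rw [Finset.inter_comm, hint]; exact hclY)
  -- the new maps
  set e' : ℕ → V → V := fun i => if i ≤ m then e i else f with he'
  have e1 : ∀ i ≤ m, e' i = e i := fun i hi => by simp [he', hi]
  have e2 : e' (m + 1) = f := by simp [he']
  have e0 : e' 0 = e 0 := e1 0 (Nat.zero_le _)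
  have hfC : ∀ x ∈ Y0 ∩ Y1, f x = e 0 x := by
    intro x hx
    rw [hfg x (Finset.mem_inter.1 hx).1]
    simp only [Function.comp]
    rw [hgC x hx]
    exact hconst m le_rfl x hx
  have hfC' : (Y0 ∩ Y1).image f = (Y0 ∩ Y1).image (e 0) :=
    Finset.image_congr (fun x hx => hfC x hx)
  have hC0Z0 : (Y0 ∩ Y1).image (e 0) ⊆ Z.image (e 0) :=
    Finset.image_subset_image (Finset.inter_subset_left.trans hY0)
  have hC0Zf : (Y0 ∩ Y1).image (e 0) ⊆ Z.image f := by
    rw [← hfC']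
    exact Finset.image_subset_image (Finset.inter_subset_left.trans hY0)
  have hZ0D : Z.image (e 0) ⊆ D := hZD 0 (Nat.zero_le _)
  have hinjC : Y1.image f ∩ Y0.image f ⊆ (Y0 ∩ Y1).image (e 0) := by
    rw [← hfC']
    intro y hy
    obtain ⟨hy1, hy2⟩ := Finset.mem_inter.1 hy
    obtain ⟨a, ha, rfl⟩ := Finset.mem_image.1 hy1
    obtain ⟨b, hb, hab⟩ := Finset.mem_image.1 hy2
    have : b = a := hf.inj (hY0 hb) (hY1 ha) hab
    subst this
    exact Finset.mem_image_of_mem f (Finset.mem_inter.2 ⟨hb, ha⟩)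
  refine ⟨Q', D ∪ Z.image f, e', ?_, ?_, ?_, ?_, ?_, ?_, ?_⟩
  · exact hax
  · intro i hi
    by_cases him : i ≤ m
    · rw [e1 i him]
      exact (h.ref i him).comp_id hid (hZD i him)
    · have : i = m + 1 := by omega
      rw [this, e2]
      exact hf
  · intro i hi
    by_cases him : i ≤ m
    · rw [e1 i him]
      exact (hid.cl_id (h.cl i him)).trans hclD
    · have : i = m + 1 := by omega
      rw [this, e2]
      exact hclZ
  · intro i hi x hx
    by_cases him : i + 1 ≤ m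
    · rw [e1 _ him, e1 i (by omega)]
      exact h.nxt i (by omega) x hx
    · have : i = m := by omega
      rw [this, e2, e1 m le_rfl]
      exact hfg x hx
  · intro i hi hi0
    rw [e0]
    by_cases him : i ≤ m
    · rw [e1 i him]
      exact h.c4 i him hi0
    · have : i = m + 1 := by omega
      rw [this, e2]
      intro y hy
      obtain ⟨hy1, hy2⟩ := Finset.mem_inter.1 hy
      have hyD : y ∈ D := hZ0D (Finset.image_subset_image hY0 hy1)
      have hy3 : y ∈ Y0.image f := by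
        rw [← hint]
        exact Finset.mem_inter.2 ⟨hyD, hy2⟩
      rw [himf] at hy3
      by_cases hm0 : m = 0
      · subst hm0
        obtain ⟨a, ha, rfl⟩ := Finset.mem_image.1 hy1
        obtain ⟨b, hb, hab⟩ := Finset.mem_image.1 hy3
        have : b = a := (h.ref 0 le_rfl).inj (hY1 hb) (hY0 ha) hab
        subst this
        exact Finset.mem_image_of_mem _ (Finset.mem_inter.2 ⟨ha, hb⟩)
      · exact h.c4 m le_rfl (by omega) (Finset.mem_inter.2
          ⟨hy1, Finset.image_subset_image hY1 hy3⟩)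
  · intro i hi
    rw [e0, e2, e1 i (by omega)]
    intro y hy
    obtain ⟨hy1, hy2⟩ := Finset.mem_inter.1 hy
    have hyD : y ∈ D := hZD i (by omega) hy2
    have hy3 : y ∈ Y0.image f := by
      rw [← hint]
      exact Finset.mem_inter.2 ⟨hyD, Finset.image_subset_image hY1 hy1⟩
    exact hinjC (Finset.mem_inter.2 ⟨hy1, hy3⟩)
  · intro X hX hZX
    rw [e0] at hZX ⊢
    rw [e2]
    have hXD : X ∩ D ⊆ D := Finset.inter_subset_right
    have hZXD : Z.image (e 0) ⊆ X ∩ D := Finset.subset_inter hZX hZ0D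
    have hdl := hfree.G.dl_eq hX
    have hdXD : dl Q'.G (X ∩ D) = dl Q.G (X ∩ D) := hid.dl_id hXD
    have hdZ : dl Q'.G (Z.image (e 0)) = dl Q.G (Z.image (e 0)) := hid.dl_id hZ0D
    rw [hint] at hdl
    -- `X ∩ Y^k` is closed in `X ∩ Z^k`
    have hclX : Cl Q'.G (X ∩ Y0.image f) ((X ∩ Z.image f : Finset V) : Set V) :=
      hclf.inter_sub (by exact_mod_cast Finset.inter_subset_right) (by
        intro x
        have hsub := Finset.image_subset_image (f := f) hY0
        simp only [Finset.mem_inter, Finset.coe_inter, Set.mem_inter_iff, Finset.mem_coe]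
        constructor
        · rintro ⟨p, q⟩
          exact ⟨q, p, hsub q⟩
        · rintro ⟨q, p, _⟩
          exact ⟨p, q⟩)
    have hsubX : X ∩ Y0.image f ⊆ X ∩ Z.image f :=
      Finset.inter_subset_inter_left (Finset.image_subset_image hY0)
    rcases h.c6 (X ∩ D) hXD hZXD with ha | ⟨hb1, hb2⟩ | ⟨X', X'', hc1, hc2, hc3, hc4, hc5⟩
    · by_cases heq : X ∩ Y0.image f = X ∩ Z.image f
      · right; left
        refine ⟨?_, ?_⟩
        · intro y hy
          obtain ⟨hy1, hy2⟩ := Finset.mem_inter.1 hy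
          have hy3 : y ∈ X ∩ Y0.image f := by
            rw [heq]
            exact Finset.mem_inter.2 ⟨hy1, Finset.image_subset_image hY1 hy2⟩
          exact hinjC (Finset.mem_inter.2 ⟨hy2, (Finset.mem_inter.1 hy3).2⟩)
        · rw [heq] at hdl
          push_cast
          omega
      · left
        have h5 := hclX.lt (X ∩ Z.image f) subset_rfl (Finset.ssubset_iff_subset_ne.2 ⟨hsubX, heq⟩)
        push_cast
        omega
    · right; right
      refine ⟨X ∩ D, X ∩ Z.image f, ?_, ?_, hfree.sub hX, hZXD, subset_rfl⟩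
      · rw [← Finset.inter_union_distrib_left]
        exact (Finset.inter_eq_left.2 hX).symm
      · apply Finset.Subset.antisymm
        · intro y hy
          simp only [Finset.mem_inter] at hy
          obtain ⟨⟨hy1, hy2⟩, _, hy3⟩ := hy
          have hy4 : y ∈ Y0.image f := by
            rw [← hint]
            exact Finset.mem_inter.2 ⟨hy2, hy3⟩
          rw [himf] at hy4
          exact hb1 (Finset.mem_inter.2 ⟨Finset.mem_inter.2 ⟨hy1, hy2⟩, hy4⟩)
        · intro y hy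
          have hy1 := hC0Z0 hy
          exact Finset.mem_inter.2 ⟨hZXD hy1, Finset.mem_inter.2 ⟨hZX hy1, hC0Zf hy⟩⟩
    · right; right
      have hX'X : X' ⊆ X ∩ D := by
        rw [hc1]
        exact Finset.subset_union_left
      have hX''X : X'' ⊆ X ∩ D := by
        rw [hc1]
        exact Finset.subset_union_right
      have hXeq : X = X' ∪ (X'' ∪ X ∩ Z.image f) := by
        rw [← Finset.union_assoc, ← hc1, ← Finset.inter_union_distrib_left]
        exact (Finset.inter_eq_left.2 hX).symm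
      have hmemX : ∀ u, u ∈ X' ∪ (X'' ∪ X ∩ Z.image f) → u ∈ X := by
        intro u hu
        rwa [← hXeq] at hu
      refine ⟨X', X'' ∪ (X ∩ Z.image f), hXeq, ?_, ⟨?_, ?_⟩, hc4, Finset.subset_union_right⟩
      · apply Finset.Subset.antisymm
        · intro y hy
          obtain ⟨hy1, hy2⟩ := Finset.mem_inter.1 hy
          rcases Finset.mem_union.1 hy2 with hy3 | hy3
          · rw [← hc2]
            exact Finset.mem_inter.2 ⟨hy1, hy3⟩
          · have hyD := Finset.mem_inter.1 (hX'X hy1)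
            have hy4 : y ∈ Y0.image f := by
              rw [← hint]
              exact Finset.mem_inter.2 ⟨hyD.2, (Finset.mem_inter.1 hy3).2⟩
            rw [himf] at hy4
            have hy5 : y ∈ X'' := hc5 (Finset.mem_inter.2 ⟨hX'X hy1,
              Finset.image_subset_image hY1 hy4⟩)
            rw [← hc2]
            exact Finset.mem_inter.2 ⟨hy1, hy5⟩
        · rw [← hc2]
          exact Finset.inter_subset_inter_left Finset.subset_union_left
      · intro u hu v hv huv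
        have hu' := hmemX u hu
        have hv' := hmemX v hv
        rcases hfree.G u (hX hu') v (hX hv') huv with ⟨a, b⟩ | ⟨a, b⟩
        · have hu2 : u ∈ X' ∪ X'' := by
            rw [← hc1]
            exact Finset.mem_inter.2 ⟨hu', a⟩
          have hv2 : v ∈ X' ∪ X'' := by
            rw [← hc1]
            exact Finset.mem_inter.2 ⟨hv', b⟩
          have huv' : Q.G.Adj u v := (hid.G u a v b).1 huv
          rcases hc3.G u hu2 v hv2 huv' with h6 | ⟨h6, h7⟩
          · exact Or.inl h6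
          · exact Or.inr ⟨Finset.mem_union_left _ h6, Finset.mem_union_left _ h7⟩
        · exact Or.inr ⟨Finset.mem_union_right _ (Finset.mem_inter.2 ⟨hu', a⟩),
            Finset.mem_union_right _ (Finset.mem_inter.2 ⟨hv', b⟩)⟩
      · intro v hv a ha b hb c hc hR
        have hv' := hmemX v hv
        have ha' := hmemX a ha
        have hb' := hmemX b hb
        have hc' := hmemX c hc
        rcases hfree.R v (hX hv') a (hX ha') b (hX hb') c (hX hc') hR with
          ⟨p, q, s, t⟩ | ⟨p, q, s, t⟩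
        · have mem2 : ∀ x, x ∈ X → x ∈ D → x ∈ X' ∪ X'' := by
            intro x hx hxD
            rw [← hc1]
            exact Finset.mem_inter.2 ⟨hx, hxD⟩
          have hR' : Q.R v a b c := (hid.R v p a q b s c t).1 hR
          rcases hc3.R v (mem2 v hv' p) a (mem2 a ha' q) b (mem2 b hb' s) c (mem2 c hc' t) hR' with
            h6 | ⟨h6, h7, h8, h9⟩
          · exact Or.inl h6
          · exact Or.inr ⟨Finset.mem_union_left _ h6, Finset.mem_union_left _ h7,
              Finset.mem_union_left _ h8, Finset.mem_union_left _ h9⟩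
        · exact Or.inr ⟨Finset.mem_union_right _ (Finset.mem_inter.2 ⟨hv', p⟩),
            Finset.mem_union_right _ (Finset.mem_inter.2 ⟨ha', q⟩),
            Finset.mem_union_right _ (Finset.mem_inter.2 ⟨hb', s⟩),
            Finset.mem_union_right _ (Finset.mem_inter.2 ⟨hc', t⟩)⟩

theorem chain_exists (ham : AmalgProp V) (r : Rels V) (Z Y0 Y1 : Finset V) (hZ : Ax r (Z : Set V))
    (h0 : Cl r.G Y0 (Z : Set V)) (h1 : Cl r.G Y1 (Z : Set V)) (g : V → V)
    (hg : RefOn r r (Y0 : Set V) g) (hgi : Y0.image g = Y1) (hgC : ∀ x ∈ Y0 ∩ Y1, g x = x)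
    (m : ℕ) : ∃ Q D e, Chain r Z Y0 Y1 g m Q D e := by
  induction m with
  | zero => exact ⟨_, _, _, chain_zero r Z Y0 Y1 hZ g⟩
  | succ m ih =>
    obtain ⟨Q, D, e, h⟩ := ih
    exact chain_succ ham r Z Y0 Y1 hZ h0 h1 g hg hgi hgC m Q D e h

theorem exists_chain_cl (ham : AmalgProp V) (r : Rels V) (Z Y0 Y1 : Finset V) (hZ : Ax r (Z : Set V))
    (h0 : Cl r.G Y0 (Z : Set V)) (h1 : Cl r.G Y1 (Z : Set V)) (g : V → V)
    (hg : RefOn r r (Y0 : Set V) g) (hgi : Y0.image g = Y1) (hgC : ∀ x ∈ Y0 ∩ Y1, g x = x)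
    (hne : ¬ Y0 ⊆ Y1) :
    ∃ (k : ℕ) (Q : Rels V) (D : Finset V) (e : ℕ → V → V), 2 ≤ k ∧ Ax Q (D : Set V) ∧
      (∀ i < k, RefOn r Q (Z : Set V) (e i) ∧ Cl Q.G (Z.image (e i)) (D : Set V)) ∧
      (∀ i, i + 1 < k → ∀ x ∈ Y0, e (i + 1) x = e i (g x)) ∧
      (∀ i < k, 0 < i → Y0.image (e 0) ∩ Z.image (e i) ⊆ (Y0 ∩ Y1).image (e 0)) ∧
      (∀ i, i + 1 < k → Y1.image (e (k - 1)) ∩ Z.image (e i) ⊆ (Y0 ∩ Y1).image (e 0)) ∧
      Z.image (e 0) ∩ Z.image (e (k - 1)) = (Y0 ∩ Y1).image (e 0) ∧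
      FreeR Q (Z.image (e 0)) (Z.image (e (k - 1))) ∧
      Cl Q.G (Z.image (e 0) ∪ Z.image (e (k - 1))) (D : Set V) := by
  have hY0 : Y0 ⊆ Z := by exact_mod_cast h0.sub
  have hY1 : Y1 ⊆ Z := by exact_mod_cast h1.sub
  set m : ℕ := (dl r.G Z).toNat + 1 with hmdef
  obtain ⟨Q, D, e, h⟩ := chain_exists ham r Z Y0 Y1 hZ h0 h1 g hg hgi hgC m
  have hconst := h.const hgC
  have hm1 : 1 ≤ m := by omega
  have href0 := h.ref 0 (Nat.zero_le _)
  have hrefm := h.ref m le_rfl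
  have hcl0 := h.cl 0 (Nat.zero_le _)
  have hclm := h.cl m le_rfl
  have hd0 : dl Q.G (Z.image (e 0)) = dl r.G Z := href0.dl (X := Z) subset_rfl
  have hdm : dl Q.G (Z.image (e m)) = dl r.G Z := hrefm.dl (X := Z) subset_rfl
  have hZ0D : Z.image (e 0) ⊆ D := by exact_mod_cast hcl0.sub
  have hZmD : Z.image (e m) ⊆ D := by exact_mod_cast hclm.sub
  have hmgt : dl r.G Z < m := by
    have : dl r.G Z ≤ (dl r.G Z).toNat := Int.self_le_toNat _
    rw [hmdef]
    push_cast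
    omega
  have hnonneg : ∀ X : Finset V, X ⊆ D → 0 ≤ dl Q.G X := by
    intro X hX
    have := h.ax.gr.cl_empty.le (X := X) (by exact_mod_cast hX) (Finset.empty_subset _)
    rwa [dl_empty] at this
  have hCm : (Y0 ∩ Y1).image (e m) = (Y0 ∩ Y1).image (e 0) :=
    Finset.image_congr (fun x hx => hconst m le_rfl x hx)
  have hC0Z0 : (Y0 ∩ Y1).image (e 0) ⊆ Z.image (e 0) :=
    Finset.image_subset_image (Finset.inter_subset_left.trans hY0)
  have hC0Zm : (Y0 ∩ Y1).image (e 0) ⊆ Z.image (e m) := by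
    rw [← hCm]
    exact Finset.image_subset_image (Finset.inter_subset_left.trans hY0)
  -- (b) is impossible for `X ⊇ Z^m`
  have hnb : ∀ X : Finset V, Z.image (e m) ⊆ X →
      ¬ (X ∩ Y1.image (e m) ⊆ (Y0 ∩ Y1).image (e 0)) := by
    intro X hX hcon
    have h2 : Y1.image (e m) ⊆ (Y0 ∩ Y1).image (e m) := by
      rw [hCm]
      intro y hy
      exact hcon (Finset.mem_inter.2 ⟨hX (Finset.image_subset_image hY1 hy), hy⟩)
    have h3 : Y1 ⊆ Y0 ∩ Y1 := by
      intro y hy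
      obtain ⟨z, hz, hzy⟩ := Finset.mem_image.1 (h2 (Finset.mem_image_of_mem (e m) hy))
      have : z = y := hrefm.inj (hY1 (Finset.mem_inter.1 hz).2) (hY1 hy) hzy
      exact this ▸ hz
    have h4 : Y1 ⊆ Y0 := h3.trans Finset.inter_subset_left
    have h5 : Y1.card = Y0.card := by
      rw [← hgi]
      exact Finset.card_image_of_injOn hg.inj
    have h6 : Y1 = Y0 := Finset.eq_of_subset_of_card_le h4 h5.ge
    exact hne (by rw [h6])
  -- the trichotomy for `X ⊇ Z^0 ∪ Z^m`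
  have htri : ∀ X : Finset V, X ⊆ D → Z.image (e 0) ∪ Z.image (e m) ⊆ X →
      dl Q.G (Z.image (e 0)) + m ≤ dl Q.G X ∨
      ∃ X' X'' : Finset V, X = X' ∪ X'' ∧ X' ∩ X'' = (Y0 ∩ Y1).image (e 0) ∧ FreeR Q X' X'' ∧
        Z.image (e 0) ⊆ X' ∧ Z.image (e m) ⊆ X'' ∧
        dl Q.G X + dl Q.G ((Y0 ∩ Y1).image (e 0)) = dl Q.G X' + dl Q.G X'' := by
    intro X hX hZX
    have hZX0 := Finset.subset_union_left.trans hZX
    have hZXm := Finset.subset_union_right.trans hZX
    rcases h.c6 X hX hZX0 with ha | ⟨hb, _⟩ | ⟨X', X'', hc1, hc2, hc3, hc4, hc5⟩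
    · exact Or.inl ha
    · exact absurd hb (hnb X hZXm)
    · right
      refine ⟨X', X'', hc1, hc2, hc3, hc4, ?_, ?_⟩
      · rwa [Finset.inter_eq_right.2 hZXm] at hc5
      · have h5 := hc3.G.dl_eq (X := X) (by rw [hc1])
        have h6 : X ∩ (X' ∩ X'') = (Y0 ∩ Y1).image (e 0) := by
          rw [hc2]
          exact Finset.inter_eq_right.2 (hC0Z0.trans hZX0)
        have h7 : X ∩ X' = X' := Finset.inter_eq_right.2 (by
          rw [hc1]; exact Finset.subset_union_left)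
        have h8 : X ∩ X'' = X'' := Finset.inter_eq_right.2 (by
          rw [hc1]; exact Finset.subset_union_right)
        rw [h6, h7, h8] at h5
        exact h5
  -- the union of the end copies
  have hUD : Z.image (e 0) ∪ Z.image (e m) ⊆ D := Finset.union_subset hZ0D hZmD
  have hsub := dl_submod (G := Q.G) (Z.image (e 0)) (Z.image (e m))
  have hnn := hnonneg (Z.image (e 0) ∩ Z.image (e m)) (Finset.inter_subset_left.trans hZ0D)
  have hUdl : dl Q.G (Z.image (e 0) ∪ Z.image (e m)) < dl Q.G (Z.image (e 0)) + m := by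
    omega
  obtain ⟨X', X'', hc1, hc2, hc3, hc4, hc5, hc6⟩ : ∃ X' X'' : Finset V,
      Z.image (e 0) ∪ Z.image (e m) = X' ∪ X'' ∧
      X' ∩ X'' = (Y0 ∩ Y1).image (e 0) ∧ FreeR Q X' X'' ∧
        Z.image (e 0) ⊆ X' ∧ Z.image (e m) ⊆ X'' ∧
        dl Q.G (Z.image (e 0) ∪ Z.image (e m)) + dl Q.G ((Y0 ∩ Y1).image (e 0)) =
          dl Q.G X' + dl Q.G X'' := by
    rcases htri _ hUD subset_rfl with ha | hc
    · exact absurd ha (by omega)
    · exact hc
  have hX' : X' = Z.image (e 0) := by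
    apply Finset.Subset.antisymm _ hc4
    intro y hy
    have hy1 : y ∈ Z.image (e 0) ∪ Z.image (e m) := by
      rw [hc1]
      exact Finset.mem_union_left _ hy
    rcases Finset.mem_union.1 hy1 with h2 | h2
    · exact h2
    · apply hC0Z0
      rw [← hc2]
      exact Finset.mem_inter.2 ⟨hy, hc5 h2⟩
  have hX'' : X'' = Z.image (e m) := by
    apply Finset.Subset.antisymm _ hc5
    intro y hy
    have hy1 : y ∈ Z.image (e 0) ∪ Z.image (e m) := by
      rw [hc1]
      exact Finset.mem_union_right _ hy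
    rcases Finset.mem_union.1 hy1 with h2 | h2
    · apply hC0Zm
      rw [← hc2]
      exact Finset.mem_inter.2 ⟨hc4 h2, hy⟩
    · exact h2
  rw [hX', hX''] at hc2 hc3 hc6
  refine ⟨m + 1, Q, D, e, by omega, h.ax, fun i hi => ⟨h.ref i (by omega), h.cl i (by omega)⟩,
    fun i hi => h.nxt i (by omega), fun i hi hi0 => h.c4 i (by omega) hi0, ?_, ?_, ?_, ?_⟩
  · intro i hi
    exact h.c5 i (by omega)
  · exact hc2
  · exact hc3
  · refine ⟨by exact_mod_cast hUD, ?_⟩
    intro X hX hUX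
    have hX1 : X ⊆ D := by exact_mod_cast hX
    rcases htri X hX1 hUX.1 with ha | ⟨W', W'', hw1, hw2, hw3, hw4, hw5, hw6⟩
    · show dl Q.G (Z.image (e 0) ∪ Z.image (e m)) < dl Q.G X
      omega
    · show dl Q.G (Z.image (e 0) ∪ Z.image (e m)) < dl Q.G X
      have hW'D : W' ⊆ D := by
        refine Finset.Subset.trans ?_ hX1
        rw [hw1]
        exact Finset.subset_union_left
      have hW''D : W'' ⊆ D := by
        refine Finset.Subset.trans ?_ hX1
        rw [hw1]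
        exact Finset.subset_union_right
      have h5 := hcl0.le (X := W') (by exact_mod_cast hW'D) hw4
      have h6 := hclm.le (X := W'') (by exact_mod_cast hW''D) hw5
      by_cases h7 : Z.image (e 0) = W'
      · by_cases h8 : Z.image (e m) = W''
        · exfalso
          rw [← h7, ← h8] at hw1
          exact (Finset.ssubset_iff_subset_ne.1 hUX).2 hw1.symm
        · have := hclm.lt W'' (by exact_mod_cast hW''D) (Finset.ssubset_iff_subset_ne.2 ⟨hw5, h8⟩)
          omega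
      · have := hcl0.lt W' (by exact_mod_cast hW'D) (Finset.ssubset_iff_subset_ne.2 ⟨hw4, h7⟩)
        omega

theorem exists_chain_inst [inst : DecidableEq V] (ham : AmalgProp V) (r : Rels V) (Z Y0 Y1 : Finset V) (hZ : Ax r (Z : Set V))
    (h0 : Cl r.G Y0 (Z : Set V)) (h1 : Cl r.G Y1 (Z : Set V)) (g : V → V)
    (hg : RefOn r r (Y0 : Set V) g) (hgi : Y0.image g = Y1) (hgC : ∀ x ∈ Y0 ∩ Y1, g x = x)
    (hne : ¬ Y0 ⊆ Y1) :
    ∃ (k : ℕ) (Q : Rels V) (D : Finset V) (e : ℕ → V → V), 2 ≤ k ∧ Ax Q (D : Set V) ∧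
      (∀ i < k, RefOn r Q (Z : Set V) (e i) ∧ Cl Q.G (Z.image (e i)) (D : Set V)) ∧
      (∀ i, i + 1 < k → ∀ x ∈ Y0, e (i + 1) x = e i (g x)) ∧
      (∀ i < k, 0 < i → Y0.image (e 0) ∩ Z.image (e i) ⊆ (Y0 ∩ Y1).image (e 0)) ∧
      (∀ i, i + 1 < k → Y1.image (e (k - 1)) ∩ Z.image (e i) ⊆ (Y0 ∩ Y1).image (e 0)) ∧
      Z.image (e 0) ∩ Z.image (e (k - 1)) = (Y0 ∩ Y1).image (e 0) ∧
      FreeR Q (Z.image (e 0)) (Z.image (e (k - 1))) ∧
      Cl Q.G (Z.image (e 0) ∪ Z.image (e (k - 1))) (D : Set V) := by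
  obtain rfl : inst = fun a b => Classical.propDecidable (a = b) := Subsingleton.elim _ _
  exact exists_chain_cl ham r Z Y0 Y1 hZ h0 h1 g hg hgi hgC hne

theorem exists_chain (r : Rels ℕ) (Z Y0 Y1 : Finset ℕ) (hZ : Ax r (Z : Set ℕ))
    (h0 : Cl r.G Y0 (Z : Set ℕ)) (h1 : Cl r.G Y1 (Z : Set ℕ)) (g : ℕ → ℕ)
    (hg : RefOn r r (Y0 : Set ℕ) g) (hgi : Y0.image g = Y1) (hgC : ∀ x ∈ Y0 ∩ Y1, g x = x)
    (hne : ¬ Y0 ⊆ Y1) :
    ∃ (k : ℕ) (Q : Rels ℕ) (D : Finset ℕ) (e : ℕ → ℕ → ℕ), 2 ≤ k ∧ Ax Q (D : Set ℕ) ∧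
      (∀ i < k, RefOn r Q (Z : Set ℕ) (e i) ∧ Cl Q.G (Z.image (e i)) (D : Set ℕ)) ∧
      (∀ i, i + 1 < k → ∀ x ∈ Y0, e (i + 1) x = e i (g x)) ∧
      (∀ i < k, 0 < i → Y0.image (e 0) ∩ Z.image (e i) ⊆ (Y0 ∩ Y1).image (e 0)) ∧
      (∀ i, i + 1 < k → Y1.image (e (k - 1)) ∩ Z.image (e i) ⊆ (Y0 ∩ Y1).image (e 0)) ∧
      Z.image (e 0) ∩ Z.image (e (k - 1)) = (Y0 ∩ Y1).image (e 0) ∧
      FreeR Q (Z.image (e 0)) (Z.image (e (k - 1))) ∧
      Cl Q.G (Z.image (e 0) ∪ Z.image (e (k - 1))) (D : Set ℕ) :=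
  exists_chain_inst (fun Q D hQ q A B hq hAB g hg hgc =>
    amalg_nat Q D hQ q A B hq hAB g hg hgc) r Z Y0 Y1 hZ h0 h1 g hg hgi hgC hne

end H968E
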