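import Pool.Agent.helper968_kim.Defs

/-!
Definitions used in the statement about the existence axiom.

`SKF.Fml L n U` is the type of formulas `φ(x, c)` in `n` variables with a tuple `c` of parameters
from `U`; `SKF.Fml.Holds`, `SKF.Fml.Over`, `SKF.FinSat`, `SKF.IsTypeOver` and `SKF.IsMonster` are
defined in `Pool.Agent.helper968_kim.Defs`.
-/

namespace EXA

open FirstOrder FirstOrder.Language SKF

variable {L : FirstOrder.Language.{0, 0}} {U : Type} [L.Structure U] {n : ℕ}

/-- The sequence `(b_i)_{i < ω}` of `k`-tuples of `U` is `A`-indiscernible: for all `i_0 < … <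
i_{m-1}` and `j_0 < … < j_{m-1}` the tuples `b_{i_0} … b_{i_{m-1}}` and `b_{j_0} … b_{j_{m-1}}`
satisfy the same formulas with parameters in `A`. -/
def Indiscernible (L : FirstOrder.Language.{0, 0}) [L.Structure U] (A : Set U) {k : ℕ}
    (b : ℕ → Fin k → U) : Prop :=
  ∀ (m l : ℕ) (φ : L.Formula ((Fin m × Fin k) ⊕ Fin l)) (a : Fin l → U), (∀ t, a t ∈ A) →
    ∀ i j : Fin m → ℕ, StrictMono i → StrictMono j →
      (φ.Realize (Sum.elim (fun t => b (i t.1) t.2) a) ↔
        φ.Realize (Sum.elim (fun t => b (j t.1) t.2) a))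

/-- The formula `φ(x, c)` divides over `A`: for some `A`-indiscernible sequence `(b_i)_{i < ω}` with
`b_0 = c` the set `{φ(x, b_i) : i < ω}` is inconsistent. -/
def Divides (A : Set U) (ψ : Fml L n U) : Prop :=
  ∃ b : ℕ → Fin ψ.len → U, b 0 = ψ.par ∧ Indiscernible L A b ∧
    ¬ FinSat (Set.range fun i => (⟨ψ.len, ψ.form, b i⟩ : Fml L n U))

/-- The formula `φ(x, c)` forks over `A`: it implies a finite disjunction of formulas each of which
divides over `A`. -/
def Forks (A : Set U) (ψ : Fml L n U) : Prop :=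
  ∃ s : Set (Fml L n U), s.Finite ∧ (∀ θ ∈ s, Divides A θ) ∧
    ∀ a : Fin n → U, ψ.Holds a → ∃ θ ∈ s, θ.Holds a

/-- `T` has the strict order property: for some formula `φ(x, y)`, with `x` a `k`-tuple and `y` an
`l`-tuple of variables, some model `N` of `T` contains `(b_i)_{i < ω}` with
`φ(N, b_i) ⊊ φ(N, b_{i+1})` for all `i`. -/
def HasSOP (T : L.Theory) : Prop :=
  ∃ (N : Type) (_ : L.Structure N) (_ : N ⊨ T) (k l : ℕ) (φ : L.Formula (Fin k ⊕ Fin l))
    (b : ℕ → Fin l → N),
    ∀ i, {a : Fin k → N | φ.Realize (Sum.elim a (b i))} ⊂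
      {a : Fin k → N | φ.Realize (Sum.elim a (b (i + 1)))}

/-- `T` is countably categorical: the language is countable, `T` has a countable infinite model, and
any two countable models of `T` are isomorphic. -/
structure CountablyCategorical (T : L.Theory) : Prop where
  countable_language : Countable L.Symbols
  exists_model : ∃ (M : Type) (_ : L.Structure M), M ⊨ T ∧ Countable M ∧ Infinite M
  unique : ∀ (M N : Type) [L.Structure M] [L.Structure N], M ⊨ T → N ⊨ T → Countable M →
    Countable N → Nonempty (M ≃[L] N)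

end EXA
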