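import Mathlib

set_option autoImplicit false

open FirstOrder FirstOrder.Language

namespace EqFT

variable {L : FirstOrder.Language.{0, 0}} {M N : Type} [L.Structure M] [L.Structure N]

/-- same type -/
def Corr (L : FirstOrder.Language.{0, 0}) {M N : Type} [L.Structure M] [L.Structure N] {n : ℕ}
    (a : Fin n → M) (b : Fin n → N) : Prop :=
  ∀ φ : L.Formula (Fin n), φ.Realize a ↔ φ.Realize b

theorem transfer (hMN : ∀ φ : L.Sentence, M ⊨ φ ↔ N ⊨ φ) {n : ℕ} (χ : L.Formula (Fin n))
    (h : ∀ a : Fin n → M, χ.Realize a) (b : Fin n → N) : χ.Realize b := by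
  have h1 := hMN ((χ.relabel (Sum.inr : Fin n → Empty ⊕ Fin n)).iAlls (Fin n))
  have h2 : M ⊨ ((χ.relabel (Sum.inr : Fin n → Empty ⊕ Fin n)).iAlls (Fin n)) := by
    refine (Formula.realize_iAlls (L := L) (M := M) (v := default)).2 fun i => ?_
    rw [Formula.realize_relabel]
    exact h _
  have h3 := (Formula.realize_iAlls (L := L) (M := N) (v := default)).1 (h1.1 h2) b
  rw [Formula.realize_relabel] at h3
  exact h3

theorem isolate {n : ℕ}
    (hfin : (Set.range fun a : Fin n → M => {φ : L.Formula (Fin n) | φ.Realize a}).Finite)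
    (a : Fin n → M) : ∃ ψ : L.Formula (Fin n), ψ.Realize a ∧
      ∀ b : Fin n → M, ψ.Realize b → Corr L a b := by
  have := hfin.to_subtype
  have h1 : ∀ t : (Set.range fun a : Fin n → M => {φ : L.Formula (Fin n) | φ.Realize a}),
      ∃ φ : L.Formula (Fin n), φ.Realize a ∧ (φ ∈ t.1 → t.1 = {φ : L.Formula (Fin n) | φ.Realize a}) := by
    rintro ⟨t, c, rfl⟩
    by_cases h : {φ : L.Formula (Fin n) | φ.Realize c} = {φ : L.Formula (Fin n) | φ.Realize a}
    · exact ⟨⊤, by simp, fun _ => h⟩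
    · have h2 : ∃ φ : L.Formula (Fin n), ¬ (φ.Realize c ↔ φ.Realize a) := by
        by_contra h3
        push Not at h3
        exact h (Set.ext fun φ => h3 φ)
      obtain ⟨φ, hφ⟩ := h2
      by_cases h4 : φ.Realize a
      · refine ⟨φ, h4, fun h5 => ?_⟩
        exact absurd (⟨fun _ => h4, fun _ => h5⟩ : φ.Realize c ↔ φ.Realize a) hφ
      · refine ⟨φ.not, by rw [Formula.realize_not]; exact h4, fun h5 => ?_⟩
        have h6 : ¬ φ.Realize c := by
          have : (φ.not).Realize c := h5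
          rwa [Formula.realize_not] at this
        exact absurd (⟨fun h => absurd h h6, fun h => absurd h h4⟩ : φ.Realize c ↔ φ.Realize a) hφ
  choose φ hφ1 hφ2 using h1
  refine ⟨Formula.iInf φ, by rw [Formula.realize_iInf]; exact hφ1, fun b hb => ?_⟩
  rw [Formula.realize_iInf] at hb
  have h3 := hφ2 ⟨_, b, rfl⟩ (hb ⟨_, b, rfl⟩)
  intro χ
  have h4 := Set.ext_iff.1 h3 χ
  exact h4.symm

theorem isolateN (hMN : ∀ φ : L.Sentence, M ⊨ φ ↔ N ⊨ φ) {n : ℕ}
    (hfin : (Set.range fun a : Fin n → M => {φ : L.Formula (Fin n) | φ.Realize a}).Finite)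
    (a : Fin n → M) : ∃ ψ : L.Formula (Fin n), ψ.Realize a ∧
      (∀ b : Fin n → M, ψ.Realize b → Corr L a b) ∧ ∀ b : Fin n → N, ψ.Realize b → Corr L a b := by
  obtain ⟨ψ, h1, h2⟩ := isolate hfin a
  refine ⟨ψ, h1, h2, fun b hb φ => ?_⟩
  have key : ∀ φ : L.Formula (Fin n), φ.Realize a → φ.Realize b := by
    intro φ hφ
    have h3 := transfer (N := N) hMN (ψ.imp φ) (fun c => by
      rw [Formula.realize_imp]
      exact fun hc => (h2 c hc φ).1 hφ) b
    rw [Formula.realize_imp] at h3
    exact h3 hb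
  refine ⟨key φ, fun h => ?_⟩
  by_contra h4
  have h5 := key φ.not (by rw [Formula.realize_not]; exact h4)
  rw [Formula.realize_not] at h5
  exact h5 h

theorem cover (hMN : ∀ φ : L.Sentence, M ⊨ φ ↔ N ⊨ φ) {n : ℕ}
    (hfin : (Set.range fun a : Fin n → M => {φ : L.Formula (Fin n) | φ.Realize a}).Finite)
    (b : Fin n → N) : ∃ a : Fin n → M, Corr L a b := by
  have := hfin.to_subtype
  have h1 : ∀ t : (Set.range fun a : Fin n → M => {φ : L.Formula (Fin n) | φ.Realize a}),
      ∃ a : Fin n → M, {φ : L.Formula (Fin n) | φ.Realize a} = t.1 := fun t => t.2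
  choose a ha using h1
  have h2 := fun t => isolateN (N := N) hMN hfin (a t)
  choose ψ h3 h4 h5 using h2
  have h6 := transfer (N := N) hMN (Formula.iSup ψ) (fun c => by
    rw [Formula.realize_iSup]
    refine ⟨⟨_, c, rfl⟩, ?_⟩
    have h7 := ha ⟨_, c, rfl⟩
    have h8 := h3 ⟨_, c, rfl⟩
    exact (Set.ext_iff.1 h7 _).1 h8) b
  rw [Formula.realize_iSup] at h6
  obtain ⟨t, ht⟩ := h6
  exact ⟨a t, h5 t b ht⟩

/-- existential quantification of the last variable -/
noncomputable def exl {n : ℕ} (ψ : L.Formula (Fin (n + 1))) : L.Formula (Fin n) :=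
  (ψ.relabel (Fin.snoc (α := fun _ => Fin n ⊕ Unit) Sum.inl (Sum.inr ()))).iExs Unit

theorem realize_exl {K : Type} [L.Structure K] {n : ℕ} (ψ : L.Formula (Fin (n + 1)))
    (a : Fin n → K) :
    (exl ψ).Realize a ↔ ∃ c : K, ψ.Realize (Fin.snoc (α := fun _ => K) a c) := by
  rw [exl, Formula.realize_iExs]
  have key : ∀ i : Unit → K, (Sum.elim a i) ∘ (Fin.snoc (α := fun _ => Fin n ⊕ Unit) Sum.inl (Sum.inr ()))
      = Fin.snoc (α := fun _ => K) a (i ()) := by
    intro i
    funext j
    refine Fin.lastCases ?_ (fun j => ?_) j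
    · simp
    · simp
  constructor
  · rintro ⟨i, hi⟩
    rw [Formula.realize_relabel, key] at hi
    exact ⟨i (), hi⟩
  · rintro ⟨c, hc⟩
    refine ⟨fun _ => c, ?_⟩
    rw [Formula.realize_relabel, key]
    exact hc

theorem forth (hMN : ∀ φ : L.Sentence, M ⊨ φ ↔ N ⊨ φ)
    (hfin : ∀ n : ℕ,
      (Set.range fun a : Fin n → M => {φ : L.Formula (Fin n) | φ.Realize a}).Finite)
    {n : ℕ} {a : Fin n → M} {b : Fin n → N} (h : Corr L a b) (c : M) :
    ∃ d : N, Corr L (Fin.snoc (α := fun _ => M) a c) (Fin.snoc (α := fun _ => N) b d) := by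
  obtain ⟨ψ, h1, _, h3⟩ := isolateN (N := N) hMN (hfin (n + 1)) (Fin.snoc (α := fun _ => M) a c)
  have h4 := (h (exl ψ)).1 ((realize_exl ψ a).2 ⟨c, h1⟩)
  rw [realize_exl] at h4
  obtain ⟨d, hd⟩ := h4
  exact ⟨d, h3 _ hd⟩

theorem back (hMN : ∀ φ : L.Sentence, M ⊨ φ ↔ N ⊨ φ)
    (hfin : ∀ n : ℕ,
      (Set.range fun a : Fin n → M => {φ : L.Formula (Fin n) | φ.Realize a}).Finite)
    {n : ℕ} {a : Fin n → M} {b : Fin n → N} (h : Corr L a b) (d : N) :
    ∃ c : M, Corr L (Fin.snoc (α := fun _ => M) a c) (Fin.snoc (α := fun _ => N) b d) := by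
  obtain ⟨t, ht⟩ := cover (N := N) hMN (hfin (n + 1)) (Fin.snoc (α := fun _ => N) b d)
  obtain ⟨ψ, h1, h2, _⟩ := isolateN (N := N) hMN (hfin (n + 1)) t
  have h4 := (h (exl ψ)).2 ((realize_exl ψ b).2 ⟨d, (ht ψ).1 h1⟩)
  rw [realize_exl] at h4
  obtain ⟨c, hc⟩ := h4
  exact ⟨c, fun φ => (h2 _ hc φ).symm.trans (ht φ)⟩

theorem corr0 (hMN : ∀ φ : L.Sentence, M ⊨ φ ↔ N ⊨ φ) (a : Fin 0 → M) (b : Fin 0 → N) :
    Corr L a b := by
  intro φ
  have key : ∀ φ : L.Formula (Fin 0), φ.Realize a → φ.Realize b := fun φ h =>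
    transfer (N := N) hMN φ (fun c => by rw [Subsingleton.elim c a]; exact h) b
  refine ⟨key φ, fun h => ?_⟩
  by_contra h4
  have h5 := key φ.not (by rw [Formula.realize_not]; exact h4)
  rw [Formula.realize_not] at h5
  exact h5 h

/-- the final step: enumerations with the same finite types give an isomorphism -/
theorem final (x : ℕ → M) (y : ℕ → N) (hx : Function.Surjective x) (hy : Function.Surjective y)
    (h : ∀ n, Corr L (fun i : Fin n => x i) (fun i : Fin n => y i)) : Nonempty (M ≃[L] N) := by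
  -- equality
  have heq : ∀ i j, x i = x j ↔ y i = y j := by
    intro i j
    have h1 := h (max i j + 1) (Term.equal (Term.var ⟨i, by omega⟩) (Term.var ⟨j, by omega⟩))
    rw [Formula.realize_equal, Formula.realize_equal] at h1
    simpa using h1
  have hbound : ∀ {k : ℕ} (i : Fin k → ℕ), ∃ n, ∀ l, i l < n := by
    intro k i
    obtain ⟨n, hn⟩ := (Set.finite_range i).bddAbove
    exact ⟨n + 1, fun l => Nat.lt_succ_of_le (hn ⟨l, rfl⟩)⟩
  let ix : M → ℕ := Function.surjInv hx
  let iy : N → ℕ := Function.surjInv hy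
  have hix : ∀ m, x (ix m) = m := Function.surjInv_eq hx
  have hiy : ∀ m, y (iy m) = m := Function.surjInv_eq hy
  refine ⟨⟨⟨fun m => y (ix m), fun m => x (iy m), ?_, ?_⟩, ?_, ?_⟩⟩
  · intro m
    show x (iy (y (ix m))) = m
    rw [(heq (iy (y (ix m))) (ix m)).2 (hiy _), hix]
  · intro m
    show y (ix (x (iy m))) = m
    rw [(heq (ix (x (iy m))) (iy m)).1 (hix _), hiy]
  · intro k f v
    show y (ix (Structure.funMap f v)) = Structure.funMap f (fun l => y (ix (v l)))
    obtain ⟨n, hn⟩ := hbound (fun l => ix (v l))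
    have h1 := h (max n (ix (Structure.funMap f v) + 1))
      (Term.equal (Term.var ⟨ix (Structure.funMap f v), by omega⟩)
        (Term.func f fun l => Term.var ⟨ix (v l), lt_of_lt_of_le (hn l) (le_max_left _ _)⟩))
    rw [Formula.realize_equal, Formula.realize_equal] at h1
    simp only [Term.realize_var, Term.realize_func, hix] at h1
    exact h1.1 trivial
  · intro k r v
    show Structure.RelMap r (fun l => y (ix (v l))) ↔ _
    obtain ⟨n, hn⟩ := hbound (fun l => ix (v l))
    have h1 := h n (Relations.formula r fun l => Term.var ⟨ix (v l), hn l⟩)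
    rw [Formula.realize_rel, Formula.realize_rel] at h1
    simp only [Term.realize_var, hix] at h1
    exact h1.symm

end EqFT

theorem equiv_of_finite_types {L : FirstOrder.Language.{0, 0}} {M N : Type} [L.Structure M]
    [L.Structure N] [Countable M] [Countable N]
    (hMN : ∀ φ : L.Sentence, M ⊨ φ ↔ N ⊨ φ)
    (hfin : ∀ n : ℕ,
      (Set.range fun a : Fin n → M => {φ : L.Formula (Fin n) | φ.Realize a}).Finite) :
    Nonempty (M ≃[L] N) := by
  classical
  rcases isEmpty_or_nonempty M with hM | hM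
  · have hN : IsEmpty N := ⟨fun d => by
      obtain ⟨a, _⟩ := EqFT.cover (N := N) hMN (hfin 1) (fun _ => d)
      exact hM.elim (a 0)⟩
    refine ⟨⟨⟨fun m => hM.elim m, fun m => hN.elim m, fun m => hM.elim m, fun m => hN.elim m⟩,
      ?_, ?_⟩⟩
    · intro k f v
      exact hM.elim (Structure.funMap f v)
    · intro k r v
      cases k with
      | zero =>
        have h1 := EqFT.corr0 hMN v (fun l => Fin.elim0 l)
          (Relations.formula r fun l => Fin.elim0 l)
        rw [Formula.realize_rel, Formula.realize_rel] at h1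
        constructor
        · intro h
          have h2 := h1.2 (Eq.mp (congrArg (Structure.RelMap r) (Subsingleton.elim _ _)) h)
          exact Eq.mp (congrArg (Structure.RelMap r) (Subsingleton.elim _ _)) h2
        · intro h
          have h2 := h1.1 (Eq.mp (congrArg (Structure.RelMap r) (Subsingleton.elim _ _)) h)
          exact Eq.mp (congrArg (Structure.RelMap r) (Subsingleton.elim _ _)) h2
      | succ k => exact hM.elim (v 0)
  · obtain ⟨m0⟩ := hM
    obtain ⟨n0, _⟩ := EqFT.forth hMN hfin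
      (EqFT.corr0 hMN (fun l : Fin 0 => Fin.elim0 l) (fun l : Fin 0 => Fin.elim0 l)) m0
    have : Nonempty M := ⟨m0⟩
    have : Nonempty N := ⟨n0⟩
    obtain ⟨eM, heM⟩ := exists_surjective_nat M
    obtain ⟨eN, heN⟩ := exists_surjective_nat N
    -- one step
    have step : ∀ (n : ℕ) (p : {p : (Fin n → M) × (Fin n → N) // EqFT.Corr L p.1 p.2}),
        ∃ q : M × N, EqFT.Corr L (Fin.snoc (α := fun _ => M) p.1.1 q.1)
          (Fin.snoc (α := fun _ => N) p.1.2 q.2) ∧
          (n % 2 = 0 → q.1 = eM (n / 2)) ∧ (n % 2 = 1 → q.2 = eN (n / 2)) := by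
      rintro n ⟨p, hp⟩
      rcases Nat.mod_two_eq_zero_or_one n with h0 | h0
      · obtain ⟨d, hd⟩ := EqFT.forth hMN hfin hp (eM (n / 2))
        exact ⟨(eM (n / 2), d), hd, fun _ => rfl, fun h => by omega⟩
      · obtain ⟨c, hc⟩ := EqFT.back hMN hfin hp (eN (n / 2))
        exact ⟨(c, eN (n / 2)), hc, fun h => by omega, fun _ => rfl⟩
    choose q hq1 hq2 hq3 using step
    let S : (n : ℕ) → {p : (Fin n → M) × (Fin n → N) // EqFT.Corr L p.1 p.2} := fun n =>
      Nat.rec ⟨(fun l => Fin.elim0 l, fun l => Fin.elim0 l), EqFT.corr0 hMN _ _⟩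
        (fun n p => ⟨(Fin.snoc (α := fun _ => M) p.1.1 (q n p).1,
          Fin.snoc (α := fun _ => N) p.1.2 (q n p).2), hq1 n p⟩) n
    have hS : ∀ n, S (n + 1) = ⟨(Fin.snoc (α := fun _ => M) (S n).1.1 (q n (S n)).1,
          Fin.snoc (α := fun _ => N) (S n).1.2 (q n (S n)).2), hq1 n (S n)⟩ := fun n => rfl
    let x : ℕ → M := fun n => (q n (S n)).1
    let y : ℕ → N := fun n => (q n (S n)).2
    have hxy : ∀ n, (S n).1.1 = (fun i : Fin n => x i) ∧ (S n).1.2 = (fun i : Fin n => y i) := by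
      intro n
      induction n with
      | zero => exact ⟨funext fun l => Fin.elim0 l, funext fun l => Fin.elim0 l⟩
      | succ n ih =>
        rw [hS]
        constructor
        · funext j
          refine Fin.lastCases ?_ (fun j => ?_) j
          · simp [x]
          · simp [ih.1]
        · funext j
          refine Fin.lastCases ?_ (fun j => ?_) j
          · simp [y]
          · simp [ih.2]
    refine EqFT.final x y ?_ ?_ ?_
    · intro m
      obtain ⟨k, hk⟩ := heM m
      refine ⟨2 * k, ?_⟩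
      rw [← hk]
      have := hq2 (2 * k) (S (2 * k)) (by omega)
      show (q (2 * k) (S (2 * k))).1 = _
      rw [this]
      congr 1
      omega
    · intro m
      obtain ⟨k, hk⟩ := heN m
      refine ⟨2 * k + 1, ?_⟩
      rw [← hk]
      have := hq3 (2 * k + 1) (S (2 * k + 1)) (by omega)
      show (q (2 * k + 1) (S (2 * k + 1))).2 = _
      rw [this]
      congr 1
      omega
    · intro n
      have h1 := (S n).2
      rw [(hxy n).1, (hxy n).2] at h1
      exact h1
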