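import Pool.Agent.helper968_exist.AmalN

/-!
The generic structure (proof by helper176, after the proof of a similar statement in
Pool/Agent/helper968_kim/GenericN.lean).
-/

namespace H968E

open Classical Finset

/-! ### Transfer of the axioms -/

section Generic

attribute [-instance] instDecidableEqNat LinearOrder.toDecidableEq

theorem amalg_nat' {F : Type} (Q : Rels ℕ) (D : Finset ℕ) (hQ : Ax Q (D : Set ℕ)) (q : Rels F)
    (A B : Finset F) (hq : Ax q (B : Set F)) (hAB : Cl q.G A (B : Set F)) (g : F → ℕ)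
    (hg : RefOn q Q (A : Set F) g) (hgc : Cl Q.G (A.image g) (D : Set ℕ)) :
    ∃ (Q' : Rels ℕ) (e : F → ℕ), RefOn Q Q' (D : Set ℕ) id ∧ RefOn q Q' (B : Set F) e ∧
      (∀ x ∈ A, e x = g x) ∧ D ∩ B.image e = A.image g ∧ FreeR Q' D (B.image e) ∧
      Ax Q' ((D ∪ B.image e : Finset ℕ) : Set ℕ) := by
  exact amalg_nat_inst Q D hQ q A B hq hAB g hg hgc

theorem RefOn.ax_push {F V : Type} {Q : Rels F} {r : Rels V} {A : Set F} {g : F → V}
    (h : RefOn Q r A g) (hA : Ax Q A) : Ax r (g '' A) where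
  gr X hX hne := by
    obtain ⟨Y, hY, rfl⟩ := Finset.subset_set_image_iff.1 hX
    have hY' : Y.Nonempty := by
      obtain ⟨x, hx⟩ := hne
      obtain ⟨y, hy, _⟩ := Finset.mem_image.1 hx
      exact ⟨y, hy⟩
    rw [h.dl hY, Finset.card_image_of_injOn (h.inj.mono hY)]
    exact hA.gr Y hY hY'
  GP := by
    rintro _ ⟨u, hu, rfl⟩ _ ⟨v, hv, rfl⟩ huv
    rw [h.P u hu]
    exact hA.GP u hu v hv ((h.G u hu v hv).1 huv)
  RG := by
    rintro _ ⟨v, hv, rfl⟩ _ ⟨a, ha, rfl⟩ _ ⟨b, hb, rfl⟩ _ ⟨c, hc, rfl⟩ h1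
    obtain ⟨h2, h3, h4, h5, h6, h7⟩ := hA.RG v hv a ha b hb c hc ((h.R v hv a ha b hb c hc).1 h1)
    exact ⟨(h.G v hv a ha).2 h2, (h.G v hv b hb).2 h3, (h.G v hv c hc).2 h4,
      fun c' => h5 (h.inj ha hb c'), fun c' => h6 (h.inj ha hc c'), fun c' => h7 (h.inj hb hc c')⟩
  OP := by
    rintro _ ⟨x, hx, rfl⟩ _ ⟨v, hv, rfl⟩ _ ⟨w, hw, rfl⟩ h1
    exact (h.P x hx).2 (hA.OP x hx v hv w hw ((h.O x hx v hv w hw).1 h1))
  act := by
    rintro _ ⟨x, hx, rfl⟩ hp
    have hact := hA.act x hx ((h.P x hx).1 hp)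
    constructor
    · rintro _ ⟨v, hv, rfl⟩ _ ⟨w, hw, rfl⟩ h1
      exact (h.G v hv w hw).2 (hact.adj v hv w hw ((h.O x hx v hv w hw).1 h1))
    · rintro _ ⟨v, hv, rfl⟩ _ ⟨w, hw, rfl⟩ h1
      exact (hact.cov v hv w hw ((h.G v hv w hw).1 h1)).imp (h.O x hx v hv w hw).2
        (h.O x hx w hw v hv).2
    · rintro _ ⟨v, hv, rfl⟩ _ ⟨a, ha, rfl⟩ _ ⟨b, hb, rfl⟩ _ ⟨c, hc, rfl⟩ h1 h2 h3 h4
      exact hact.rf v hv a ha b hb c hc ((h.R v hv a ha b hb c hc).1 h1)
        ((h.O x hx v hv a ha).1 h2) ((h.O x hx v hv b hb).1 h3) ((h.O x hx v hv c hc).1 h4)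

theorem RefOn.ax_pull {F V : Type} {Q : Rels F} {r : Rels V} {A : Set F} {g : F → V}
    (h : RefOn Q r A g) {T : Set V} (hT : ∀ x ∈ A, g x ∈ T) (hA : Ax r T) : Ax Q A where
  gr X hX hne := by
    rw [← h.dl hX, ← Finset.card_image_of_injOn (h.inj.mono hX)]
    refine hA.gr (X.image g) ?_ (hne.image g)
    intro y hy
    obtain ⟨x, hx, rfl⟩ := Finset.mem_image.1 (Finset.mem_coe.1 hy)
    exact hT x (hX hx)
  GP u hu v hv huv := by
    rw [← h.P u hu]
    exact hA.GP _ (hT u hu) _ (hT v hv) ((h.G u hu v hv).2 huv)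
  RG v hv a ha b hb c hc h1 := by
    obtain ⟨h2, h3, h4, h5, h6, h7⟩ := hA.RG _ (hT v hv) _ (hT a ha) _ (hT b hb) _ (hT c hc)
      ((h.R v hv a ha b hb c hc).2 h1)
    exact ⟨(h.G v hv a ha).1 h2, (h.G v hv b hb).1 h3, (h.G v hv c hc).1 h4,
      fun c' => h5 (c' ▸ rfl), fun c' => h6 (c' ▸ rfl), fun c' => h7 (c' ▸ rfl)⟩
  OP x hx v hv w hw h1 :=
    (h.P x hx).1 (hA.OP _ (hT x hx) _ (hT v hv) _ (hT w hw) ((h.O x hx v hv w hw).2 h1))
  act x hx hp := by
    have hact := hA.act _ (hT x hx) ((h.P x hx).2 hp)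
    constructor
    · intro v hv w hw h1
      exact (h.G v hv w hw).1 (hact.adj _ (hT v hv) _ (hT w hw) ((h.O x hx v hv w hw).2 h1))
    · intro v hv w hw h1
      exact (hact.cov _ (hT v hv) _ (hT w hw) ((h.G v hv w hw).2 h1)).imp (h.O x hx v hv w hw).1
        (h.O x hx w hw v hv).1
    · intro v hv a ha b hb c hc h1 h2 h3 h4
      exact hact.rf _ (hT v hv) _ (hT a ha) _ (hT b hb) _ (hT c hc)
        ((h.R v hv a ha b hb c hc).2 h1)
        ((h.O x hx v hv a ha).2 h2) ((h.O x hx v hv b hb).2 h3) ((h.O x hx v hv c hc).2 h4)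

/-- Transfer of the axioms along the identity. -/
theorem ax_id {Q r : Rels ℕ} {A : Set ℕ} (h : RefOn Q r A id) (hA : Ax Q A) : Ax r A := by
  have := h.ax_push hA
  rwa [Set.image_id] at this

/-- Transfer of closedness along the identity. -/
theorem cl_id {Q r : Rels ℕ} {A B : Finset ℕ} (h : RefOn Q r (B : Set ℕ) id)
    (hA : Cl Q.G A (B : Set ℕ)) : Cl r.G A (B : Set ℕ) := by
  have := h.cl hA
  rwa [Finset.image_id, Finset.image_id] at this

theorem RefOn.id_symm {Q r : Rels ℕ} {A : Set ℕ} (h : RefOn Q r A id) : RefOn r Q A id where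
  inj := Set.injOn_id _
  P x hx := (h.P x hx).symm
  G x hx y hy := (h.G x hx y hy).symm
  R v hv a ha b hb c hc := (h.R v hv a ha b hb c hc).symm
  O x hx v hv w hw := (h.O x hx v hv w hw).symm

/-- Composition with an identity on the right hand side. -/
theorem RefOn.comp_idG {F : Type} {Q : Rels F} {r s : Rels ℕ} {A : Set F} {g : F → ℕ} {T : Set ℕ}
    (h : RefOn Q r A g) (h' : RefOn r s T id) (hT : ∀ x ∈ A, g x ∈ T) : RefOn Q s A g where
  inj := h.inj
  P x hx := (h'.P _ (hT x hx)).trans (h.P x hx)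
  G x hx y hy := (h'.G _ (hT x hx) _ (hT y hy)).trans (h.G x hx y hy)
  R v hv a ha b hb c hc := (h'.R _ (hT v hv) _ (hT a ha) _ (hT b hb) _ (hT c hc)).trans
    (h.R v hv a ha b hb c hc)
  O x hx v hv w hw := (h'.O _ (hT x hx) _ (hT v hv) _ (hT w hw)).trans (h.O x hx v hv w hw)

theorem RefOn.rfl_id {Q : Rels ℕ} {A : Set ℕ} : RefOn Q Q A id where
  inj := Set.injOn_id _
  P _ _ := Iff.rfl
  G _ _ _ _ := Iff.rfl
  R _ _ _ _ _ _ _ _ := Iff.rfl
  O _ _ _ _ _ _ := Iff.rfl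

/-! ### Conditions -/

/-- The conditions. -/
structure Cond where
  S : Finset ℕ
  R : Rels ℕ
  ax : Ax R (S : Set ℕ)

/-- The order of the conditions. -/
structure Cond.Le (p q : Cond) : Prop where
  sub : p.S ⊆ q.S
  ref : RefOn p.R q.R (p.S : Set ℕ) id
  cl : Cl q.R.G p.S (q.S : Set ℕ)

theorem Cond.Le.refl (p : Cond) : p.Le p := ⟨Finset.Subset.refl _, RefOn.rfl_id, Cl.refl _⟩

theorem Cond.Le.trans {p q r : Cond} (h : p.Le q) (h' : q.Le r) : p.Le r where
  sub := h.sub.trans h'.sub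
  ref := h.ref.comp_idG h'.ref fun _ hx => h.sub hx
  cl := (cl_id h'.ref h.cl).trans h'.cl

/-- The trivial relations. -/
def Rels.triv : Rels ℕ where
  G := ⊥
  P _ := False
  R _ _ _ _ := False
  O _ _ _ := False

/-- The empty condition. -/
def Cond.empty : Cond where
  S := ∅
  R := Rels.triv
  ax := by
    refine ⟨⟨?_, ?_, ?_⟩, ?_, ?_⟩
    · intro X hX hne
      obtain ⟨x, hx⟩ := hne
      exact absurd (hX hx) (by simp)
    all_goals simp

/-- Restriction of the relations to a finite set. -/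
def Rels.restr (r : Rels ℕ) (S : Finset ℕ) : Rels ℕ where
  G := { Adj := fun x y => r.G.Adj x y ∧ x ∈ S ∧ y ∈ S
         symm := ⟨fun _ _ h => ⟨h.1.symm, h.2.2, h.2.1⟩⟩
         loopless := ⟨fun _ h => h.1.ne rfl⟩ }
  P x := r.P x ∧ x ∈ S
  R v a b c := r.R v a b c ∧ v ∈ S ∧ a ∈ S ∧ b ∈ S ∧ c ∈ S
  O x v w := r.O x v w ∧ x ∈ S ∧ v ∈ S ∧ w ∈ S

theorem Rels.restr_ref (r : Rels ℕ) (S : Finset ℕ) : RefOn r (r.restr S) (S : Set ℕ) id where
  inj := Set.injOn_id _
  P x hx := ⟨fun h => h.1, fun h => ⟨h, hx⟩⟩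
  G x hx y hy := ⟨fun h => h.1, fun h => ⟨h, hx, hy⟩⟩
  R v hv a ha b hb c hc := ⟨fun h => h.1, fun h => ⟨h, hv, ha, hb, hc⟩⟩
  O x hx v hv w hw := ⟨fun h => h.1, fun h => ⟨h, hx, hv, hw⟩⟩

theorem Cond.add_one (p : Cond) (k : ℕ) : ∃ q : Cond, p.Le q ∧ k ∈ q.S := by
  by_cases hk : k ∈ p.S
  · exact ⟨p, Cond.Le.refl p, hk⟩
  set r := p.R.restr p.S with hr
  have href : RefOn p.R r (p.S : Set ℕ) id := p.R.restr_ref p.S
  have hS : Ax r (p.S : Set ℕ) := ax_id href p.ax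
  have hG : ∀ x y, r.G.Adj x y → x ∈ p.S ∧ y ∈ p.S := fun x y h => h.2
  have hT0 : Ax0 r (({k} : Finset ℕ) : Set ℕ) := by
    refine ⟨?_, ?_, ?_⟩
    · intro X hX hne
      have hXk : X = {k} := by
        have h1 : X ⊆ {k} := by exact_mod_cast hX
        rcases Finset.subset_singleton_iff.1 h1 with h | h
        · exact absurd h hne.ne_empty
        · exact h
      subst hXk
      have hes : es r.G ({k} : Finset ℕ) = ∅ := by
        ext e
        simp only [Finset.notMem_empty, iff_false]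
        intro he
        rw [mem_es] at he
        induction e using Sym2.inductionOn with
        | _ x y =>
          have h1 := (hG x y he.2).1
          have h2 := he.1 x (by simp)
          rw [Finset.mem_singleton] at h2
          exact hk (h2 ▸ h1)
      have : dl r.G ({k} : Finset ℕ) = 2 := by
        simp only [dl, hes]
        simp
      rw [this]
      simp
    · intro u hu v _ huv
      have : u = k := by simpa using hu
      exact absurd (hG _ _ huv).1 (this ▸ hk)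
    · intro v hv a _ b _ c _ h
      have : v = k := by simpa using hv
      exact absurd h.2.1 (this ▸ hk)
  have hT : Ax r (({k} : Finset ℕ) : Set ℕ) := by
    refine ⟨hT0, ?_, ?_⟩
    · intro x hx v _ w _ h
      have : x = k := by simpa using hx
      exact absurd h.2.1 (this ▸ hk)
    · intro x hx h
      have : x = k := by simpa using hx
      exact absurd h.2 (this ▸ hk)
  have hint : p.S ∩ {k} = ∅ := by
    ext x
    simp only [Finset.mem_inter, Finset.mem_singleton, Finset.notMem_empty, iff_false]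
    rintro ⟨h1, rfl⟩
    exact hk h1
  have hfree : FreeR r p.S {k} :=
    ⟨fun u _ v _ h => Or.inl (hG u v h), fun v _ a _ b _ c _ h => Or.inl h.2⟩
  have hcS : Cl r.G (p.S ∩ {k}) (p.S : Set ℕ) := by
    rw [hint]; exact hS.gr.cl_empty
  have hcT : Cl r.G (p.S ∩ {k}) (({k} : Finset ℕ) : Set ℕ) := by
    rw [hint]; exact hT.gr.cl_empty
  obtain ⟨o, h1, h2, _⟩ := amalg hfree hS hT hcS hcT (by
    intro x _ v _ w _ h
    have hx : x ∈ (p.S : Set ℕ) := h.2.1
    have hv : v ∈ (p.S : Set ℕ) := h.2.2.1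
    have hw : w ∈ (p.S : Set ℕ) := h.2.2.2
    exact (hS.act x hx (hS.OP x hx v hv w hw h)).adj v hv w hw h)
  refine ⟨⟨p.S ∪ {k}, r.setO o, h1⟩, ⟨Finset.subset_union_left, ?_, ?_⟩,
    Finset.mem_union_right _ (Finset.mem_singleton_self k)⟩
  · exact ⟨Set.injOn_id _, href.P, href.G, href.R,
      fun x hx v hv w hw => (h2 x hx v hv w hw).trans (href.O x hx v hv w hw)⟩
  · exact hfree.G.closed hcT

theorem Cond.add_finset (p : Cond) (t : Finset ℕ) : ∃ q : Cond, p.Le q ∧ t ⊆ q.S := by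
  induction t using Finset.induction_on with
  | empty => exact ⟨p, Cond.Le.refl p, Finset.empty_subset _⟩
  | insert a t _ ih =>
    obtain ⟨q, h1, h2⟩ := ih
    obtain ⟨r, h3, h4⟩ := q.add_one a
    refine ⟨r, h1.trans h3, ?_⟩
    intro x hx
    rcases Finset.mem_insert.1 hx with rfl | hx
    · exact h4
    · exact h3.sub (h2 hx)

/-- The condition `c` solves the problem. -/
def Cond.Solves (c : Cond) {n : ℕ} (Q : Rels (Fin n)) (A : Finset (Fin n)) (g : Fin n → ℕ) : Prop :=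
  (∀ x ∈ A, g x ∈ c.S) ∧ (RefOn Q c.R (A : Set (Fin n)) g → Cl c.R.G (A.image g) (c.S : Set ℕ) →
    ∃ g' : Fin n → ℕ, (∀ x, g' x ∈ c.S) ∧ RefOn Q c.R Set.univ g' ∧ (∀ x ∈ A, g' x = g x) ∧
      Cl c.R.G (Finset.univ.image g') (c.S : Set ℕ))

/-- The problems can be solved. -/
theorem Cond.solve (p : Cond) {n : ℕ} (Q : Rels (Fin n)) (A : Finset (Fin n)) (g : Fin n → ℕ)
    (hQ : Ax Q Set.univ) (hA : Cl Q.G A Set.univ) : ∃ q : Cond, p.Le q ∧ q.Solves Q A g := by
  obtain ⟨p', hp', hgp⟩ := p.add_finset (A.image g)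
  have hgS : ∀ x ∈ A, g x ∈ p'.S := fun x hx => hgp (Finset.mem_image_of_mem g hx)
  by_cases hR : RefOn Q p'.R (A : Set (Fin n)) g
  swap
  · exact ⟨p', hp', hgS, fun h => absurd h hR⟩
  by_cases hC : Cl p'.R.G (A.image g) (p'.S : Set ℕ)
  swap
  · exact ⟨p', hp', hgS, fun _ h => absurd h hC⟩
  have hQ' : Ax Q ((Finset.univ : Finset (Fin n)) : Set (Fin n)) := by
    rw [Finset.coe_univ]; exact hQ
  have hA' : Cl Q.G A ((Finset.univ : Finset (Fin n)) : Set (Fin n)) := by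
    rw [Finset.coe_univ]; exact hA
  obtain ⟨Q', e, k1, k2, k3, k4, k5, k6⟩ := amalg_nat' p'.R p'.S p'.ax Q A Finset.univ hQ' hA' g hR hC
  have hAe : A.image e = A.image g := Finset.image_congr fun x hx => k3 x hx
  have c1 : Cl Q'.G (p'.S ∩ Finset.univ.image e) ((Finset.univ.image e : Finset ℕ) : Set ℕ) := by
    rw [k4, ← hAe]
    exact k2.cl hA'
  have c2 : Cl Q'.G (Finset.univ.image e ∩ p'.S) (p'.S : Set ℕ) := by
    rw [Finset.inter_comm, k4]
    exact cl_id k1 hC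
  refine ⟨⟨p'.S ∪ Finset.univ.image e, Q', k6⟩, hp'.trans ⟨Finset.subset_union_left, k1,
    k5.G.closed c1⟩, fun x hx => Finset.mem_union_left _ (hgS x hx), fun _ _ => ?_⟩
  refine ⟨e, fun x => Finset.mem_union_right _ (Finset.mem_image_of_mem e (Finset.mem_univ x)), ?_,
    k3, ?_⟩
  · rw [Finset.coe_univ] at k2
    exact k2
  · have := k5.G.symm.closed c2
    rw [Finset.union_comm] at this
    exact this

/-! ### The generic chain -/

/-- A chain meeting countably many dense sets. -/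
theorem exists_cond_chain (D : ℕ → Cond → Prop) (hD : ∀ (i : ℕ) (c : Cond), ∃ c' : Cond, c.Le c' ∧ D i c') :
    ∃ p : ℕ → Cond, (∀ n m, n ≤ m → (p n).Le (p m)) ∧ ∀ i, D i (p (i + 1)) := by
  choose f hf1 hf2 using hD
  let p : ℕ → Cond := fun n => Nat.rec Cond.empty (fun n c => f n c) n
  have hp : ∀ n, p (n + 1) = f n (p n) := fun n => rfl
  refine ⟨p, fun n m h => ?_, fun i => ?_⟩
  · induction m, h using Nat.le_induction with
    | base => exact Cond.Le.refl _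
    | succ m _ ih =>
      refine ih.trans ?_
      rw [hp]
      exact hf1 m (p m)
  · rw [hp]
    exact hf2 i (p i)

theorem finite_rels (n : ℕ) : Finite (Rels (Fin n)) := by
  let f : Rels (Fin n) → (Fin n → Fin n → Prop) × (Fin n → Prop) ×
      (Fin n → Fin n → Fin n → Fin n → Prop) × (Fin n → Fin n → Fin n → Prop) :=
    fun R => (R.G.Adj, R.P, R.R, R.O)
  have hf : Function.Injective f := by
    rintro ⟨G, P, R, O⟩ ⟨G', P', R', O'⟩ h
    simp only [f, Prod.mk.injEq] at h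
    obtain ⟨h1, rfl, rfl, rfl⟩ := h
    have : G = G' := SimpleGraph.ext h1
    rw [this]
  exact Finite.of_injective f hf

/-- The problems. -/
abbrev Prob : Type := Σ n : ℕ, Rels (Fin n) × Finset (Fin n) × (Fin n → ℕ)

theorem countable_prob : Countable Prob := by
  have := finite_rels
  infer_instance

theorem exists_generic : ∃ r : Rels ℕ, Ax r Set.univ ∧ EP r := by
  have : Nonempty (ℕ ⊕ Prob) := ⟨Sum.inl 0⟩
  have := countable_prob
  obtain ⟨enum, henum⟩ := exists_surjective_nat (ℕ ⊕ Prob)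
  let Dn : (ℕ ⊕ Prob) → Cond → Prop := fun i c =>
    match i with
    | Sum.inl k => k ∈ c.S
    | Sum.inr P => Ax P.2.1 Set.univ → Cl P.2.1.G P.2.2.1 Set.univ →
        c.Solves P.2.1 P.2.2.1 P.2.2.2
  have hDn : ∀ (i : ℕ) (c : Cond), ∃ c' : Cond, c.Le c' ∧ Dn (enum i) c' := by
    intro i c
    cases enum i with
    | inl k => exact c.add_one k
    | inr P =>
      by_cases h1 : Ax P.2.1 Set.univ
      · by_cases h2 : Cl P.2.1.G P.2.2.1 Set.univ
        · obtain ⟨q, h3, h4⟩ := c.solve P.2.1 P.2.2.1 P.2.2.2 h1 h2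
          exact ⟨q, h3, fun _ _ => h4⟩
        · exact ⟨c, Cond.Le.refl c, fun _ h => absurd h h2⟩
      · exact ⟨c, Cond.Le.refl c, fun h => absurd h h1⟩
  obtain ⟨p, hmono, hmeet⟩ := exists_cond_chain (fun i => Dn (enum i)) hDn
  -- the limit
  let r : Rels ℕ :=
    { G := { Adj := fun x y => ∃ n, x ∈ (p n).S ∧ y ∈ (p n).S ∧ (p n).R.G.Adj x y
             symm := ⟨fun _ _ ⟨n, h1, h2, h3⟩ => ⟨n, h2, h1, h3.symm⟩⟩
             loopless := ⟨fun _ ⟨_, _, _, h3⟩ => h3.ne rfl⟩ }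
      P := fun x => ∃ n, x ∈ (p n).S ∧ (p n).R.P x
      R := fun v a b c => ∃ n, v ∈ (p n).S ∧ a ∈ (p n).S ∧ b ∈ (p n).S ∧ c ∈ (p n).S ∧
        (p n).R.R v a b c
      O := fun x v w => ∃ n, x ∈ (p n).S ∧ v ∈ (p n).S ∧ w ∈ (p n).S ∧ (p n).R.O x v w }
  have href : ∀ n, RefOn (p n).R r ((p n).S : Set ℕ) id := by
    intro n
    constructor
    · exact Set.injOn_id _
    · intro x hx
      refine ⟨?_, fun h => ⟨n, hx, h⟩⟩
      rintro ⟨m, h1, hm⟩
      rcases le_total n m with h | h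
      · exact ((hmono n m h).ref.P x hx).1 hm
      · exact ((hmono m n h).ref.P x h1).2 hm
    · intro x hx y hy
      refine ⟨?_, fun h => ⟨n, hx, hy, h⟩⟩
      rintro ⟨m, h1, h2, hm⟩
      rcases le_total n m with h | h
      · exact ((hmono n m h).ref.G x hx y hy).1 hm
      · exact ((hmono m n h).ref.G x h1 y h2).2 hm
    · intro v hv a ha b hb c hc
      refine ⟨?_, fun h => ⟨n, hv, ha, hb, hc, h⟩⟩
      rintro ⟨m, h1, h2, h3, h4, hm⟩
      rcases le_total n m with h | h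
      · exact ((hmono n m h).ref.R v hv a ha b hb c hc).1 hm
      · exact ((hmono m n h).ref.R v h1 a h2 b h3 c h4).2 hm
    · intro x hx v hv w hw
      refine ⟨?_, fun h => ⟨n, hx, hv, hw, h⟩⟩
      rintro ⟨m, h1, h2, h3, hm⟩
      rcases le_total n m with h | h
      · exact ((hmono n m h).ref.O x hx v hv w hw).1 hm
      · exact ((hmono m n h).ref.O x h1 v h2 w h3).2 hm
  have hcov : ∀ k, ∃ n, k ∈ (p n).S := by
    intro k
    obtain ⟨i, hi⟩ := henum (Sum.inl k)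
    refine ⟨i + 1, ?_⟩
    have := hmeet i
    simp only [hi] at this
    exact this
  have hmem : ∀ {n m : ℕ} {x : ℕ}, n ≤ m → x ∈ (p n).S → x ∈ (p m).S :=
    fun h hx => (hmono _ _ h).sub hx
  have hcovf : ∀ s : Finset ℕ, ∃ n, s ⊆ (p n).S := by
    intro s
    induction s using Finset.induction_on with
    | empty => exact ⟨0, Finset.empty_subset _⟩
    | insert a s _ ih =>
      obtain ⟨n, hn⟩ := ih
      obtain ⟨m, hm⟩ := hcov a
      refine ⟨max n m, fun x hx => ?_⟩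
      rcases Finset.mem_insert.1 hx with rfl | hx
      · exact hmem (le_max_right _ _) hm
      · exact hmem (le_max_left _ _) (hn hx)
  have hcov5 : ∀ a b c d e : ℕ, ∃ n, a ∈ ((p n).S : Set ℕ) ∧ b ∈ ((p n).S : Set ℕ) ∧
      c ∈ ((p n).S : Set ℕ) ∧ d ∈ ((p n).S : Set ℕ) ∧ e ∈ ((p n).S : Set ℕ) := by
    intro a b c d e
    obtain ⟨n, hn⟩ := hcovf {a, b, c, d, e}
    exact ⟨n, hn (by simp), hn (by simp), hn (by simp), hn (by simp), hn (by simp)⟩
  have hax : ∀ n, Ax r ((p n).S : Set ℕ) := fun n => ax_id (href n) (p n).ax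
  have hAx : Ax r Set.univ := by
    refine ⟨⟨?_, ?_, ?_⟩, ?_, ?_⟩
    · intro X _ hne
      obtain ⟨n, hn⟩ := hcovf X
      exact (hax n).gr X (by exact_mod_cast hn) hne
    · intro u _ v _
      obtain ⟨n, h1, h2, -, -, -⟩ := hcov5 u v u u u
      exact (hax n).GP u h1 v h2
    · intro v _ a _ b _ c _
      obtain ⟨n, h1, h2, h3, h4, -⟩ := hcov5 v a b c v
      exact (hax n).RG v h1 a h2 b h3 c h4
    · intro x _ v _ w _
      obtain ⟨n, h1, h2, h3, -, -⟩ := hcov5 x v w x x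
      exact (hax n).OP x h1 v h2 w h3
    · intro x _ hp
      constructor
      · intro v _ w _
        obtain ⟨n, h1, h2, h3, -, -⟩ := hcov5 x v w x x
        exact ((hax n).act x h1 hp).adj v h2 w h3
      · intro v _ w _
        obtain ⟨n, h1, h2, h3, -, -⟩ := hcov5 x v w x x
        exact ((hax n).act x h1 hp).cov v h2 w h3
      · intro v _ a _ b _ c _
        obtain ⟨n, h1, h2, h3, h4, h5⟩ := hcov5 x v a b c
        exact ((hax n).act x h1 hp).rf v h2 a h3 b h4 c h5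
  have hcl : ∀ n, Cl r.G (p n).S Set.univ := by
    intro n
    refine ⟨Set.subset_univ _, fun X _ hX => ?_⟩
    obtain ⟨m, hm⟩ := hcovf X
    have h1 : Cl r.G (p n).S ((p (max n m)).S : Set ℕ) :=
      cl_id (href (max n m)) (hmono n (max n m) (le_max_left _ _)).cl
    refine h1.lt X ?_ hX
    have : X ⊆ (p (max n m)).S := fun x hx => hmem (le_max_right _ _) (hm hx)
    exact_mod_cast this
  have hep0 : ∀ (n : ℕ) (Q : Rels (Fin n)) (A : Finset (Fin n)), Ax Q Set.univ →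
      Cl Q.G A Set.univ → ∀ g : Fin n → ℕ, RefOn Q r (A : Set (Fin n)) g →
      Cl r.G (A.image g) Set.univ → ∃ g' : Fin n → ℕ,
      RefOn Q r Set.univ g' ∧ (∀ x ∈ A, g' x = g x) ∧ Cl r.G (Finset.univ.image g') Set.univ := by
    intro n Q A hQ hA g hg hgc
    obtain ⟨i, hi⟩ := henum (Sum.inr ⟨n, Q, A, g⟩)
    have h1 := hmeet i
    simp only [hi] at h1
    have h2 : (p (i + 1)).Solves Q A g := h1 hQ hA
    have hag := href (i + 1)
    have hclc := hcl (i + 1)
    obtain ⟨h3, h4⟩ := h2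
    have h5 : RefOn Q (p (i + 1)).R (A : Set (Fin n)) g := hg.comp_idG hag.id_symm fun x hx => h3 x hx
    have h6 : Cl (p (i + 1)).R.G (A.image g) ((p (i + 1)).S : Set ℕ) := by
      refine cl_id hag.id_symm (hgc.mono ?_ (Set.subset_univ _))
      intro y hy
      obtain ⟨x, hx, rfl⟩ := Finset.mem_image.1 (Finset.mem_coe.1 hy)
      exact h3 x hx
    obtain ⟨g', k1, k2, k3, k4⟩ := h4 h5 h6
    exact ⟨g', k2.comp_idG hag fun x _ => k1 x, k3, (cl_id hag k4).trans hclc⟩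
  refine ⟨r, hAx, ?_⟩
  intro F Q A B g hQ hA hg hgc
  have hAB : A ⊆ B := by exact_mod_cast hA.sub
  let e : {x // x ∈ B} ≃ Fin B.card := B.equivFin
  let ε : Fin B.card → F := fun i => (e.symm i : F)
  have hεB : ∀ i, ε i ∈ B := fun i => (e.symm i).2
  have hεinj : Function.Injective ε := fun i j h => e.symm.injective (Subtype.ext h)
  have hεe : ∀ (x : F) (hx : x ∈ B), ε (e ⟨x, hx⟩) = x := by
    intro x hx
    simp [ε]
  let Q' : Rels (Fin B.card) :=
    { G := Q.G.comap ε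
      P := fun x => Q.P (ε x)
      R := fun v a b c => Q.R (ε v) (ε a) (ε b) (ε c)
      O := fun x v w => Q.O (ε x) (ε v) (ε w) }
  have hε : RefOn Q' Q Set.univ ε :=
    ⟨fun x _ y _ h => hεinj h, fun _ _ => Iff.rfl, fun _ _ _ _ => Iff.rfl,
      fun _ _ _ _ _ _ _ _ => Iff.rfl, fun _ _ _ _ _ _ => Iff.rfl⟩
  have hQ' : Ax Q' Set.univ := hε.ax_pull (fun x _ => hεB x) hQ
  let A' : Finset (Fin B.card) := Finset.univ.filter fun i => ε i ∈ A
  have hmA : ∀ i, i ∈ A' ↔ ε i ∈ A := fun i => by simp [A']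
  have hA'im : A'.image ε = A := by
    ext x
    rw [Finset.mem_image]
    constructor
    · rintro ⟨i, hi, rfl⟩
      exact (hmA i).1 hi
    · intro hx
      refine ⟨e ⟨x, hAB hx⟩, ?_, hεe x (hAB hx)⟩
      rw [hmA, hεe]
      exact hx
  have hA' : Cl Q'.G A' Set.univ := by
    refine ⟨Set.subset_univ _, fun X _ hX => ?_⟩
    have h1 : dl Q.G (A'.image ε) = dl Q'.G A' := hε.dl (Set.subset_univ _)
    have h2 : dl Q.G (X.image ε) = dl Q'.G X := hε.dl (Set.subset_univ _)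
    rw [← h1, ← h2, hA'im]
    refine hA.lt _ ?_ ?_
    · intro y hy
      obtain ⟨x, _, rfl⟩ := Finset.mem_image.1 (Finset.mem_coe.1 hy)
      exact hεB x
    · rw [← hA'im]
      exact (Finset.image_ssubset_image hεinj).2 hX
  have hgA : RefOn Q' r (A' : Set (Fin B.card)) (fun i => g (ε i)) := by
    refine ⟨fun x hx y hy h => hεinj (hg.inj ((hmA x).1 hx) ((hmA y).1 hy) h),
      fun x hx => hg.P _ ((hmA x).1 hx), fun x hx y hy => hg.G _ ((hmA x).1 hx) _ ((hmA y).1 hy),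
      fun v hv a ha b hb c hc => hg.R _ ((hmA v).1 hv) _ ((hmA a).1 ha) _ ((hmA b).1 hb) _
        ((hmA c).1 hc),
      fun x hx v hv w hw => hg.O _ ((hmA x).1 hx) _ ((hmA v).1 hv) _ ((hmA w).1 hw)⟩
  have hgim : A'.image (fun i => g (ε i)) = A.image g := by
    rw [← hA'im, Finset.image_image]
    rfl
  obtain ⟨g', k1, k2, k3⟩ := hep0 _ Q' A' hQ' hA' _ hgA (by rw [hgim]; exact hgc)
  let G : F → ℕ := fun x => if h : x ∈ B then g' (e ⟨x, h⟩) else 0
  have hG : ∀ (x : F) (hx : x ∈ B), G x = g' (e ⟨x, hx⟩) := fun x hx => by simp [G, hx]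
  have u : ∀ i : Fin B.card, i ∈ (Set.univ : Set (Fin B.card)) := fun i => Set.mem_univ i
  refine ⟨G, ?_, ?_, ?_⟩
  · constructor
    · intro x hx y hy h
      rw [hG x hx, hG y hy] at h
      have := e.injective (k1.inj (u _) (u _) h)
      exact congrArg Subtype.val this
    · intro x hx
      rw [hG x hx, k1.P _ (u _)]
      show Q.P (ε (e ⟨x, hx⟩)) ↔ _
      rw [hεe]
    · intro x hx y hy
      rw [hG x hx, hG y hy, k1.G _ (u _) _ (u _)]
      show Q.G.Adj (ε (e ⟨x, hx⟩)) (ε (e ⟨y, hy⟩)) ↔ _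
      rw [hεe, hεe]
    · intro v hv a ha b hb c hc
      rw [hG v hv, hG a ha, hG b hb, hG c hc, k1.R _ (u _) _ (u _) _ (u _) _ (u _)]
      show Q.R (ε (e ⟨v, hv⟩)) (ε (e ⟨a, ha⟩)) (ε (e ⟨b, hb⟩)) (ε (e ⟨c, hc⟩)) ↔ _
      rw [hεe, hεe, hεe, hεe]
    · intro x hx v hv w hw
      rw [hG x hx, hG v hv, hG w hw, k1.O _ (u _) _ (u _) _ (u _)]
      show Q.O (ε (e ⟨x, hx⟩)) (ε (e ⟨v, hv⟩)) (ε (e ⟨w, hw⟩)) ↔ _
      rw [hεe, hεe, hεe]
  · intro x hx
    rw [hG x (hAB hx), k2 _ (by rw [hmA, hεe]; exact hx), hεe]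
  · have : B.image G = Finset.univ.image g' := by
      ext y
      simp only [Finset.mem_image, Finset.mem_univ, true_and]
      constructor
      · rintro ⟨x, hx, rfl⟩
        exact ⟨e ⟨x, hx⟩, (hG x hx).symm⟩
      · rintro ⟨i, rfl⟩
        refine ⟨ε i, hεB i, ?_⟩
        rw [hG _ (hεB i)]
        congr 1
        exact e.apply_symm_apply i
    rw [this]
    exact k3

end Generic

end H968E
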