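import Pool.Agent.helper968_exist.Amal

namespace H968E

open Classical Finset

namespace StarAux

/-- The infinite star. -/
def starG : SimpleGraph ℕ where
  Adj a b := (a = 0 ∧ b ≠ 0) ∨ (b = 0 ∧ a ≠ 0)
  symm := ⟨fun _ _ h => h.symm⟩
  loopless := ⟨fun a h => by rcases h with ⟨h1, h2⟩ | ⟨h1, h2⟩ <;> exact h2 h1⟩

theorem starG_adj (a b : ℕ) : starG.Adj a b ↔ (a = 0 ∧ b ≠ 0) ∨ (b = 0 ∧ a ≠ 0) := Iff.rfl

/-- The star with its relation. -/
def starQ : Rels ℕ where
  G := starG
  P _ := False
  R v a b c := v = 0 ∧ 0 < a ∧ a < b ∧ b < c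
  O _ _ _ := False

theorem es_star_zero {X : Finset ℕ} (h0 : 0 ∈ X) :
    es starG X = (X.erase 0).image (fun a => s(0, a)) := by
  ext e
  induction e using Sym2.inductionOn with
  | _ a b =>
    rw [mem_es]
    simp only [Sym2.mem_iff, forall_eq_or_imp, forall_eq, SimpleGraph.mem_edgeSet, starG_adj,
      Finset.mem_image, Finset.mem_erase]
    constructor
    · rintro ⟨⟨ha, hb⟩, ⟨h1, h2⟩ | ⟨h1, h2⟩⟩
      · exact ⟨b, ⟨h2, hb⟩, by rw [h1]⟩
      · exact ⟨a, ⟨h2, ha⟩, by rw [h1]; exact Sym2.eq_swap⟩
    · rintro ⟨c, ⟨h1, h2⟩, h3⟩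
      rw [Sym2.eq_iff] at h3
      rcases h3 with ⟨rfl, rfl⟩ | ⟨rfl, rfl⟩
      · exact ⟨⟨h0, h2⟩, Or.inl ⟨rfl, h1⟩⟩
      · exact ⟨⟨h2, h0⟩, Or.inr ⟨rfl, h1⟩⟩

theorem es_star_nonzero {X : Finset ℕ} (h0 : 0 ∉ X) : es starG X = ∅ := by
  rw [Finset.eq_empty_iff_forall_notMem]
  intro e
  induction e using Sym2.inductionOn with
  | _ a b =>
    rw [mem_es]
    simp only [Sym2.mem_iff, forall_eq_or_imp, forall_eq, SimpleGraph.mem_edgeSet, starG_adj]
    rintro ⟨⟨ha, hb⟩, ⟨h1, h2⟩ | ⟨h1, h2⟩⟩
    · exact h0 (h1 ▸ ha)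
    · exact h0 (h1 ▸ hb)

theorem dl_star_zero {X : Finset ℕ} (h0 : 0 ∈ X) : dl starG X = X.card + 1 := by
  have h1 : (es starG X).card = X.card - 1 := by
    rw [es_star_zero h0, Finset.card_image_of_injective, Finset.card_erase_of_mem h0]
    intro a b h
    exact Sym2.congr_right.1 h
  have h2 : 1 ≤ X.card := Finset.card_pos.2 ⟨0, h0⟩
  simp only [dl, h1]
  push_cast [Nat.cast_sub h2]
  ring

theorem dl_star_nonzero {X : Finset ℕ} (h0 : 0 ∉ X) : dl starG X = 2 * X.card := by
  simp [dl, es_star_nonzero h0]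

theorem four_mul_le (n : ℕ) (hn : 1 ≤ n) : 4 * n ≤ 2 ^ (n + 1) := by
  induction n, hn using Nat.le_induction with
  | base => norm_num
  | succ k hk ih =>
    rw [pow_succ]
    have : 4 ≤ 2 ^ (k + 1) := by
      calc 4 = 2 ^ (1 + 1) := by norm_num
        _ ≤ 2 ^ (k + 1) := Nat.pow_le_pow_right (by norm_num) (by omega)
    omega

theorem gr_star : Gr starG Set.univ := by
  intro X _ hne
  have h1 : 1 ≤ X.card := Finset.card_pos.2 hne
  by_cases h0 : 0 ∈ X
  · rw [dl_star_zero h0]
    have : ((X.card : ℤ) + 1).toNat = X.card + 1 := by omega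
    rw [this]
    exact four_mul_le _ h1
  · rw [dl_star_nonzero h0]
    have : (2 * (X.card : ℤ)).toNat = 2 * X.card := by omega
    rw [this]
    refine (four_mul_le _ h1).trans (Nat.pow_le_pow_right (by norm_num) (by omega))

theorem ax_star : Ax starQ Set.univ where
  gr := gr_star
  GP _ _ _ _ _ h := h
  RG v _ a _ b _ c _ h := by
    obtain ⟨h1, h2, h3, h4⟩ := h
    refine ⟨Or.inl ⟨h1, by omega⟩, Or.inl ⟨h1, by omega⟩, Or.inl ⟨h1, by omega⟩, by omega,
      by omega, by omega⟩
  OP _ _ _ _ _ _ h := h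
  act _ _ h := h.elim

theorem cl_star {A B : Finset ℕ} (h0 : 0 ∈ A) (hAB : A ⊆ B) : Cl starG A (B : Set ℕ) where
  sub := by exact_mod_cast hAB
  lt X _ hAX := by
    rw [dl_star_zero h0, dl_star_zero (hAX.1 h0)]
    have := Finset.card_lt_card hAX
    omega

theorem RefOn.congr' {F V : Type} {Q : Rels F} {r : Rels V} {A : Set F} {g g' : F → V}
    (h : RefOn Q r A g) (hg : ∀ x ∈ A, g' x = g x) : RefOn Q r A g' where
  inj x hx y hy hxy := by
    rw [hg x hx, hg y hy] at hxy
    exact h.inj hx hy hxy
  P x hx := by rw [hg x hx]; exact h.P x hx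
  G x hx y hy := by rw [hg x hx, hg y hy]; exact h.G x hx y hy
  R v hv a ha b hb c hc := by
    rw [hg v hv, hg a ha, hg b hb, hg c hc]
    exact h.R v hv a ha b hb c hc
  O x hx v hv w hw := by
    rw [hg x hx, hg v hv, hg w hw]
    exact h.O x hx v hv w hw

/-- The first two points. -/
theorem ref_two {r : Rels ℕ} (hax : Ax r Set.univ) {u v : ℕ} (huv : r.G.Adj u v) :
    RefOn starQ r ((Finset.range 2 : Finset ℕ) : Set ℕ) (fun n => if n = 0 then u else v) := by
  have hne : u ≠ v := huv.ne
  have hPu : ¬ r.P u := hax.GP u trivial v trivial huv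
  have hPv : ¬ r.P v := hax.GP v trivial u trivial huv.symm
  have hcase : ∀ x ∈ ((Finset.range 2 : Finset ℕ) : Set ℕ), x = 0 ∨ x = 1 := by
    intro x hx
    have : x < 2 := by simpa using hx
    omega
  have hP : ∀ x : ℕ, ¬ r.P (if x = 0 then u else v) := by
    intro x
    split_ifs
    · exact hPu
    · exact hPv
  refine ⟨?_, ?_, ?_, ?_, ?_⟩
  · intro x hx y hy hxy
    rcases hcase x hx with rfl | rfl <;> rcases hcase y hy with rfl | rfl <;> simp_all
  · intro x _
    exact ⟨fun h => (hP x h).elim, fun h => h.elim⟩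
  · intro x hx y hy
    change r.G.Adj _ _ ↔ starG.Adj x y
    rw [starG_adj]
    rcases hcase x hx with rfl | rfl <;> rcases hcase y hy with rfl | rfl <;>
      simp [huv, huv.symm]
  · intro x hx a ha b hb c hc
    constructor
    · intro h
      exfalso
      obtain ⟨-, -, -, h1, h2, h3⟩ := hax.RG _ trivial _ trivial _ trivial _ trivial h
      rcases hcase a ha with rfl | rfl <;> rcases hcase b hb with rfl | rfl <;>
        rcases hcase c hc with rfl | rfl <;> simp_all
    · rintro ⟨-, h1, h2, h3⟩
      rcases hcase a ha with rfl | rfl <;> rcases hcase b hb with rfl | rfl <;>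
        rcases hcase c hc with rfl | rfl <;> omega
  · intro x _ a _ b _
    exact ⟨fun h => (hP x (hax.OP _ trivial _ trivial _ trivial h)).elim, fun h => h.elim⟩

/-- The embedded star. -/
theorem exists_f (r : Rels ℕ) (hax : Ax r Set.univ) (hEP : EP r) (u v : ℕ)
    (huv : r.G.Adj u v) (hcl : Cl r.G {u, v} Set.univ) :
    ∃ f : ℕ → ℕ, f 0 = u ∧ f 1 = v ∧ RefOn starQ r Set.univ f ∧
      ∀ n, Cl r.G ((Finset.range (n + 2)).image f) Set.univ := by
  let S : ℕ → Type := fun n => {g : ℕ → ℕ //
    RefOn starQ r ((Finset.range (n + 2) : Finset ℕ) : Set ℕ) g ∧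
      Cl r.G ((Finset.range (n + 2)).image g) Set.univ}
  have hstep : ∀ n (s : S n), ∃ s' : S (n + 1), ∀ x ∈ Finset.range (n + 2), s'.1 x = s.1 x := by
    rintro n ⟨g, hg1, hg2⟩
    obtain ⟨g', h1, h2, h3⟩ := hEP ℕ starQ (Finset.range (n + 2)) (Finset.range (n + 3)) g
      (ax_star.mono (Set.subset_univ _))
      (cl_star (by simp) (Finset.range_subset_range.2 (by omega))) hg1 (by rw [img_eq]; exact hg2)
    exact ⟨⟨g', h1, by rw [← img_eq]; exact h3⟩, h2⟩
  have h0 : Cl r.G ((Finset.range (0 + 2)).image (fun n => if n = 0 then u else v)) Set.univ := by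
    have : (Finset.range (0 + 2)).image (fun n => if n = 0 then u else v) = {u, v} := by
      ext x
      simp only [Finset.mem_image, Finset.mem_range, Finset.mem_insert, Finset.mem_singleton]
      constructor
      · rintro ⟨n, _, rfl⟩
        split_ifs
        · exact Or.inl rfl
        · exact Or.inr rfl
      · rintro (rfl | rfl)
        · exact ⟨0, by omega, by simp⟩
        · exact ⟨1, by omega, by simp⟩
    rw [this]
    exact hcl
  let s0 : S 0 := ⟨fun n => if n = 0 then u else v, ref_two hax huv, h0⟩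
  let seq : ∀ n, S n := fun n => Nat.rec s0 (fun n s => Classical.choose (hstep n s)) n
  have hseq : ∀ n, ∀ x < n + 2, (seq (n + 1)).1 x = (seq n).1 x := by
    intro n x hx
    exact Classical.choose_spec (hstep n (seq n)) x (Finset.mem_range.2 hx)
  have hseq2 : ∀ x k, (seq (x + k)).1 x = (seq x).1 x := by
    intro x k
    induction k with
    | zero => rfl
    | succ k ih => rw [← Nat.add_assoc, hseq (x + k) x (by omega), ih]
  let f : ℕ → ℕ := fun x => (seq x).1 x
  have hf : ∀ n, ∀ x < n + 2, f x = (seq n).1 x := by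
    intro n x hx
    rcases Nat.lt_or_ge n x with h | h
    · have hx' : x = n + 1 := by omega
      subst hx'
      exact hseq n (n + 1) (by omega)
    · obtain ⟨k, rfl⟩ := Nat.exists_eq_add_of_le h
      exact (hseq2 x k).symm
  have href : ∀ n, RefOn starQ r ((Finset.range (n + 2) : Finset ℕ) : Set ℕ) f := by
    intro n
    refine RefOn.congr' (seq n).2.1 fun x hx => hf n x ?_
    simpa using hx
  refine ⟨f, ?_, ?_, ?_, ?_⟩
  · rw [hf 0 0 (by omega)]
    rfl
  · rw [hf 0 1 (by omega)]
    rfl
  · have hmem : ∀ {x n : ℕ}, x ≤ n → x ∈ ((Finset.range (n + 2) : Finset ℕ) : Set ℕ) := by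
      intro x n h
      simp only [Finset.coe_range, Set.mem_Iio]
      omega
    refine ⟨?_, ?_, ?_, ?_, ?_⟩
    · intro x _ y _ hxy
      exact (href (x + y)).inj (hmem (by omega)) (hmem (by omega)) hxy
    · intro x _
      exact (href x).P x (hmem le_rfl)
    · intro x _ y _
      exact (href (x + y)).G x (hmem (by omega)) y (hmem (by omega))
    · intro x _ a _ b _ c _
      exact (href (x + a + b + c)).R x (hmem (by omega)) a (hmem (by omega)) b (hmem (by omega))
        c (hmem (by omega))
    · intro x _ a _ b _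
      exact (href (x + a + b)).O x (hmem (by omega)) a (hmem (by omega)) b (hmem (by omega))
  · intro n
    have : (Finset.range (n + 2)).image f = (Finset.range (n + 2)).image (seq n).1 :=
      Finset.image_congr fun x hx => hf n x (by simpa using hx)
    rw [this]
    exact (seq n).2.2

end StarAux

open StarAux

theorem exists_star (r : Rels ℕ) (hax : Ax r Set.univ) (hEP : EP r) (u v : ℕ)
    (huv : r.G.Adj u v) (hcl : Cl r.G {u, v} Set.univ) :
    ∃ w : ℕ → ℕ, w 0 = v ∧ (∀ i, r.G.Adj u (w i)) ∧
      (∀ i j k, i < j → j < k → r.R u (w i) (w j) (w k)) ∧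
      ∀ (m : ℕ) (i j : Fin m → ℕ), StrictMono i → StrictMono j →
        Cl r.G (insert u (Finset.univ.image (fun t => w (i t)))) Set.univ ∧
        ∃ f : ℕ → ℕ,
          RefOn r r ((insert u (Finset.univ.image (fun t => w (i t))) : Finset ℕ) : Set ℕ) f ∧
          f u = u ∧ ∀ t, f (w (i t)) = w (j t) := by
  obtain ⟨f, hf0, hf1, href, hclf⟩ := exists_f r hax hEP u v huv hcl
  have hinj : Function.Injective f := fun x y h => href.inj trivial trivial h
  refine ⟨fun i => f (i + 1), hf1, ?_, ?_, ?_⟩
  · intro i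
    rw [← hf0]
    exact (href.G 0 trivial (i + 1) trivial).2 (Or.inl ⟨rfl, by omega⟩)
  · intro i j k hij hjk
    rw [← hf0]
    exact (href.R 0 trivial (i + 1) trivial (j + 1) trivial (k + 1) trivial).2
      ⟨rfl, by omega, by omega, by omega⟩
  · intro m i j hi hj
    set A : Finset ℕ := insert 0 (Finset.univ.image (fun t => i t + 1)) with hA
    have hAim : insert u (Finset.univ.image (fun t => f (i t + 1))) = A.image f := by
      rw [hA, Finset.image_insert, hf0, Finset.image_image]
      rfl
    have hmemA : ∀ x, x ∈ A ↔ x = 0 ∨ ∃ t, i t + 1 = x := by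
      intro x
      simp [hA]
    rw [hAim]
    refine ⟨?_, ?_⟩
    · obtain ⟨n, hn⟩ : ∃ n, A ⊆ Finset.range (n + 2) := by
        refine ⟨A.sup id, fun x hx => ?_⟩
        have : x ≤ A.sup id := Finset.le_sup (f := id) hx
        rw [Finset.mem_range]
        omega
      have h1 : Cl starG A ((Finset.range (n + 2) : Finset ℕ) : Set ℕ) :=
        cl_star (by simp [hA]) hn
      have h2 : Cl r.G (A.image f) (((Finset.range (n + 2)).image f : Finset ℕ) : Set ℕ) := by
        have h := RefOn.cl (Q := starQ) (r := r) (B := Finset.range (n + 2)) (g := f)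
          (href.mono (Set.subset_univ _)) h1
        rw [img_eq, img_eq] at h
        exact h
      exact Cl.trans h2 (hclf n)
    · let τ : ℕ → ℕ := fun x => if h : ∃ t, i t + 1 = x then j (Classical.choose h) + 1 else 0
      have hτ0 : τ 0 = 0 := by
        have : ¬ ∃ t, i t + 1 = 0 := by
          rintro ⟨t, ht⟩
          omega
        simp only [τ]
        rw [dif_neg this]
      have hτ1 : ∀ t, τ (i t + 1) = j t + 1 := by
        intro t
        have hex : ∃ t', i t' + 1 = i t + 1 := ⟨t, rfl⟩
        have h1 : i (Classical.choose hex) + 1 = i t + 1 := Classical.choose_spec hex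
        have h2 : Classical.choose hex = t := hi.injective (by omega)
        simp only [τ]
        rw [dif_pos hex, h2]
      have hmono : ∀ x ∈ (A : Set ℕ), ∀ y ∈ (A : Set ℕ), x < y → τ x < τ y := by
        intro x hx y hy hxy
        rcases (hmemA x).1 hx with rfl | ⟨s, rfl⟩
        · rcases (hmemA y).1 hy with rfl | ⟨t, rfl⟩
          · exact absurd hxy (lt_irrefl _)
          · rw [hτ0, hτ1]; omega
        · rcases (hmemA y).1 hy with rfl | ⟨t, rfl⟩
          · omega
          · rw [hτ1, hτ1]
            have : s < t := hi.lt_iff_lt.1 (by omega)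
            have := hj this
            omega
      have hlt : ∀ x ∈ (A : Set ℕ), ∀ y ∈ (A : Set ℕ), (τ x < τ y ↔ x < y) := by
        intro x hx y hy
        refine ⟨fun h => ?_, hmono x hx y hy⟩
        rcases lt_trichotomy x y with h' | h' | h'
        · exact h'
        · subst h'; exact absurd h (lt_irrefl _)
        · exact absurd (hmono y hy x hx h') (by omega)
      have h0A : (0 : ℕ) ∈ (A : Set ℕ) := by simp [hA]
      have hpos : ∀ x ∈ (A : Set ℕ), (0 < τ x ↔ 0 < x) := by
        intro x hx
        have := hlt 0 h0A x hx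
        rwa [hτ0] at this
      have hzero : ∀ x ∈ (A : Set ℕ), (τ x = 0 ↔ x = 0) := by
        intro x hx
        have := hpos x hx
        omega
      have hτref : RefOn starQ starQ (A : Set ℕ) τ := by
        refine ⟨?_, ?_, ?_, ?_, ?_⟩
        · intro x hx y hy hxy
          rcases lt_trichotomy x y with h' | h' | h'
          · exact absurd (hmono x hx y hy h') (by omega)
          · exact h'
          · exact absurd (hmono y hy x hx h') (by omega)
        · intro x _
          exact Iff.rfl
        · intro x hx y hy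
          change starG.Adj _ _ ↔ starG.Adj _ _
          rw [starG_adj, starG_adj, ne_eq, ne_eq, hzero x hx, hzero y hy]
        · intro x hx a ha b hb c hc
          change (τ x = 0 ∧ 0 < τ a ∧ τ a < τ b ∧ τ b < τ c) ↔ _
          rw [hzero x hx, hpos a ha, hlt a ha b hb, hlt b hb c hc]
          exact Iff.rfl
        · intro x _ a _ b _
          exact Iff.rfl
      have hinv : ∀ x, Function.invFun f (f x) = x := fun x =>
        Function.leftInverse_invFun hinj x
      have hinvref : RefOn r starQ ((A.image f : Finset ℕ) : Set ℕ) (Function.invFun f) := by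
        have hc : ∀ y ∈ ((A.image f : Finset ℕ) : Set ℕ), ∃ x, y = f x := by
          intro y hy
          obtain ⟨x, _, rfl⟩ := Finset.mem_image.1 (by exact_mod_cast hy)
          exact ⟨x, rfl⟩
        refine ⟨?_, ?_, ?_, ?_, ?_⟩
        · intro x hx y hy hxy
          obtain ⟨x, rfl⟩ := hc x hx
          obtain ⟨y, rfl⟩ := hc y hy
          rw [hinv, hinv] at hxy
          rw [hxy]
        · intro x hx
          obtain ⟨x, rfl⟩ := hc x hx
          rw [hinv]
          exact (href.P x trivial).symm
        · intro x hx y hy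
          obtain ⟨x, rfl⟩ := hc x hx
          obtain ⟨y, rfl⟩ := hc y hy
          rw [hinv, hinv]
          exact (href.G x trivial y trivial).symm
        · intro x hx a ha b hb c hc'
          obtain ⟨x, rfl⟩ := hc x hx
          obtain ⟨a, rfl⟩ := hc a ha
          obtain ⟨b, rfl⟩ := hc b hb
          obtain ⟨c, rfl⟩ := hc c hc'
          rw [hinv, hinv, hinv, hinv]
          exact (href.R x trivial a trivial b trivial c trivial).symm
        · intro x hx a ha b hb
          obtain ⟨x, rfl⟩ := hc x hx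
          obtain ⟨a, rfl⟩ := hc a ha
          obtain ⟨b, rfl⟩ := hc b hb
          rw [hinv, hinv, hinv]
          exact (href.O x trivial a trivial b trivial).symm
      refine ⟨f ∘ (τ ∘ Function.invFun f), ?_, ?_, ?_⟩
      · refine (hinvref.comp (hτref.mono ?_)).comp (href.mono (Set.subset_univ _))
        rintro _ ⟨y, hy, rfl⟩
        obtain ⟨x, hx, rfl⟩ := Finset.mem_image.1 (by exact_mod_cast hy)
        rw [hinv]
        exact hx
      · simp only [Function.comp]
        rw [← hf0, hinv, hτ0]
      · intro t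
        simp only [Function.comp]
        rw [hinv, hτ1]

theorem exists_edge (r : Rels ℕ) (hax : Ax r Set.univ) (hEP : EP r) :
    ∃ u v : ℕ, r.G.Adj u v ∧ Cl r.G {u, v} Set.univ := by
  obtain ⟨g, h1, -, h3⟩ := hEP ℕ starQ ∅ (Finset.range 2) (fun _ => 0)
    (ax_star.mono (Set.subset_univ _))
    ((ax_star.mono (Set.subset_univ _)).gr.cl_empty)
    ⟨by simp, by simp, by simp, by simp, by simp⟩
    (by rw [img_eq, Finset.image_empty]; exact hax.gr.cl_empty)
  refine ⟨g 0, g 1, ?_, ?_⟩
  · exact (h1.G 0 (by simp) 1 (by simp)).2 (Or.inl ⟨rfl, by omega⟩)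
  · have : (Finset.range 2).image g = {g 0, g 1} := by
      rw [show Finset.range 2 = {0, 1} from rfl, Finset.image_insert, Finset.image_singleton]
    have h4 : Cl r.G ((Finset.range 2).image g) Set.univ := by
      rw [← img_eq]
      exact h3
    rw [this] at h4
    exact h4

theorem exists_point (r : Rels ℕ) (hax : Ax r Set.univ) (hEP : EP r) : ∃ x : ℕ, r.P x := by
  let Q : Rels Unit := ⟨⊥, fun _ => True, fun _ _ _ _ => False, fun _ _ _ => False⟩
  have hgr : Gr Q.G Set.univ := by
    intro X _ hne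
    have h1 : X = {()} := by
      obtain ⟨x, hx⟩ := hne
      ext y
      constructor
      · intro _; simp
      · intro _; exact hx
    have h2 : es (⊥ : SimpleGraph Unit) X = ∅ := by
      rw [Finset.eq_empty_iff_forall_notMem]
      intro e he
      have := (mem_es.1 he).2
      simp at this
    have h3 : dl (⊥ : SimpleGraph Unit) X = 2 := by
      simp only [dl, h2]
      rw [h1]
      simp
    change 4 * X.card ≤ 2 ^ (dl (⊥ : SimpleGraph Unit) X).toNat
    rw [h3, h1]
    decide
  have hQ : Ax Q Set.univ := by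
    refine ⟨⟨hgr, ?_, ?_⟩, ?_, ?_⟩
    · intro _ _ _ _ h
      exact absurd h (by simp [Q])
    · intro _ _ _ _ _ _ _ _ h
      exact h.elim
    · intro _ _ _ _ _ _ h
      exact h.elim
    · intro x _ _
      refine ⟨?_, ?_, ?_⟩
      · intro _ _ _ _ h
        exact h.elim
      · intro _ _ _ _ h
        exact absurd h (by simp [Q])
      · intro _ _ _ _ _ _ _ _ h
        exact h.elim
  obtain ⟨g, h1, -, -⟩ := hEP Unit Q ∅ {()} (fun _ => 0)
    (hQ.mono (Set.subset_univ _))
    ((hQ.mono (Set.subset_univ _)).gr.cl_empty)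
    ⟨by simp, by simp, by simp, by simp, by simp⟩
    (by rw [img_eq, Finset.image_empty]; exact hax.gr.cl_empty)
  exact ⟨g (), (h1.P () (by simp)).2 trivial⟩

end H968E
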