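import Pool.Agent.helper968_exist.Nochain
import Pool.Agent.helper968_exist.Star
import Pool.Agent.helper968_exist.Generic
import Pool.Agent.helper968_exist.EqFT
import Pool.Agent.helper968_exist.Defs
import Pool.Agent.helper968_kim.Sat

/-!
Assembly.
-/

namespace H968E

open FirstOrder FirstOrder.Language SKF EXA Cardinal

/-- Models of the theory of a structure satisfy the same sentences. -/
theorem sent_iff {L : FirstOrder.Language.{0, 0}} {M N : Type} [L.Structure M] [L.Structure N]
    (h : N ⊨ L.completeTheory M) (φ : L.Sentence) : M ⊨ φ ↔ N ⊨ φ := by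
  haveI := h
  exact (realize_iff_of_model_completeTheory M N φ).symm

theorem elemEq {L : FirstOrder.Language.{0, 0}} {M N : Type} [L.Structure M] [L.Structure N]
    (h : N ⊨ L.completeTheory M) : L.ElementarilyEquivalent M N :=
  elementarilyEquivalent_iff.2 fun φ => sent_iff h φ

/-- Downward Löwenheim-Skolem and countable categoricity. -/
theorem exists_sub {L : FirstOrder.Language.{0, 0}} [Countable (Σ n, L.Functions n)]
    [Countable (Σ n, L.Relations n)] {M U : Type} [L.Structure M] [L.Structure U] [Countable M]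
    [Infinite M] (hfin : ∀ n : ℕ,
      (Set.range fun a : Fin n → M => {φ : L.Formula (Fin n) | φ.Realize a}).Finite)
    (hU : U ⊨ L.completeTheory M) (s : Set U) (hs : s.Countable) :
    ∃ j : M ↪ₑ[L] U, s ⊆ Set.range j := by
  haveI : Infinite U := (elemEq hU).infinite_iff.1 inferInstance
  have hcard : L.card ≤ ℵ₀ := by
    haveI : Countable L.Symbols :=
      inferInstanceAs (Countable ((Σ l, L.Functions l) ⊕ (Σ l, L.Relations l)))
    exact mk_le_aleph0
  obtain ⟨S, hS1, hS2⟩ := exists_elementarySubstructure_card_eq L s (ℵ₀ : Cardinal.{0}) le_rfl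
    (by simpa using hs) (by simpa using hcard) (by simp)
  have hS3 : #S = ℵ₀ := by simpa using hS2
  haveI : Countable S := by
    rw [← mk_le_aleph0_iff, hS3]
  have hSM : ∀ φ : L.Sentence, M ⊨ φ ↔ S ⊨ φ := fun φ =>
    (sent_iff hU φ).trans (S.realize_sentence φ).symm
  obtain ⟨e⟩ := equiv_of_finite_types (M := M) (N := S) hSM hfin
  refine ⟨S.subtype.comp e.toElementaryEmbedding, ?_⟩
  intro x hx
  refine ⟨e.symm ⟨x, hS1 hx⟩, ?_⟩
  simp

section Sop

variable {L : FirstOrder.Language.{0, 0}} {k l : ℕ}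

/-- The formula `∀ x, φ(x, y) → φ(x, y')`. -/
noncomputable def inc (φ : L.Formula (Fin k ⊕ Fin l)) : L.Formula (Fin l ⊕ Fin l) :=
  Formula.iAlls (Fin k)
    ((φ.relabel (Sum.elim Sum.inr fun i => Sum.inl (Sum.inl i)) :
      L.Formula ((Fin l ⊕ Fin l) ⊕ Fin k)).imp
    (φ.relabel (Sum.elim Sum.inr fun i => Sum.inl (Sum.inr i))))

theorem realize_inc {M : Type} [L.Structure M] (φ : L.Formula (Fin k ⊕ Fin l))
    (y y' : Fin l → M) : (inc φ).Realize (Sum.elim y y') ↔
      ∀ a : Fin k → M, φ.Realize (Sum.elim a y) → φ.Realize (Sum.elim a y') := by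
  rw [inc, Formula.realize_iAlls]
  refine forall_congr' fun a => ?_
  rw [Formula.realize_imp, Formula.realize_relabel, Formula.realize_relabel]
  have e1 : ((fun t => Sum.elim (Sum.elim y y') a t) ∘
      (Sum.elim Sum.inr fun i => Sum.inl (Sum.inl i)) : Fin k ⊕ Fin l → M) = Sum.elim a y := by
    funext t
    rcases t with t | t <;> rfl
  have e2 : ((fun t => Sum.elim (Sum.elim y y') a t) ∘
      (Sum.elim Sum.inr fun i => Sum.inl (Sum.inr i)) : Fin k ⊕ Fin l → M) = Sum.elim a y' := by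
    funext t
    rcases t with t | t <;> rfl
  rw [e1, e2]

end Sop

/-- The theory does not have the strict order property. -/
theorem nsop [LE.Structure ℕ] {r : Rels ℕ} (hr : Rep ℕ r) (hax : Ax r Set.univ) (hEP : EP r) :
    ¬ HasSOP (LE.completeTheory ℕ) := by
  rintro ⟨N, _, hN, k, l, φ, b, hb⟩
  have hw : ∀ i, ∃ a : Fin k → N, φ.Realize (Sum.elim a (b (i + 1))) ∧
      ¬ φ.Realize (Sum.elim a (b i)) := by
    intro i
    obtain ⟨a, ha, ha'⟩ := Set.exists_of_ssubset (hb i)
    exact ⟨a, ha, ha'⟩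
  choose a ha ha' using hw
  obtain ⟨j, hj⟩ := exists_sub (fun n => finite_types hr hax hEP n) hN
    ((⋃ i, Set.range (a i)) ∪ ⋃ i, Set.range (b i))
    ((Set.countable_iUnion fun i => Set.countable_range _).union
      (Set.countable_iUnion fun i => Set.countable_range _))
  have hj1 : ∀ i t, ∃ x, j x = a i t := fun i t =>
    hj (Or.inl (Set.mem_iUnion.2 ⟨i, t, rfl⟩))
  have hj2 : ∀ i t, ∃ x, j x = b i t := fun i t =>
    hj (Or.inr (Set.mem_iUnion.2 ⟨i, t, rfl⟩))
  choose a' ha2 using hj1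
  choose b' hb2 using hj2
  have hab : ∀ (x : Fin k → ℕ) (y : Fin l → ℕ),
      φ.Realize (Sum.elim x y) ↔ φ.Realize (Sum.elim (j ∘ x) (j ∘ y)) := by
    intro x y
    rw [← Sum.comp_elim, j.map_formula]
  have eb : ∀ i, j ∘ b' i = b i := fun i => funext (hb2 i)
  have ea : ∀ i, j ∘ a' i = a i := fun i => funext (ha2 i)
  refine no_chain hax hEP (l := l) (fun y y' => (inc φ).Realize (Sum.elim y y') ∧
    ¬ (inc φ).Realize (Sum.elim y' y)) ?_ ?_ ?_ ⟨b', ?_⟩
  · rintro A f h1 h2 hf y y' hy hy' ⟨h3, h4⟩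
    constructor
    · have := homog hr hax hEP (inc φ) h1 (by rw [img_eq]; exact h2) hf (v := Sum.elim y y') (by
        rintro (t | t)
        · exact hy t
        · exact hy' t)
      rw [Sum.comp_elim] at this
      exact this.1 h3
    · have := homog hr hax hEP (inc φ) h1 (by rw [img_eq]; exact h2) hf (v := Sum.elim y' y) (by
        rintro (t | t)
        · exact hy' t
        · exact hy t)
      rw [Sum.comp_elim] at this
      exact fun h5 => h4 (this.2 h5)
  · rintro x y z ⟨h1, h2⟩ ⟨h3, h4⟩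
    simp only [realize_inc] at *
    refine ⟨fun c hc => h3 c (h1 c hc), fun h5 => h2 fun c hc => h5 c (h3 c hc)⟩
  · rintro x ⟨h1, h2⟩
    exact h2 h1
  · have hstep : ∀ i, (inc φ).Realize (Sum.elim (b' i) (b' (i + 1))) ∧
        ¬ (inc φ).Realize (Sum.elim (b' (i + 1)) (b' i)) := by
      intro i
      simp only [realize_inc]
      constructor
      · intro c hc
        rw [hab, eb] at hc ⊢
        exact (hb i).1 hc
      · intro h
        have h1 := h (a' i) (by rw [hab, eb, ea]; exact ha i)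
        rw [hab, eb, ea] at h1
        exact ha' i h1
    intro i m him
    induction m with
    | zero => omega
    | succ m ih =>
      by_cases h : i = m
      · rw [h]; exact hstep m
      · obtain ⟨h1, h2⟩ := ih (by omega)
        obtain ⟨h3, h4⟩ := hstep m
        simp only [realize_inc] at *
        exact ⟨fun c hc => h3 c (h1 c hc), fun h5 => h2 fun c hc => h5 c (h3 c hc)⟩

section Fork

variable [LE.Structure ℕ] {U : Type} [LE.Structure U]

/-- The symbol `P`. -/
def sP : LE.Relations 1 := Sy.P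

/-- The symbol `O`. -/
def sO : LE.Relations 3 := Sy.O

/-- The formula `O(x, z_0, z_1)`. -/
def fO : LE.Formula (Fin 1 ⊕ Fin 2) :=
  sO.formula ![Term.var (Sum.inl 0), Term.var (Sum.inr 0), Term.var (Sum.inr 1)]

/-- The formula `P(x)`. -/
def fP : LE.Formula (Fin 1 ⊕ Fin 0) := sP.formula ![Term.var (Sum.inl 0)]

theorem realize_fO_nat {r : Rels ℕ} (hr : Rep ℕ r) (x : Fin 1 → ℕ) (y : Fin 2 → ℕ) :
    fO.Realize (Sum.elim x y) ↔ r.O (x 0) (y 0) (y 1) := by
  rw [fO, Formula.realize_rel]
  exact hr.O _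

theorem realize_fP_nat {r : Rels ℕ} (hr : Rep ℕ r) (x : Fin 1 → ℕ) (y : Fin 0 → ℕ) :
    fP.Realize (Sum.elim x y) ↔ r.P (x 0) := by
  rw [fP, Formula.realize_rel]
  exact hr.P _

/-- Universal statements transfer. -/
theorem transfer_all (j : ℕ ↪ₑ[LE] U) {α : Type} {k : ℕ} (φ : LE.Formula (α ⊕ Fin k))
    (v : α → ℕ) (h : ∀ x : Fin k → ℕ, φ.Realize (Sum.elim v x)) (x : Fin k → U) :
    φ.Realize (Sum.elim (j ∘ v) x) := by
  have h1 : (φ.iAlls (Fin k)).Realize v := Formula.realize_iAlls.2 h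
  rw [← j.map_formula] at h1
  exact Formula.realize_iAlls.1 h1 x

/-- `O(x, u, v)` divides over the empty set if `{u, v}` is a closed edge. -/
theorem divides_O {r : Rels ℕ} (hr : Rep ℕ r) (hax : Ax r Set.univ) (hEP : EP r)
    (j : ℕ ↪ₑ[LE] U) {u v : ℕ} (huv : r.G.Adj u v) (hcl : Cl r.G {u, v} Set.univ) :
    Divides (∅ : Set U) (⟨2, fO, ![j u, j v]⟩ : Fml LE 1 U) := by
  obtain ⟨w, hw0, hadj, hR, hind⟩ := exists_star r hax hEP u v huv hcl
  refine ⟨fun i => ![j u, j (w i)], by simp [hw0], ?_, ?_⟩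
  · intro m l φ a ha i i' hi hi'
    have hl : ∀ t : Fin l, False := fun t => ha t
    let v1 : (Fin m × Fin 2) ⊕ Fin l → ℕ :=
      Sum.elim (fun t => (![u, w (i t.1)] : Fin 2 → ℕ) t.2) (fun t => (hl t).elim)
    let v2 : (Fin m × Fin 2) ⊕ Fin l → ℕ :=
      Sum.elim (fun t => (![u, w (i' t.1)] : Fin 2 → ℕ) t.2) (fun t => (hl t).elim)
    obtain ⟨hc1, f, hf, hfu, hfw⟩ := hind m i i' hi hi'
    obtain ⟨hc2, -⟩ := hind m i' i hi' hi
    have him : (insert u (Finset.univ.image (fun t => w (i t)))).image f =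
        insert u (Finset.univ.image (fun t => w (i' t))) := by
      rw [Finset.image_insert, hfu, Finset.image_image]
      congr 2
      exact funext hfw
    have e1 : (Sum.elim (fun t => (![j u, j (w (i t.1))] : Fin 2 → U) t.2) a :
        (Fin m × Fin 2) ⊕ Fin l → U) = j ∘ v1 := by
      funext t
      rcases t with ⟨t, s⟩ | t
      · fin_cases s <;> rfl
      · exact (hl t).elim
    have e2 : (Sum.elim (fun t => (![j u, j (w (i' t.1))] : Fin 2 → U) t.2) a :
        (Fin m × Fin 2) ⊕ Fin l → U) = j ∘ v2 := by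
      funext t
      rcases t with ⟨t, s⟩ | t
      · fin_cases s <;> rfl
      · exact (hl t).elim
    have e3 : f ∘ v1 = v2 := by
      funext t
      rcases t with ⟨t, s⟩ | t
      · fin_cases s
        · exact hfu
        · exact hfw t
      · exact (hl t).elim
    show φ.Realize (Sum.elim (fun t => (![j u, j (w (i t.1))] : Fin 2 → U) t.2) a) ↔
      φ.Realize (Sum.elim (fun t => (![j u, j (w (i' t.1))] : Fin 2 → U) t.2) a)
    rw [e1, e2, j.map_formula, j.map_formula, ← e3]
    refine homog hr hax hEP φ hc1 (f := f) ?_ hf ?_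
    · have := hc2
      rw [← him] at this
      rw [img_eq]
      exact this
    · rintro (⟨t, s⟩ | t)
      · fin_cases s
        · exact Finset.mem_insert_self _ _
        · exact Finset.mem_insert_of_mem (Finset.mem_image_of_mem _ (Finset.mem_univ _))
      · exact (hl t).elim
  · intro hsat
    let ψ : ℕ → Fml LE 1 U := fun i => ⟨2, fO, ![j u, j (w i)]⟩
    obtain ⟨a, ha⟩ := hsat {ψ 0, ψ 1, ψ 2} (by simp) (by
      rintro _ (rfl | rfl | rfl)
      · exact ⟨0, rfl⟩
      · exact ⟨1, rfl⟩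
      · exact ⟨2, rfl⟩)
    have h0 := ha (ψ 0) (by simp)
    have h1 := ha (ψ 1) (by simp)
    have h2 := ha (ψ 2) (by simp)
    -- the universal statement
    let χ : LE.Formula (Fin 4 ⊕ Fin 1) :=
      ((fO.relabel (Sum.elim Sum.inr (Sum.inl ∘ ![0, 1]))) ⊓
        ((fO.relabel (Sum.elim Sum.inr (Sum.inl ∘ ![0, 2]))) ⊓
          (fO.relabel (Sum.elim Sum.inr (Sum.inl ∘ ![0, 3]))))).not
    have hchi : ∀ {K : Type} [LE.Structure K] (y : Fin 4 → K) (x : Fin 1 → K),
        χ.Realize (Sum.elim y x) ↔ ¬ (fO.Realize (Sum.elim x ![y 0, y 1]) ∧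
          fO.Realize (Sum.elim x ![y 0, y 2]) ∧ fO.Realize (Sum.elim x ![y 0, y 3])) := by
      intro K _ y x
      have e : ∀ p q : Fin 4, ((Sum.elim y x) ∘ (Sum.elim Sum.inr (Sum.inl ∘ ![p, q])) :
          Fin 1 ⊕ Fin 2 → K) = Sum.elim x ![y p, y q] := by
        intro p q
        funext t
        rcases t with t | t
        · rfl
        · fin_cases t <;> rfl
      simp only [χ, Formula.realize_not, Formula.realize_inf, Formula.realize_relabel, e]
    have h3 := transfer_all j χ ![u, w 0, w 1, w 2] (by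
      intro x
      rw [hchi]
      simp only [realize_fO_nat hr]
      rintro ⟨g0, g1, g2⟩
      have hP : r.P (x 0) := hax.OP _ trivial _ trivial _ trivial g0
      exact (hax.act _ trivial hP).rf _ trivial _ trivial _ trivial _ trivial
        (hR 0 1 2 (by norm_num) (by norm_num)) g0 g1 g2) a
    rw [hchi] at h3
    exact h3 ⟨h0, h1, h2⟩

/-- In every model of the theory some complete type over the empty set forks over it. -/
theorem forks_in {r : Rels ℕ} (hr : Rep ℕ r) (hax : Ax r Set.univ) (hEP : EP r)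
    (hU : U ⊨ LE.completeTheory ℕ) :
    ∃ p : Set (Fml LE 1 U), IsTypeOver (∅ : Set U) p ∧ ∃ ψ ∈ p, Forks (∅ : Set U) ψ := by
  obtain ⟨j, -⟩ := exists_sub (fun n => finite_types hr hax hEP n) hU (∅ : Set U)
    Set.countable_empty
  obtain ⟨u, v, huv, hcl⟩ := exists_edge r hax hEP
  obtain ⟨x, hx⟩ := exists_point r hax hEP
  have hcl' : Cl r.G {v, u} Set.univ := by
    rw [Finset.pair_comm]
    exact hcl
  have hPx : ∀ x y : ℕ, x = y → (r.P x ↔ r.P y) := fun x y h => by rw [h]
  refine ⟨{ψ | ψ.Over (∅ : Set U) ∧ ψ.Holds fun _ => j x}, ?_, ⟨0, fP, fun t => t.elim0⟩,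
    ⟨fun t => t.elim0, ?_⟩, {⟨2, fO, ![j u, j v]⟩, ⟨2, fO, ![j v, j u]⟩}, by simp, ?_, ?_⟩
  · exact {
      par_mem := fun ψ hψ => hψ.1
      finSat := fun s _ hsub => ⟨fun _ => j x, fun ψ hψ => (hsub hψ).2⟩
      complete := by
        intro ψ hψ
        by_cases h : ψ.Holds fun _ => j x
        · exact Or.inl ⟨hψ, h⟩
        · exact Or.inr ⟨hψ, by simpa [Fml.Holds, Fml.neg] using h⟩ }
  · show fP.Realize (Sum.elim (fun _ => j x) fun t => t.elim0)
    have e : (Sum.elim (fun _ => j x) (fun t => t.elim0) : Fin 1 ⊕ Fin 0 → U) =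
        j ∘ (Sum.elim (fun _ => x) (fun t => t.elim0)) := by
      funext t
      rcases t with t | t
      · rfl
      · exact t.elim0
    rw [e, j.map_formula, realize_fP_nat hr]
    exact hx
  · rintro _ (rfl | rfl)
    · exact divides_O hr hax hEP j huv hcl
    · exact divides_O hr hax hEP j huv.symm hcl'
  · intro a ha
    let χ : LE.Formula (Fin 2 ⊕ Fin 1) :=
      (fP.relabel (Sum.elim Sum.inr fun t => t.elim0)).imp
        ((fO.relabel (Sum.elim Sum.inr (Sum.inl ∘ ![0, 1]))) ⊔
          (fO.relabel (Sum.elim Sum.inr (Sum.inl ∘ ![1, 0]))))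
    have hchi : ∀ {K : Type} [LE.Structure K] (y : Fin 2 → K) (x : Fin 1 → K),
        χ.Realize (Sum.elim y x) ↔ (fP.Realize (Sum.elim x fun t => t.elim0) →
          (fO.Realize (Sum.elim x ![y 0, y 1]) ∨ fO.Realize (Sum.elim x ![y 1, y 0]))) := by
      intro K _ y x
      have e : ∀ p q : Fin 2, ((Sum.elim y x) ∘ (Sum.elim Sum.inr (Sum.inl ∘ ![p, q])) :
          Fin 1 ⊕ Fin 2 → K) = Sum.elim x ![y p, y q] := by
        intro p q
        funext t
        rcases t with t | t
        · rfl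
        · fin_cases t <;> rfl
      have e' : ((Sum.elim y x) ∘ (Sum.elim Sum.inr fun t => t.elim0) : Fin 1 ⊕ Fin 0 → K) =
          Sum.elim x fun t => t.elim0 := by
        funext t
        rcases t with t | t
        · rfl
        · exact t.elim0
      simp only [χ, Formula.realize_imp, Formula.realize_sup, Formula.realize_relabel, e, e']
    have h3 := transfer_all j χ ![u, v] (by
      intro x
      rw [hchi]
      simp only [realize_fO_nat hr, realize_fP_nat hr]
      intro hP
      exact (hax.act _ trivial hP).cov _ trivial _ trivial huv) a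
    rw [hchi] at h3
    rcases h3 ha with h4 | h4
    · exact ⟨_, Or.inl rfl, h4⟩
    · exact ⟨_, Or.inr rfl, h4⟩

end Fork

/-- The main theorem. -/
theorem main : ∃ (L : FirstOrder.Language.{0, 0}) (T : L.Theory), T.IsComplete ∧
    CountablyCategorical T ∧ ¬ HasSOP T ∧
    (∃ (κ : Cardinal.{0}) (U : Type) (_ : L.Structure U), IsMonster T κ U) ∧
    ∀ (U : Type) [L.Structure U], U ⊨ T →
      ∃ p : Set (Fml L 1 U), IsTypeOver (∅ : Set U) p ∧ ∃ ψ ∈ p, Forks (∅ : Set U) ψ := by
  obtain ⟨r, hax, hEP⟩ := exists_generic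
  letI : LE.Structure ℕ := str r
  have hr : Rep ℕ r := rep_str r
  have hsym : Countable LE.Symbols :=
    inferInstanceAs (Countable ((Σ l, LE.Functions l) ⊕ (Σ l, LE.Relations l)))
  have hcard : LE.card < ℵ₁ := lt_of_le_of_lt mk_le_aleph0 aleph0_lt_aleph_one
  refine ⟨LE, LE.completeTheory ℕ, completeTheory.isComplete LE ℕ, ⟨hsym, ?_, ?_⟩,
    nsop hr hax hEP, ?_, ?_⟩
  · exact ⟨ℕ, inferInstance, inferInstance, inferInstance, inferInstance⟩
  · intro M N _ _ hM hN _ _
    obtain ⟨e⟩ := equiv_of_finite_types (M := ℕ) (N := M) (sent_iff hM)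
      (finite_types hr hax hEP)
    obtain ⟨e'⟩ := equiv_of_finite_types (M := ℕ) (N := N) (sent_iff hN)
      (finite_types hr hax hEP)
    exact ⟨e'.comp e.symm⟩
  · refine ⟨ℵ₁, H968.Ult ℕ, inferInstance, ?_, aleph0_lt_aleph_one, hcard,
      H968.ult_saturated LE ℕ⟩
    rw [Theory.model_iff]
    intro φ hφ
    rw [Ultraproduct.sentence_realize]
    exact Filter.Eventually.of_forall fun _ => hφ
  · intro U _ hU
    exact forks_in hr hax hEP hU

end H968E
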