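import Pool.Agent.helper968_exist.Amal

/-!
Making two ends symmetric: the orientations given by the points of the two ends are changed so
that swapping the ends is an automorphism of their union.
-/

namespace H968E

open Classical Finset

namespace Swap

/-- The union of closed subsets of the two sides containing the common part is closed. -/
theorem closed_union {V : Type} {G : SimpleGraph V} {S T A B : Finset V} (h : Free G S T)
    (hA : Cl G A (S : Set V)) (hB : Cl G B (T : Set V)) (hCA : S ∩ T ⊆ A) (hCB : S ∩ T ⊆ B) :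
    Cl G (A ∪ B) ((S ∪ T : Finset V) : Set V) where
  sub := by
    have h1 : A ⊆ S := by exact_mod_cast hA.sub
    have h2 : B ⊆ T := by exact_mod_cast hB.sub
    exact_mod_cast Finset.union_subset_union h1 h2
  lt X hX hAB := by
    have h1 : A ⊆ S := by exact_mod_cast hA.sub
    have h2 : B ⊆ T := by exact_mod_cast hB.sub
    have hX' : X ⊆ S ∪ T := by exact_mod_cast hX
    have h3 := h.dl_eq hX'
    have h4 := h.dl_eq (Finset.union_subset_union h1 h2)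
    have h5 : X ∩ (S ∩ T) = S ∩ T := by
      apply Finset.inter_eq_right.2
      exact hCA.trans (Finset.subset_union_left.trans hAB.1)
    have h6 : (A ∪ B) ∩ (S ∩ T) = S ∩ T := by
      apply Finset.inter_eq_right.2
      exact hCA.trans Finset.subset_union_left
    have h7 : (A ∪ B) ∩ S = A := by
      ext x
      simp only [Finset.mem_inter, Finset.mem_union]
      constructor
      · rintro ⟨h8 | h8, h9⟩
        · exact h8
        · exact hCA (Finset.mem_inter.2 ⟨h9, h2 h8⟩)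
      · intro h8
        exact ⟨Or.inl h8, h1 h8⟩
    have h8 : (A ∪ B) ∩ T = B := by
      ext x
      simp only [Finset.mem_inter, Finset.mem_union]
      constructor
      · rintro ⟨h8 | h8, h9⟩
        · exact hCB (Finset.mem_inter.2 ⟨h1 h8, h9⟩)
        · exact h8
      · intro h8
        exact ⟨Or.inr h8, h2 h8⟩
    rw [h5] at h3
    rw [h6, h7, h8] at h4
    have h9 : A ⊆ X ∩ S := Finset.subset_inter (Finset.subset_union_left.trans hAB.1) h1
    have h10 : B ⊆ X ∩ T := Finset.subset_inter (Finset.subset_union_right.trans hAB.1) h2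
    have h11 := hA.le (X := X ∩ S) (by exact_mod_cast Finset.inter_subset_right) h9
    have h12 := hB.le (X := X ∩ T) (by exact_mod_cast Finset.inter_subset_right) h10
    by_cases h13 : A = X ∩ S
    · by_cases h14 : B = X ∩ T
      · exfalso
        apply (Finset.ssubset_iff_subset_ne.1 hAB).2
        rw [h13, h14, ← Finset.inter_union_distrib_left]
        exact Finset.inter_eq_left.2 hX'
      · have := hB.lt (X ∩ T) (by exact_mod_cast Finset.inter_subset_right)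
          (Finset.ssubset_iff_subset_ne.2 ⟨h10, h14⟩)
        omega
    · have := hA.lt (X ∩ S) (by exact_mod_cast Finset.inter_subset_right)
        (Finset.ssubset_iff_subset_ne.2 ⟨h9, h13⟩)
      omega

/-- Freeness passes to subsets containing the common part. -/
theorem free_mono {V : Type} {r : Rels V} {S T A B : Finset V} (h : FreeR r S T) (hA : A ⊆ S)
    (hB : B ⊆ T) (hCA : S ∩ T ⊆ A) (hCB : S ∩ T ⊆ B) : FreeR r A B := by
  have hl : ∀ x ∈ A ∪ B, x ∈ S → x ∈ A := by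
    intro x hx hS
    rcases Finset.mem_union.1 hx with h1 | h1
    · exact h1
    · exact hCA (Finset.mem_inter.2 ⟨hS, hB h1⟩)
  have hr : ∀ x ∈ A ∪ B, x ∈ T → x ∈ B := by
    intro x hx hT
    rcases Finset.mem_union.1 hx with h1 | h1
    · exact hCB (Finset.mem_inter.2 ⟨hA h1, hT⟩)
    · exact h1
  have hsub : A ∪ B ⊆ S ∪ T := Finset.union_subset_union hA hB
  refine ⟨?_, ?_⟩
  · intro u hu v hv huv
    rcases h.G u (hsub hu) v (hsub hv) huv with ⟨h1, h2⟩ | ⟨h1, h2⟩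
    · exact Or.inl ⟨hl u hu h1, hl v hv h2⟩
    · exact Or.inr ⟨hr u hu h1, hr v hv h2⟩
  · intro v hv a ha b hb c hc hR
    rcases h.R v (hsub hv) a (hsub ha) b (hsub hb) c (hsub hc) hR with
      ⟨h1, h2, h3, h4⟩ | ⟨h1, h2, h3, h4⟩
    · exact Or.inl ⟨hl v hv h1, hl a ha h2, hl b hb h3, hl c hc h4⟩
    · exact Or.inr ⟨hr v hv h1, hr a ha h2, hr b hb h3, hr c hc h4⟩

/-- Gluing the orientations given by two points. -/
def gl {V : Type} (Q : Rels V) (S T : Finset V) (x x' v w : V) : Prop :=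
  (v ∈ S ∧ w ∈ S ∧ Q.O x v w) ∨ (v ∈ T ∧ w ∈ T ∧ Q.O x' v w)

theorem gl_left {V : Type} {Q : Rels V} {S T : Finset V} {x x' : V}
    (hag : ∀ v ∈ S ∩ T, ∀ w ∈ S ∩ T, (Q.O x' v w ↔ Q.O x v w)) {v w : V} (hv : v ∈ S)
    (hw : w ∈ S) : gl Q S T x x' v w ↔ Q.O x v w := by
  constructor
  · rintro (⟨_, _, h⟩ | ⟨h1, h2, h⟩)
    · exact h
    · exact (hag v (Finset.mem_inter.2 ⟨hv, h1⟩) w (Finset.mem_inter.2 ⟨hw, h2⟩)).1 h
  · intro h
    exact Or.inl ⟨hv, hw, h⟩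

theorem gl_right {V : Type} {Q : Rels V} {S T : Finset V} {x x' : V}
    (hag : ∀ v ∈ S ∩ T, ∀ w ∈ S ∩ T, (Q.O x' v w ↔ Q.O x v w)) {v w : V} (hv : v ∈ T)
    (hw : w ∈ T) : gl Q S T x x' v w ↔ Q.O x' v w := by
  constructor
  · rintro (⟨h1, h2, h⟩ | ⟨_, _, h⟩)
    · exact (hag v (Finset.mem_inter.2 ⟨h1, hv⟩) w (Finset.mem_inter.2 ⟨h2, hw⟩)).2 h
    · exact h
  · intro h
    exact Or.inr ⟨hv, hw, h⟩

theorem gl_act {V : Type} {Q : Rels V} {D S T : Finset V} (hD : Ax Q (D : Set V)) (hS : S ⊆ D)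
    (hT : T ⊆ D) (hf : FreeR Q S T) {x x' : V} (hx : x ∈ D) (hx' : x' ∈ D) (hp : Q.P x)
    (hp' : Q.P x') (hag : ∀ v ∈ S ∩ T, ∀ w ∈ S ∩ T, (Q.O x' v w ↔ Q.O x v w)) :
    Act Q (gl Q S T x x') ((S ∪ T : Finset V) : Set V) := by
  have hS' : (S : Set V) ⊆ (D : Set V) := by exact_mod_cast hS
  have hT' : (T : Set V) ⊆ (D : Set V) := by exact_mod_cast hT
  refine hf.act ?_ ?_ ?_
  · refine ((hD.act x hx hp).mono hS').congr ?_
    intro v hv w hw
    exact gl_left hag hv hw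
  · refine ((hD.act x' hx' hp').mono hT').congr ?_
    intro v hv w hw
    exact gl_right hag hv hw
  · rintro v hv w hw (⟨h1, h2, h⟩ | ⟨h1, h2, h⟩)
    · exact (hD.act x hx hp).adj v (hS h1) w (hS h2) h
    · exact (hD.act x' hx' hp').adj v (hT h1) w (hT h2) h

theorem core {V : Type} (Q : Rels V) (D S T A B : Finset V) (hD : Ax Q (D : Set V))
    (hfree : FreeR Q S T) (hcl : Cl Q.G (S ∪ T) (D : Set V))
    (hA : Cl Q.G A (S : Set V)) (hB : Cl Q.G B (T : Set V)) (hCA : S ∩ T ⊆ A)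
    (hCB : S ∩ T ⊆ B) (σ : V → V)
    (hσA : ∀ x ∈ A, σ x ∈ B) (hσB : ∀ x ∈ B, σ x ∈ A) (hσC : ∀ x ∈ S ∩ T, σ x = x)
    (hσσ : ∀ x ∈ A ∪ B, σ (σ x) = x) (hrA : RefOn Q Q (A : Set V) σ)
    (hrB : RefOn Q Q (B : Set V) σ) :
    ∃ o : V → V → V → Prop, Ax (Q.setO o) (D : Set V) ∧
      (∀ x ∈ D, x ∉ A \ (S ∩ T) → x ∉ B \ (S ∩ T) →
        ∀ v ∈ D, ∀ w ∈ D, (o x v w ↔ Q.O x v w)) ∧
      (∀ x ∈ S, ∀ v ∈ S, ∀ w ∈ S, (o x v w ↔ Q.O x v w)) ∧
      (∀ x ∈ T, ∀ v ∈ T, ∀ w ∈ T, (o x v w ↔ Q.O x v w)) ∧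
      Cl Q.G (A ∪ B) (D : Set V) ∧
      RefOn (Q.setO o) (Q.setO o) ((A ∪ B : Finset V) : Set V) σ := by
  have hAS : A ⊆ S := by exact_mod_cast hA.sub
  have hBT : B ⊆ T := by exact_mod_cast hB.sub
  have hSTD : S ∪ T ⊆ D := by exact_mod_cast hcl.sub
  have hSD : S ⊆ D := Finset.subset_union_left.trans hSTD
  have hTD : T ⊆ D := Finset.subset_union_right.trans hSTD
  have hAD : A ⊆ D := hAS.trans hSD
  have hBD : B ⊆ D := hBT.trans hTD
  -- closed sets
  have k1 : Cl Q.G (S ∪ B) (D : Set V) :=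
    (closed_union hfree.G (Cl.refl S) hB Finset.inter_subset_left hCB).trans hcl
  have k2 : Cl Q.G (T ∪ A) (D : Set V) := by
    rw [Finset.union_comm]
    exact (closed_union hfree.G hA (Cl.refl T) hCA Finset.inter_subset_right).trans hcl
  have k3 : Cl Q.G (A ∪ B) (D : Set V) := (closed_union hfree.G hA hB hCA hCB).trans hcl
  have f1 : FreeR Q S B := free_mono hfree subset_rfl hBT Finset.inter_subset_left hCB
  have f2 : FreeR Q T A := (free_mono hfree hAS subset_rfl hCA Finset.inter_subset_right).symm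
  have f3 : FreeR Q A B := free_mono hfree hAS hBT hCA hCB
  have hSB : ∀ x ∈ S, x ∈ B → x ∈ S ∩ T := fun x h1 h2 => Finset.mem_inter.2 ⟨h1, hBT h2⟩
  have hTA : ∀ x ∈ T, x ∈ A → x ∈ S ∩ T := fun x h1 h2 => Finset.mem_inter.2 ⟨hAS h2, h1⟩
  -- agreement
  have agA : ∀ x ∈ A, ∀ v ∈ S ∩ B, ∀ w ∈ S ∩ B, (Q.O (σ x) v w ↔ Q.O x v w) := by
    intro x hx v hv w hw
    rw [Finset.mem_inter] at hv hw
    have h1 := hSB v hv.1 hv.2
    have h2 := hSB w hw.1 hw.2
    have h3 := hrA.O x hx v (hCA h1) w (hCA h2)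
    rwa [hσC v h1, hσC w h2] at h3
  have agB : ∀ x ∈ B, ∀ v ∈ T ∩ A, ∀ w ∈ T ∩ A, (Q.O (σ x) v w ↔ Q.O x v w) := by
    intro x hx v hv w hw
    rw [Finset.mem_inter] at hv hw
    have h1 := hTA v hv.1 hv.2
    have h2 := hTA w hw.1 hw.2
    have h3 := hrB.O x hx v (hCB h1) w (hCB h2)
    rwa [hσC v h1, hσC w h2] at h3
  let o₁ : V → V → V → Prop := fun x v w =>
    if x ∈ A \ (S ∩ T) then gl Q S B x (σ x) v w
    else if x ∈ B \ (S ∩ T) then gl Q T A x (σ x) v w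
    else Q.O x v w
  let K : V → Finset V := fun x =>
    if x ∈ A \ (S ∩ T) then S ∪ B
    else if x ∈ B \ (S ∩ T) then T ∪ A
    else D
  have hK : ∀ x ∈ D, Q.P x → Cl Q.G (K x) (D : Set V) := by
    intro x _ _
    simp only [K]
    split_ifs
    · exact k1
    · exact k2
    · exact Cl.refl D
  have hact : ∀ x ∈ D, Q.P x → Act (Q.setO o₁) (o₁ x) (K x : Set V) := by
    intro x hx hp
    refine Act.setO ?_ _
    by_cases c1 : x ∈ A \ (S ∩ T)
    · have e1 : o₁ x = gl Q S B x (σ x) := by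
        funext v w
        simp only [o₁, if_pos c1]
      have e2 : K x = S ∪ B := by simp only [K, if_pos c1]
      rw [e1, e2]
      have hxA := (Finset.mem_sdiff.1 c1).1
      exact gl_act hD hSD hBD f1 hx (hBD (hσA x hxA)) hp ((hrA.P x hxA).2 hp) (agA x hxA)
    · by_cases c2 : x ∈ B \ (S ∩ T)
      · have e1 : o₁ x = gl Q T A x (σ x) := by
          funext v w
          simp only [o₁, if_neg c1, if_pos c2]
        have e2 : K x = T ∪ A := by simp only [K, if_neg c1, if_pos c2]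
        rw [e1, e2]
        have hxB := (Finset.mem_sdiff.1 c2).1
        exact gl_act hD hTD hAD f2 hx (hAD (hσB x hxB)) hp ((hrB.P x hxB).2 hp) (agB x hxB)
      · have e1 : o₁ x = Q.O x := by
          funext v w
          simp only [o₁, if_neg c1, if_neg c2]
        have e2 : K x = D := by simp only [K, if_neg c1, if_neg c2]
        rw [e1, e2]
        exact hD.act x hx hp
  obtain ⟨o, ho1, ho2⟩ := complete (r := Q.setO o₁) (hD.toAx0.setO o₁) K hK hact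
  have ho1 : Ax (Q.setO o) (D : Set V) := ho1
  -- the values of `o`
  have vA : ∀ x ∈ A, x ∉ S ∩ T → ∀ v ∈ S ∪ B, ∀ w ∈ S ∪ B,
      (o x v w ↔ Q.P x ∧ gl Q S B x (σ x) v w) := by
    intro x hx hxC v hv w hw
    have c1 : x ∈ A \ (S ∩ T) := Finset.mem_sdiff.2 ⟨hx, hxC⟩
    have e2 : K x = S ∪ B := by simp only [K, if_pos c1]
    have hvD : v ∈ D := (show S ∪ B ⊆ D by exact_mod_cast k1.sub) hv
    have hwD : w ∈ D := (show S ∪ B ⊆ D by exact_mod_cast k1.sub) hw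
    constructor
    · intro h
      have hp : Q.P x := ho1.OP x (hAD hx) v hvD w hwD h
      refine ⟨hp, ?_⟩
      have h3 := (ho2 x (hAD hx) hp v (e2 ▸ hv) w (e2 ▸ hw)).1 h
      simpa only [Rels.setO_O, o₁, if_pos c1] using h3
    · rintro ⟨hp, h⟩
      apply (ho2 x (hAD hx) hp v (e2 ▸ hv) w (e2 ▸ hw)).2
      simpa only [Rels.setO_O, o₁, if_pos c1] using h
  have vB : ∀ x ∈ B, x ∉ S ∩ T → ∀ v ∈ T ∪ A, ∀ w ∈ T ∪ A,
      (o x v w ↔ Q.P x ∧ gl Q T A x (σ x) v w) := by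
    intro x hx hxC v hv w hw
    have c1 : x ∉ A \ (S ∩ T) := by
      intro h
      exact hxC (hSB x (hAS (Finset.mem_sdiff.1 h).1) hx)
    have c2 : x ∈ B \ (S ∩ T) := Finset.mem_sdiff.2 ⟨hx, hxC⟩
    have e2 : K x = T ∪ A := by simp only [K, if_neg c1, if_pos c2]
    have hvD : v ∈ D := (show T ∪ A ⊆ D by exact_mod_cast k2.sub) hv
    have hwD : w ∈ D := (show T ∪ A ⊆ D by exact_mod_cast k2.sub) hw
    constructor
    · intro h
      have hp : Q.P x := ho1.OP x (hBD hx) v hvD w hwD h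
      refine ⟨hp, ?_⟩
      have h3 := (ho2 x (hBD hx) hp v (e2 ▸ hv) w (e2 ▸ hw)).1 h
      simpa only [Rels.setO_O, o₁, if_neg c1, if_pos c2] using h3
    · rintro ⟨hp, h⟩
      apply (ho2 x (hBD hx) hp v (e2 ▸ hv) w (e2 ▸ hw)).2
      simpa only [Rels.setO_O, o₁, if_neg c1, if_pos c2] using h
  have vC : ∀ x ∈ D, x ∉ A \ (S ∩ T) → x ∉ B \ (S ∩ T) →
      ∀ v ∈ D, ∀ w ∈ D, (o x v w ↔ Q.O x v w) := by
    intro x hx c1 c2 v hv w hw
    have e2 : K x = D := by simp only [K, if_neg c1, if_neg c2]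
    constructor
    · intro h
      have hp : Q.P x := ho1.OP x hx v hv w hw h
      have h3 := (ho2 x hx hp v (e2 ▸ hv) w (e2 ▸ hw)).1 h
      simpa only [Rels.setO_O, o₁, if_neg c1, if_neg c2] using h3
    · intro h
      have hp : Q.P x := hD.OP x hx v hv w hw h
      apply (ho2 x hx hp v (e2 ▸ hv) w (e2 ▸ hw)).2
      simpa only [Rels.setO_O, o₁, if_neg c1, if_neg c2] using h
  have vS : ∀ x ∈ S, ∀ v ∈ S, ∀ w ∈ S, (o x v w ↔ Q.O x v w) := by
    intro x hx v hv w hw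
    by_cases c1 : x ∈ A \ (S ∩ T)
    · obtain ⟨hxA, hxC⟩ := Finset.mem_sdiff.1 c1
      rw [vA x hxA hxC v (Finset.mem_union_left _ hv) w (Finset.mem_union_left _ hw),
        gl_left (agA x hxA) hv hw]
      exact ⟨fun h => h.2, fun h => ⟨hD.OP x (hSD hx) v (hSD hv) w (hSD hw) h, h⟩⟩
    · have c2 : x ∉ B \ (S ∩ T) := by
        intro h
        rw [Finset.mem_sdiff] at h
        exact h.2 (hSB x hx h.1)
      exact vC x (hSD hx) c1 c2 v (hSD hv) w (hSD hw)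
  have vT : ∀ x ∈ T, ∀ v ∈ T, ∀ w ∈ T, (o x v w ↔ Q.O x v w) := by
    intro x hx v hv w hw
    by_cases c1 : x ∈ B \ (S ∩ T)
    · obtain ⟨hxB, hxC⟩ := Finset.mem_sdiff.1 c1
      rw [vB x hxB hxC v (Finset.mem_union_left _ hv) w (Finset.mem_union_left _ hw),
        gl_left (agB x hxB) hv hw]
      exact ⟨fun h => h.2, fun h => ⟨hD.OP x (hTD hx) v (hTD hv) w (hTD hw) h, h⟩⟩
    · have c2 : x ∉ A \ (S ∩ T) := by
        intro h
        rw [Finset.mem_sdiff] at h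
        exact h.2 (hTA x hx h.1)
      exact vC x (hTD hx) c2 c1 v (hTD hv) w (hTD hw)
  refine ⟨o, ho1, vC, vS, vT, k3, ?_⟩
  -- the automorphism
  have hσU : ∀ x ∈ A ∪ B, σ x ∈ A ∪ B := by
    intro x hx
    rcases Finset.mem_union.1 hx with h | h
    · exact Finset.mem_union_right _ (hσA x h)
    · exact Finset.mem_union_left _ (hσB x h)
  have hGf : ∀ x ∈ A ∪ B, ∀ y ∈ A ∪ B, Q.G.Adj x y → Q.G.Adj (σ x) (σ y) := by
    intro x hx y hy hxy
    rcases f3.G x hx y hy hxy with ⟨h1, h2⟩ | ⟨h1, h2⟩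
    · exact (hrA.G x h1 y h2).2 hxy
    · exact (hrB.G x h1 y h2).2 hxy
  have hRf : ∀ v ∈ A ∪ B, ∀ a ∈ A ∪ B, ∀ b ∈ A ∪ B, ∀ c ∈ A ∪ B,
      Q.R v a b c → Q.R (σ v) (σ a) (σ b) (σ c) := by
    intro v hv a ha b hb c hc h
    rcases f3.R v hv a ha b hb c hc h with ⟨h1, h2, h3, h4⟩ | ⟨h1, h2, h3, h4⟩
    · exact (hrA.R v h1 a h2 b h3 c h4).2 h
    · exact (hrB.R v h1 a h2 b h3 c h4).2 h
  have hABD : A ∪ B ⊆ D := by exact_mod_cast k3.sub
  have hOf : ∀ x ∈ A ∪ B, ∀ v ∈ A ∪ B, ∀ w ∈ A ∪ B, o x v w → o (σ x) (σ v) (σ w) := by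
    intro x hx v hv w hw h
    have hp : Q.P x := ho1.OP x (hABD hx) v (hABD hv) w (hABD hw) h
    have hadj : Q.G.Adj v w := (ho1.act x (hABD hx) hp).adj v (hABD hv) w (hABD hw) h
    have hvw := f3.G v hv w hw hadj
    by_cases hxC : x ∈ S ∩ T
    · have hxA := hCA hxC
      have hxB := hCB hxC
      have hcx : ∀ y ∈ S ∩ T, ∀ v ∈ D, ∀ w ∈ D, (o y v w ↔ Q.O y v w) := by
        intro y hy
        refine vC y (hAD (hCA hy)) ?_ ?_
        · exact fun h => (Finset.mem_sdiff.1 h).2 hy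
        · exact fun h => (Finset.mem_sdiff.1 h).2 hy
      have h2 := (hcx x hxC v (hABD hv) w (hABD hw)).1 h
      have h3 : σ x ∈ S ∩ T := by rw [hσC x hxC]; exact hxC
      apply (hcx (σ x) h3 (σ v) (hABD (hσU v hv)) (σ w) (hABD (hσU w hw))).2
      rcases hvw with ⟨h4, h5⟩ | ⟨h4, h5⟩
      · exact (hrA.O x hxA v h4 w h5).2 h2
      · exact (hrB.O x hxB v h4 w h5).2 h2
    · have hσxC : σ x ∉ S ∩ T := by
        intro h2
        apply hxC
        have h3 := hσσ x hx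
        rw [hσC _ h2] at h3
        rw [← h3]
        exact h2
      rcases Finset.mem_union.1 hx with hxA | hxB
      · have sub1 : A ∪ B ⊆ S ∪ B := Finset.union_subset_union hAS subset_rfl
        have sub2 : A ∪ B ⊆ T ∪ A := by
          rw [Finset.union_comm T A]
          exact Finset.union_subset_union subset_rfl hBT
        have h2 := (vA x hxA hxC v (sub1 hv) w (sub1 hw)).1 h
        apply (vB (σ x) (hσA x hxA) hσxC (σ v) (sub2 (hσU v hv)) (σ w) (sub2 (hσU w hw))).2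
        refine ⟨(hrA.P x hxA).2 hp, ?_⟩
        rw [hσσ x hx]
        rcases hvw with ⟨h4, h5⟩ | ⟨h4, h5⟩
        · left
          refine ⟨hBT (hσA v h4), hBT (hσA w h5), ?_⟩
          apply (hrA.O x hxA v h4 w h5).2
          exact (gl_left (agA x hxA) (hAS h4) (hAS h5)).1 h2.2
        · right
          refine ⟨hσB v h4, hσB w h5, ?_⟩
          have h6 := (gl_right (agA x hxA) h4 h5).1 h2.2
          have h7 := (hrB.O (σ x) (hσA x hxA) v h4 w h5).2 h6
          rwa [hσσ x hx] at h7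
      · have sub1 : A ∪ B ⊆ S ∪ B := Finset.union_subset_union hAS subset_rfl
        have sub2 : A ∪ B ⊆ T ∪ A := by
          rw [Finset.union_comm T A]
          exact Finset.union_subset_union subset_rfl hBT
        have h2 := (vB x hxB hxC v (sub2 hv) w (sub2 hw)).1 h
        apply (vA (σ x) (hσB x hxB) hσxC (σ v) (sub1 (hσU v hv)) (σ w) (sub1 (hσU w hw))).2
        refine ⟨(hrB.P x hxB).2 hp, ?_⟩
        rw [hσσ x hx]
        rcases hvw with ⟨h4, h5⟩ | ⟨h4, h5⟩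
        · right
          refine ⟨hσA v h4, hσA w h5, ?_⟩
          have h6 := (gl_right (agB x hxB) h4 h5).1 h2.2
          have h7 := (hrA.O (σ x) (hσB x hxB) v h4 w h5).2 h6
          rwa [hσσ x hx] at h7
        · left
          refine ⟨hAS (hσB v h4), hAS (hσB w h5), ?_⟩
          apply (hrB.O x hxB v h4 w h5).2
          exact (gl_left (agB x hxB) (hBT h4) (hBT h5)).1 h2.2
  refine ⟨?_, ?_, ?_, ?_, ?_⟩
  · intro x hx y hy hxy
    have hx' : x ∈ A ∪ B := by exact_mod_cast hx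
    have hy' : y ∈ A ∪ B := by exact_mod_cast hy
    rw [← hσσ x hx', ← hσσ y hy', hxy]
  · intro x hx
    rcases Finset.mem_union.1 (show x ∈ A ∪ B by exact_mod_cast hx) with h | h
    · exact hrA.P x h
    · exact hrB.P x h
  · intro x hx y hy
    have hx' : x ∈ A ∪ B := by exact_mod_cast hx
    have hy' : y ∈ A ∪ B := by exact_mod_cast hy
    refine ⟨fun h => ?_, hGf x hx' y hy'⟩
    have := hGf (σ x) (hσU x hx') (σ y) (hσU y hy') h
    rwa [hσσ x hx', hσσ y hy'] at this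
  · intro v hv a ha b hb c hc
    have hv' : v ∈ A ∪ B := by exact_mod_cast hv
    have ha' : a ∈ A ∪ B := by exact_mod_cast ha
    have hb' : b ∈ A ∪ B := by exact_mod_cast hb
    have hc' : c ∈ A ∪ B := by exact_mod_cast hc
    refine ⟨fun h => ?_, hRf v hv' a ha' b hb' c hc'⟩
    have := hRf (σ v) (hσU v hv') (σ a) (hσU a ha') (σ b) (hσU b hb') (σ c) (hσU c hc') h
    rwa [hσσ v hv', hσσ a ha', hσσ b hb', hσσ c hc'] at this
  · intro x hx v hv w hw
    have hx' : x ∈ A ∪ B := by exact_mod_cast hx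
    have hv' : v ∈ A ∪ B := by exact_mod_cast hv
    have hw' : w ∈ A ∪ B := by exact_mod_cast hw
    refine ⟨fun h => ?_, hOf x hx' v hv' w hw'⟩
    have := hOf (σ x) (hσU x hx') (σ v) (hσU v hv') (σ w) (hσU w hw') h
    rwa [hσσ x hx', hσσ v hv', hσσ w hw'] at this

theorem exists_swap' {V : Type} (r : Rels V) (Z Y0 Y1 : Finset V) (hZ : Ax r (Z : Set V))
    (h0 : Cl r.G Y0 (Z : Set V)) (h1 : Cl r.G Y1 (Z : Set V)) (g : V → V)
    (hg : RefOn r r (Y0 : Set V) g) (hgi : Y0.image g = Y1) (hgC : ∀ x ∈ Y0 ∩ Y1, g x = x)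
    (Q : Rels V) (D : Finset V) (hD : Ax Q (D : Set V)) (e e' : V → V)
    (he : RefOn r Q (Z : Set V) e) (he' : RefOn r Q (Z : Set V) e')
    (hC : ∀ x ∈ Y0 ∩ Y1, e' x = e x)
    (hcap : Z.image e ∩ Z.image e' = (Y0 ∩ Y1).image e)
    (hfree : FreeR Q (Z.image e) (Z.image e'))
    (hcl : Cl Q.G (Z.image e ∪ Z.image e') (D : Set V)) :
    ∃ (o : V → V → V → Prop) (σ : V → V), Ax (Q.setO o) (D : Set V) ∧
      (∀ x ∈ D, x ∉ (Y0 \ Y1).image e → x ∉ (Y1 \ Y0).image e' →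
        ∀ v ∈ D, ∀ w ∈ D, (o x v w ↔ Q.O x v w)) ∧
      RefOn r (Q.setO o) (Z : Set V) e ∧ RefOn r (Q.setO o) (Z : Set V) e' ∧
      Cl Q.G (Y0.image e ∪ Y1.image e') (D : Set V) ∧
      RefOn (Q.setO o) (Q.setO o) ((Y0.image e ∪ Y1.image e' : Finset V) : Set V) σ ∧
      (∀ y ∈ Y0, σ (e y) = e' (g y) ∧ σ (e' (g y)) = e y) := by
  have hY0 : Y0 ⊆ Z := by exact_mod_cast h0.sub
  have hY1 : Y1 ⊆ Z := by exact_mod_cast h1.sub
  have hgY : ∀ y ∈ Y0, g y ∈ Y1 := fun y hy => hgi ▸ Finset.mem_image_of_mem g hy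
  have injE : ∀ a ∈ Z, ∀ b ∈ Z, e a = e b → a = b := fun a ha b hb h => he.inj ha hb h
  have injE' : ∀ a ∈ Z, ∀ b ∈ Z, e' a = e' b → a = b := fun a ha b hb h => he'.inj ha hb h
  have injG : ∀ a ∈ Y0, ∀ b ∈ Y0, g a = g b → a = b := fun a ha b hb h => hg.inj ha hb h
  -- common points
  have common : ∀ a ∈ Z, ∀ b ∈ Z, e a = e' b → a ∈ Y0 ∩ Y1 ∧ b = a := by
    intro a ha b hb hab
    have h2 : e a ∈ Z.image e ∩ Z.image e' := Finset.mem_inter.2
      ⟨Finset.mem_image_of_mem e ha, hab ▸ Finset.mem_image_of_mem e' hb⟩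
    rw [hcap] at h2
    obtain ⟨c, hc, hca⟩ := Finset.mem_image.1 h2
    have hcZ : c ∈ Z := hY0 (Finset.mem_inter.1 hc).1
    have h3 : c = a := injE c hcZ a ha hca
    subst h3
    refine ⟨hc, ?_⟩
    apply injE' b hb c ha
    rw [hC c hc, hab]
  -- the map
  have hex : ∃ σ : V → V, ∀ y ∈ Y0, σ (e y) = e' (g y) ∧ σ (e' (g y)) = e y := by
    refine ⟨fun x => if h : ∃ y ∈ Y0, e y = x then e' (g h.choose)
      else if h' : ∃ y ∈ Y0, e' (g y) = x then e h'.choose else x, ?_⟩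
    intro y hy
    constructor
    · have h : ∃ z ∈ Y0, e z = e y := ⟨y, hy, rfl⟩
      simp only [dif_pos h]
      have h2 := h.choose_spec
      have h3 : h.choose = y := injE _ (hY0 h2.1) _ (hY0 hy) h2.2
      rw [h3]
    · by_cases h : ∃ z ∈ Y0, e z = e' (g y)
      · simp only [dif_pos h]
        have h2 := h.choose_spec
        obtain ⟨h3, h4⟩ := common _ (hY0 h2.1) _ (hY1 (hgY y hy)) h2.2
        have h5 := hgC _ h3
        have h6 : y = h.choose := injG y hy _ h2.1 (h4.trans h5.symm)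
        exact (congrArg e' h5).trans ((hC _ h3).trans (congrArg e h6.symm))
      · have h' : ∃ z ∈ Y0, e' (g z) = e' (g y) := ⟨y, hy, rfl⟩
        simp only [dif_neg h, dif_pos h']
        have h2 := h'.choose_spec
        have h3 : h'.choose = y := injG _ h2.1 _ hy
          (injE' _ (hY1 (hgY _ h2.1)) _ (hY1 (hgY y hy)) h2.2)
        rw [h3]
  obtain ⟨σ, hσ⟩ := hex
  have hCl : Cl r.G (Y0 ∩ Y1) (Z : Set V) := h0.inter h1
  have hA : Cl Q.G (Y0.image e) ((Z.image e : Finset V) : Set V) := he.cl h0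
  have hB : Cl Q.G (Y1.image e') ((Z.image e' : Finset V) : Set V) := he'.cl h1
  have hCA : Z.image e ∩ Z.image e' ⊆ Y0.image e := by
    rw [hcap]
    exact Finset.image_subset_image Finset.inter_subset_left
  have hCB : Z.image e ∩ Z.image e' ⊆ Y1.image e' := by
    rw [hcap]
    intro x hx
    obtain ⟨c, hc, rfl⟩ := Finset.mem_image.1 hx
    rw [← hC c hc]
    exact Finset.mem_image_of_mem e' (Finset.mem_inter.1 hc).2
  have formA : ∀ x ∈ Y0.image e, ∃ y ∈ Y0, x = e y ∧ σ x = e' (g y) := by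
    intro x hx
    obtain ⟨y, hy, rfl⟩ := Finset.mem_image.1 hx
    exact ⟨y, hy, rfl, (hσ y hy).1⟩
  have formB : ∀ x ∈ Y1.image e', ∃ y ∈ Y0, x = e' (g y) ∧ σ x = e y := by
    intro x hx
    obtain ⟨z, hz, rfl⟩ := Finset.mem_image.1 hx
    rw [← hgi] at hz
    obtain ⟨y, hy, rfl⟩ := Finset.mem_image.1 hz
    exact ⟨y, hy, rfl, (hσ y hy).2⟩
  have hσA : ∀ x ∈ Y0.image e, σ x ∈ Y1.image e' := by
    intro x hx
    obtain ⟨y, hy, _, h2⟩ := formA x hx
    rw [h2]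
    exact Finset.mem_image_of_mem e' (hgY y hy)
  have hσB : ∀ x ∈ Y1.image e', σ x ∈ Y0.image e := by
    intro x hx
    obtain ⟨y, hy, _, h2⟩ := formB x hx
    rw [h2]
    exact Finset.mem_image_of_mem e hy
  have hσC : ∀ x ∈ Z.image e ∩ Z.image e', σ x = x := by
    intro x hx
    rw [hcap] at hx
    obtain ⟨c, hc, rfl⟩ := Finset.mem_image.1 hx
    rw [(hσ c (Finset.mem_inter.1 hc).1).1, hgC c hc, hC c hc]
  have hσσ : ∀ x ∈ Y0.image e ∪ Y1.image e', σ (σ x) = x := by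
    intro x hx
    rcases Finset.mem_union.1 hx with h | h
    · obtain ⟨y, hy, h2, h3⟩ := formA x h
      rw [h3, (hσ y hy).2, h2]
    · obtain ⟨y, hy, h2, h3⟩ := formB x h
      rw [h3, (hσ y hy).1, h2]
  have hY0' : ∀ y ∈ Y0, y ∈ Z := fun y hy => hY0 hy
  have hgZ : ∀ y ∈ Y0, g y ∈ Z := fun y hy => hY1 (hgY y hy)
  have hrA : RefOn Q Q ((Y0.image e : Finset V) : Set V) σ := by
    refine ⟨?_, ?_, ?_, ?_, ?_⟩
    · intro x hx y hy hxy
      rw [← hσσ x (Finset.mem_union_left _ (by exact_mod_cast hx)),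
        ← hσσ y (Finset.mem_union_left _ (by exact_mod_cast hy)), hxy]
    · intro x hx
      obtain ⟨a, ha, rfl, h2⟩ := formA x (by exact_mod_cast hx)
      rw [h2, he'.P _ (hgZ a ha), hg.P a ha, he.P a (hY0 ha)]
    · intro x hx y hy
      obtain ⟨a, ha, rfl, h2⟩ := formA x (by exact_mod_cast hx)
      obtain ⟨b, hb, rfl, h3⟩ := formA y (by exact_mod_cast hy)
      rw [h2, h3, he'.G _ (hgZ a ha) _ (hgZ b hb), hg.G a ha b hb, he.G a (hY0 ha) b (hY0 hb)]
    · intro x hx y hy z hz w hw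
      obtain ⟨a, ha, rfl, h2⟩ := formA x (by exact_mod_cast hx)
      obtain ⟨b, hb, rfl, h3⟩ := formA y (by exact_mod_cast hy)
      obtain ⟨c, hc, rfl, h4⟩ := formA z (by exact_mod_cast hz)
      obtain ⟨d, hd, rfl, h5⟩ := formA w (by exact_mod_cast hw)
      rw [h2, h3, h4, h5, he'.R _ (hgZ a ha) _ (hgZ b hb) _ (hgZ c hc) _ (hgZ d hd),
        hg.R a ha b hb c hc d hd, he.R a (hY0 ha) b (hY0 hb) c (hY0 hc) d (hY0 hd)]
    · intro x hx y hy z hz
      obtain ⟨a, ha, rfl, h2⟩ := formA x (by exact_mod_cast hx)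
      obtain ⟨b, hb, rfl, h3⟩ := formA y (by exact_mod_cast hy)
      obtain ⟨c, hc, rfl, h4⟩ := formA z (by exact_mod_cast hz)
      rw [h2, h3, h4, he'.O _ (hgZ a ha) _ (hgZ b hb) _ (hgZ c hc),
        hg.O a ha b hb c hc, he.O a (hY0 ha) b (hY0 hb) c (hY0 hc)]
  have hrB : RefOn Q Q ((Y1.image e' : Finset V) : Set V) σ := by
    refine ⟨?_, ?_, ?_, ?_, ?_⟩
    · intro x hx y hy hxy
      rw [← hσσ x (Finset.mem_union_right _ (by exact_mod_cast hx)),
        ← hσσ y (Finset.mem_union_right _ (by exact_mod_cast hy)), hxy]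
    · intro x hx
      obtain ⟨a, ha, rfl, h2⟩ := formB x (by exact_mod_cast hx)
      rw [h2, he'.P _ (hgZ a ha), hg.P a ha, he.P a (hY0 ha)]
    · intro x hx y hy
      obtain ⟨a, ha, rfl, h2⟩ := formB x (by exact_mod_cast hx)
      obtain ⟨b, hb, rfl, h3⟩ := formB y (by exact_mod_cast hy)
      rw [h2, h3, he'.G _ (hgZ a ha) _ (hgZ b hb), hg.G a ha b hb, he.G a (hY0 ha) b (hY0 hb)]
    · intro x hx y hy z hz w hw
      obtain ⟨a, ha, rfl, h2⟩ := formB x (by exact_mod_cast hx)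
      obtain ⟨b, hb, rfl, h3⟩ := formB y (by exact_mod_cast hy)
      obtain ⟨c, hc, rfl, h4⟩ := formB z (by exact_mod_cast hz)
      obtain ⟨d, hd, rfl, h5⟩ := formB w (by exact_mod_cast hw)
      rw [h2, h3, h4, h5, he'.R _ (hgZ a ha) _ (hgZ b hb) _ (hgZ c hc) _ (hgZ d hd),
        hg.R a ha b hb c hc d hd, he.R a (hY0 ha) b (hY0 hb) c (hY0 hc) d (hY0 hd)]
    · intro x hx y hy z hz
      obtain ⟨a, ha, rfl, h2⟩ := formB x (by exact_mod_cast hx)
      obtain ⟨b, hb, rfl, h3⟩ := formB y (by exact_mod_cast hy)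
      obtain ⟨c, hc, rfl, h4⟩ := formB z (by exact_mod_cast hz)
      rw [h2, h3, h4, he'.O _ (hgZ a ha) _ (hgZ b hb) _ (hgZ c hc),
        hg.O a ha b hb c hc, he.O a (hY0 ha) b (hY0 hb) c (hY0 hc)]
  obtain ⟨o, o1, o2, o3, o4, o5, o6⟩ := Swap.core Q D (Z.image e) (Z.image e') (Y0.image e)
    (Y1.image e') hD hfree hcl hA hB hCA hCB σ hσA hσB hσC hσσ hrA hrB
  refine ⟨o, σ, o1, ?_, ?_, ?_, o5, o6, hσ⟩
  · intro x hx n1 n2
    refine o2 x hx ?_ ?_
    · intro h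
      obtain ⟨h2, h3⟩ := Finset.mem_sdiff.1 h
      obtain ⟨y, hy, rfl⟩ := Finset.mem_image.1 h2
      apply n1
      apply Finset.mem_image_of_mem
      refine Finset.mem_sdiff.2 ⟨hy, fun h4 => h3 ?_⟩
      rw [hcap]
      exact Finset.mem_image_of_mem e (Finset.mem_inter.2 ⟨hy, h4⟩)
    · intro h
      obtain ⟨h2, h3⟩ := Finset.mem_sdiff.1 h
      obtain ⟨y, hy, rfl⟩ := Finset.mem_image.1 h2
      apply n2
      apply Finset.mem_image_of_mem
      refine Finset.mem_sdiff.2 ⟨hy, fun h4 => h3 ?_⟩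
      rw [hcap, hC y (Finset.mem_inter.2 ⟨h4, hy⟩)]
      exact Finset.mem_image_of_mem e (Finset.mem_inter.2 ⟨h4, hy⟩)
  · refine ⟨he.inj, he.P, he.G, he.R, ?_⟩
    intro x hx v hv w hw
    have hx' : x ∈ Z := by exact_mod_cast hx
    have hv' : v ∈ Z := by exact_mod_cast hv
    have hw' : w ∈ Z := by exact_mod_cast hw
    rw [← he.O x hx v hv w hw]
    exact o3 _ (Finset.mem_image_of_mem e hx') _ (Finset.mem_image_of_mem e hv') _
      (Finset.mem_image_of_mem e hw')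
  · refine ⟨he'.inj, he'.P, he'.G, he'.R, ?_⟩
    intro x hx v hv w hw
    have hx' : x ∈ Z := by exact_mod_cast hx
    have hv' : v ∈ Z := by exact_mod_cast hv
    have hw' : w ∈ Z := by exact_mod_cast hw
    rw [← he'.O x hx v hv w hw]
    exact o4 _ (Finset.mem_image_of_mem e' hx') _ (Finset.mem_image_of_mem e' hv') _
      (Finset.mem_image_of_mem e' hw')


theorem exists_swap'' {V : Type} [inst : DecidableEq V] (r : Rels V) (Z Y0 Y1 : Finset V) (hZ : Ax r (Z : Set V))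
    (h0 : Cl r.G Y0 (Z : Set V)) (h1 : Cl r.G Y1 (Z : Set V)) (g : V → V)
    (hg : RefOn r r (Y0 : Set V) g) (hgi : Y0.image g = Y1) (hgC : ∀ x ∈ Y0 ∩ Y1, g x = x)
    (Q : Rels V) (D : Finset V) (hD : Ax Q (D : Set V)) (e e' : V → V)
    (he : RefOn r Q (Z : Set V) e) (he' : RefOn r Q (Z : Set V) e')
    (hC : ∀ x ∈ Y0 ∩ Y1, e' x = e x)
    (hcap : Z.image e ∩ Z.image e' = (Y0 ∩ Y1).image e)
    (hfree : FreeR Q (Z.image e) (Z.image e'))
    (hcl : Cl Q.G (Z.image e ∪ Z.image e') (D : Set V)) :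
    ∃ (o : V → V → V → Prop) (σ : V → V), Ax (Q.setO o) (D : Set V) ∧
      (∀ x ∈ D, x ∉ (Y0 \ Y1).image e → x ∉ (Y1 \ Y0).image e' →
        ∀ v ∈ D, ∀ w ∈ D, (o x v w ↔ Q.O x v w)) ∧
      RefOn r (Q.setO o) (Z : Set V) e ∧ RefOn r (Q.setO o) (Z : Set V) e' ∧
      Cl Q.G (Y0.image e ∪ Y1.image e') (D : Set V) ∧
      RefOn (Q.setO o) (Q.setO o) ((Y0.image e ∪ Y1.image e' : Finset V) : Set V) σ ∧
      (∀ y ∈ Y0, σ (e y) = e' (g y) ∧ σ (e' (g y)) = e y) := by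
  obtain rfl : inst = fun a b => Classical.propDecidable (a = b) := Subsingleton.elim _ _
  exact exists_swap' r Z Y0 Y1 hZ h0 h1 g hg hgi hgC Q D hD e e' he he' hC hcap hfree hcl

end Swap

theorem exists_swap (r : Rels ℕ) (Z Y0 Y1 : Finset ℕ) (hZ : Ax r (Z : Set ℕ))
    (h0 : Cl r.G Y0 (Z : Set ℕ)) (h1 : Cl r.G Y1 (Z : Set ℕ)) (g : ℕ → ℕ)
    (hg : RefOn r r (Y0 : Set ℕ) g) (hgi : Y0.image g = Y1) (hgC : ∀ x ∈ Y0 ∩ Y1, g x = x)
    (Q : Rels ℕ) (D : Finset ℕ) (hD : Ax Q (D : Set ℕ)) (e e' : ℕ → ℕ)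
    (he : RefOn r Q (Z : Set ℕ) e) (he' : RefOn r Q (Z : Set ℕ) e')
    (hC : ∀ x ∈ Y0 ∩ Y1, e' x = e x)
    (hcap : Z.image e ∩ Z.image e' = (Y0 ∩ Y1).image e)
    (hfree : FreeR Q (Z.image e) (Z.image e'))
    (hcl : Cl Q.G (Z.image e ∪ Z.image e') (D : Set ℕ)) :
    ∃ (o : ℕ → ℕ → ℕ → Prop) (σ : ℕ → ℕ), Ax (Q.setO o) (D : Set ℕ) ∧
      (∀ x ∈ D, x ∉ (Y0 \ Y1).image e → x ∉ (Y1 \ Y0).image e' →
        ∀ v ∈ D, ∀ w ∈ D, (o x v w ↔ Q.O x v w)) ∧
      RefOn r (Q.setO o) (Z : Set ℕ) e ∧ RefOn r (Q.setO o) (Z : Set ℕ) e' ∧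
      Cl Q.G (Y0.image e ∪ Y1.image e') (D : Set ℕ) ∧
      RefOn (Q.setO o) (Q.setO o) ((Y0.image e ∪ Y1.image e' : Finset ℕ) : Set ℕ) σ ∧
      (∀ y ∈ Y0, σ (e y) = e' (g y) ∧ σ (e' (g y)) = e y) :=
  Swap.exists_swap'' r Z Y0 Y1 hZ h0 h1 g hg hgi hgC Q D hD e e' he he' hC hcap hfree hcl

end H968E
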