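import Pool.Agent.helper968_exist.Code
import Pool.Agent.helper968_exist.Chain
import Pool.Agent.helper968_exist.Swap

/-!
No infinite chains of an invariant strict partial order.
-/

namespace H968E

open Classical Finset

theorem no_chain {r : Rels ℕ} (hax : Ax r Set.univ) (hEP : EP r) {l : ℕ}
    (S : (Fin l → ℕ) → (Fin l → ℕ) → Prop)
    (hinv : ∀ (A : Finset ℕ) (f : ℕ → ℕ), Cl r.G A Set.univ → Cl r.G (A.image f) Set.univ →
      RefOn r r (A : Set ℕ) f → ∀ y y' : Fin l → ℕ, (∀ i, y i ∈ A) → (∀ i, y' i ∈ A) → S y y' →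
        S (f ∘ y) (f ∘ y'))
    (htr : ∀ x y z, S x y → S y z → S x z) (hirr : ∀ x, ¬ S x x) :
    ¬ ∃ b : ℕ → Fin l → ℕ, ∀ i j, i < j → S (b i) (b j) := by
  rintro ⟨b, hb⟩
  choose c idx hc hidx using fun i : ℕ => exists_cl_enum hax (b i)
  haveI := finite_codeT (Fin (2 ^ (2 * (l + 1))) ⊕ Fin (2 ^ (2 * (l + 1))))
  obtain ⟨i, j, k, hij, hjk, e1, e2⟩ := exists_triple
    (fun i j => (code r (Sum.elim (c i) (c j)), idx i, idx j))
  simp only [Prod.mk.injEq] at e1 e2
  have hidij : idx i = idx j := e2.2.1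
  obtain ⟨g, hg, hgc⟩ := of_code e2.1
  have hgi : ∀ u, g (c i u) = c j u := fun u => hgc (Sum.inl u)
  have hgk : ∀ u, g (c k u) = c k u := fun u => hgc (Sum.inr u)
  have heq : ∀ u v, c i u = c j v → c i u = c k v := by
    intro u v huv
    have h1 := e1.1
    simp only [code, Prod.mk.injEq] at h1
    have h2 := congrFun (congrFun h1.1 (Sum.inl u)) (Sum.inr v)
    simp only [Sum.elim_inl, Sum.elim_inr] at h2
    exact (Iff.of_eq h2).1 huv
  set Y0 : Finset ℕ := Finset.univ.image (c i) with hY0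
  set Y1 : Finset ℕ := Finset.univ.image (c j) with hY1
  have hgY : RefOn r r (Y0 : Set ℕ) g := hg.mono (by
    intro x hx
    rw [hY0] at hx
    simp only [Finset.coe_image, Finset.coe_univ, Set.image_univ, Set.mem_range] at hx
    obtain ⟨u, rfl⟩ := hx
    exact ⟨Sum.inl u, rfl⟩)
  have hgim : Y0.image g = Y1 := by
    rw [hY0, hY1, Finset.image_image]
    congr 1
    exact funext hgi
  have hgC : ∀ x ∈ Y0 ∩ Y1, g x = x := by
    intro x hx
    obtain ⟨h1, h2⟩ := Finset.mem_inter.1 hx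
    obtain ⟨u, -, rfl⟩ := Finset.mem_image.1 h1
    obtain ⟨v, -, hv⟩ := Finset.mem_image.1 h2
    rw [heq u v hv.symm]
    exact hgk v
  have hbi : ∀ t, b i t ∈ Y0 := fun t => by
    rw [hidx]
    exact Finset.mem_image_of_mem _ (Finset.mem_univ _)
  have hbj : ∀ t, b j t ∈ Y1 := fun t => by
    rw [hidx]
    exact Finset.mem_image_of_mem _ (Finset.mem_univ _)
  have hgb : ∀ t, g (b i t) = b j t := by
    intro t
    rw [hidx i, hidx j, hgi, hidij]
  have hne : ¬ Y0 ⊆ Y1 := by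
    intro hsub
    have : b i = b j := by
      funext t
      rw [← hgb t, hgC _ (Finset.mem_inter.2 ⟨hbi t, hsub (hbi t)⟩)]
    exact hirr (b i) (by
      have h1 := hb i j hij
      rw [← this] at h1
      exact h1)
  obtain ⟨Z, hZ1, hZ2, -⟩ := hax.gr.exists_closed (X := Y0 ∪ Y1) (Set.subset_univ _)
  have hY0Z : Y0 ⊆ Z := Finset.subset_union_left.trans hZ1
  have hY1Z : Y1 ⊆ Z := Finset.subset_union_right.trans hZ1
  have hci : Cl r.G Y0 Set.univ := by rw [hY0, ← img_eq]; exact hc i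
  have hcj : Cl r.G Y1 Set.univ := by rw [hY1, ← img_eq]; exact hc j
  have hcY0 : Cl r.G Y0 (Z : Set ℕ) := hci.mono (by exact_mod_cast hY0Z) (Set.subset_univ _)
  have hcY1 : Cl r.G Y1 (Z : Set ℕ) := hcj.mono (by exact_mod_cast hY1Z) (Set.subset_univ _)
  have hZax : Ax r (Z : Set ℕ) := hax.mono (Set.subset_univ _)
  obtain ⟨n, Q, D, e, hn, hQ, he, hstep, h0t, hnt, hcap, hfree, hcl⟩ :=
    exists_chain r Z Y0 Y1 hZax hcY0 hcY1 g hgY hgim hgC hne
  have heC : ∀ t < n, ∀ x ∈ Y0 ∩ Y1, e t x = e 0 x := by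
    intro t
    induction t with
    | zero => intro _ x _; rfl
    | succ t ih =>
      intro ht x hx
      rw [hstep t ht x (Finset.mem_inter.1 hx).1, hgC x hx]
      exact ih (by omega) x hx
  obtain ⟨o, σ, hQ', ho, he0, hen, hWcl, hσ, hσ2⟩ := exists_swap r Z Y0 Y1 hZax hcY0 hcY1 g hgY
    hgim hgC Q D hQ (e 0) (e (n - 1)) (he 0 (by omega)).1 (he (n - 1) (by omega)).1
    (heC (n - 1) (by omega)) hcap hfree hcl
  set Q' : Rels ℕ := Q.setO o with hQ'def
  -- all copies are copies in the new structure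
  have het : ∀ t < n, RefOn r Q' (Z : Set ℕ) (e t) := by
    intro t ht
    by_cases h1 : t = 0
    · rw [h1]; exact he0
    by_cases h2 : t = n - 1
    · rw [h2]; exact hen
    have hr := (he t ht).1
    have hsub : ∀ x ∈ Z, e t x ∈ D := by
      intro x hx
      exact (he t ht).2.sub (by exact_mod_cast Finset.mem_image_of_mem _ hx)
    refine ⟨hr.inj, hr.P, hr.G, hr.R, ?_⟩
    intro x hx v hv w hw
    rw [← hr.O x hx v hv w hw]
    refine ho _ (hsub x hx) ?_ ?_ _ (hsub v hv) _ (hsub w hw)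
    · intro h3
      obtain ⟨y, hy, hyx⟩ := Finset.mem_image.1 h3
      have h4 : e t x ∈ Y0.image (e 0) ∩ Z.image (e t) := by
        refine Finset.mem_inter.2 ⟨?_, Finset.mem_image_of_mem _ hx⟩
        rw [← hyx]
        exact Finset.mem_image_of_mem _ (Finset.mem_sdiff.1 hy).1
      obtain ⟨z, hz, hzx⟩ := Finset.mem_image.1 (h0t t ht (by omega) h4)
      have h5 : y = z := (he 0 (by omega)).1.inj (hY0Z (Finset.mem_sdiff.1 hy).1)
        (hY0Z (Finset.mem_inter.1 hz).1) (hyx.trans hzx.symm)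
      subst h5
      exact (Finset.mem_sdiff.1 hy).2 (Finset.mem_inter.1 hz).2
    · intro h3
      obtain ⟨y, hy, hyx⟩ := Finset.mem_image.1 h3
      have h4 : e t x ∈ Y1.image (e (n - 1)) ∩ Z.image (e t) := by
        refine Finset.mem_inter.2 ⟨?_, Finset.mem_image_of_mem _ hx⟩
        rw [← hyx]
        exact Finset.mem_image_of_mem _ (Finset.mem_sdiff.1 hy).1
      obtain ⟨z, hz, hzx⟩ := Finset.mem_image.1 (hnt t (by omega) h4)
      have h5 : y = z := (he (n - 1) (by omega)).1.inj (hY1Z (Finset.mem_sdiff.1 hy).1)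
        (hY0Z (Finset.mem_inter.1 hz).1) (by rw [heC (n - 1) (by omega) z hz]; exact hyx.trans hzx.symm)
      subst h5
      exact (Finset.mem_sdiff.1 hy).2 (Finset.mem_inter.1 hz).1
  obtain ⟨h, hh, -, hhc⟩ := hEP ℕ Q' ∅ D id hQ' hQ'.gr.cl_empty
    ⟨by simp, by simp, by simp, by simp, by simp⟩ (by simpa using hax.gr.cl_empty)
  -- closed images
  have himcl : ∀ X : Finset ℕ, Cl Q.G X (D : Set ℕ) → Cl r.G (X.image h) Set.univ :=
    fun X hX => by
      rw [← img_eq]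
      exact (hh.cl hX).trans hhc
  have hchain : ∀ t < n, S (h ∘ e t ∘ b i) (h ∘ e t ∘ b j) := by
    intro t ht
    have h1 : RefOn r r (Z : Set ℕ) (h ∘ e t) := by
      refine (het t ht).comp (hh.mono ?_)
      rintro _ ⟨x, hx, rfl⟩
      exact (he t ht).2.sub (by exact_mod_cast Finset.mem_image_of_mem _ hx)
    have h2 : Cl r.G (Z.image (h ∘ e t)) Set.univ := by
      rw [← Finset.image_image]
      exact himcl _ (he t ht).2
    exact hinv Z (h ∘ e t) hZ2 h2 h1 (b i) (b j) (fun t => hY0Z (hbi t)) (fun t => hY1Z (hbj t))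
      (hb i j hij)
  have hlink : ∀ t, t + 1 < n → h ∘ e (t + 1) ∘ b i = h ∘ e t ∘ b j := by
    intro t ht
    funext s
    simp only [Function.comp_apply]
    rw [hstep t ht _ (hbi s), hgb]
  have hfar : ∀ t < n, S (h ∘ e 0 ∘ b i) (h ∘ e t ∘ b j) := by
    intro t
    induction t with
    | zero => intro ht; exact hchain 0 ht
    | succ t ih =>
      intro ht
      refine htr _ _ _ (ih (by omega)) ?_
      rw [← hlink t ht]
      exact hchain (t + 1) ht
  have hS1 := hfar (n - 1) (by omega)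
  -- the swap
  set W : Finset ℕ := Y0.image (e 0) ∪ Y1.image (e (n - 1)) with hW
  have hWD : W ⊆ D := by exact_mod_cast hWcl.sub
  have hσW : W.image σ = W := by
    ext x
    simp only [hW, Finset.mem_image, Finset.mem_union]
    constructor
    · rintro ⟨y, (⟨z, hz, rfl⟩ | ⟨z, hz, rfl⟩), rfl⟩
      · right
        refine ⟨g z, ?_, ((hσ2 z hz).1).symm⟩
        rw [← hgim]
        exact Finset.mem_image_of_mem _ hz
      · left
        rw [← hgim] at hz
        obtain ⟨y, hy, rfl⟩ := Finset.mem_image.1 hz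
        exact ⟨y, hy, ((hσ2 y hy).2).symm⟩
    · rintro (⟨z, hz, rfl⟩ | ⟨z, hz, rfl⟩)
      · refine ⟨e (n - 1) (g z), Or.inr ⟨g z, ?_, rfl⟩, (hσ2 z hz).2⟩
        rw [← hgim]
        exact Finset.mem_image_of_mem _ hz
      · rw [← hgim] at hz
        obtain ⟨y, hy, rfl⟩ := Finset.mem_image.1 hz
        exact ⟨e 0 y, Or.inl ⟨y, hy, rfl⟩, (hσ2 y hy).1⟩
  have hhW : RefOn Q' r (W : Set ℕ) h := hh.mono (by exact_mod_cast hWD)
  obtain ⟨h', hh'⟩ : ∃ h' : ℕ → ℕ, ∀ x ∈ (W : Set ℕ), h' (h x) = x :=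
    ⟨Function.invFunOn h W, fun x hx => hhW.inj.leftInvOn_invFunOn hx⟩
  have hinvW := hhW.of_inv hh'
  have himW : h' '' (h '' (W : Set ℕ)) = (W : Set ℕ) := by
    ext x
    constructor
    · rintro ⟨_, ⟨y, hy, rfl⟩, rfl⟩
      rw [hh' y hy]
      exact hy
    · intro hx
      exact ⟨h x, ⟨x, hx, rfl⟩, hh' x hx⟩
  have hσh : RefOn Q' r (W : Set ℕ) (h ∘ σ) := by
    refine hσ.comp ?_
    have : σ '' (W : Set ℕ) = (W : Set ℕ) := by
      rw [← Finset.coe_image, hσW]
    rw [this]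
    exact hhW
  have hf : RefOn r r ((W.image h : Finset ℕ) : Set ℕ) ((h ∘ σ) ∘ h') := by
    rw [Finset.coe_image]
    refine hinvW.comp ?_
    rw [himW]
    exact hσh
  have hfim : (W.image h).image ((h ∘ σ) ∘ h') = W.image h := by
    ext x
    simp only [Finset.mem_image, Function.comp_apply]
    constructor
    · rintro ⟨_, ⟨y, hy, rfl⟩, rfl⟩
      rw [hh' y hy]
      refine ⟨σ y, ?_, rfl⟩
      rw [← hσW]
      exact Finset.mem_image_of_mem _ hy
    · rintro ⟨y, hy, rfl⟩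
      rw [← hσW] at hy
      obtain ⟨z, hz, rfl⟩ := Finset.mem_image.1 hy
      exact ⟨h z, ⟨z, hz, rfl⟩, by rw [hh' z hz]⟩
  have hmem1 : ∀ s, e 0 (b i s) ∈ W := fun s =>
    Finset.mem_union_left _ (Finset.mem_image_of_mem _ (hbi s))
  have hmem2 : ∀ s, e (n - 1) (b j s) ∈ W := fun s =>
    Finset.mem_union_right _ (Finset.mem_image_of_mem _ (hbj s))
  have hS2 := hinv (W.image h) ((h ∘ σ) ∘ h') (himcl _ hWcl) (by rw [hfim]; exact himcl _ hWcl) hf
    (h ∘ e 0 ∘ b i) (h ∘ e (n - 1) ∘ b j)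
    (fun s => Finset.mem_image_of_mem _ (hmem1 s)) (fun s => Finset.mem_image_of_mem _ (hmem2 s))
    hS1
  have e3 : ((h ∘ σ) ∘ h') ∘ (h ∘ e 0 ∘ b i) = h ∘ e (n - 1) ∘ b j := by
    funext s
    simp only [Function.comp_apply]
    rw [hh' _ (hmem1 s), (hσ2 _ (hbi s)).1, hgb]
  have e4 : ((h ∘ σ) ∘ h') ∘ (h ∘ e (n - 1) ∘ b j) = h ∘ e 0 ∘ b i := by
    funext s
    simp only [Function.comp_apply]
    rw [hh' _ (hmem2 s), ← hgb, (hσ2 _ (hbi s)).2]
  rw [e3, e4] at hS2
  exact hirr _ (htr _ _ _ hS1 hS2)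

end H968E
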