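import Pool.Agent.helper968_exist.Sparse

/-!
Sparse graphs with a relation `R` on the stars and points acting by orientations.
-/

namespace H968E

open Classical Finset

/-- A graph `G`, a predicate `P`, a relation `R v a b c` and a relation `O x v w`
(`x` orients the edge `vw` from `v` to `w`). -/
structure Rels (V : Type) where
  G : SimpleGraph V
  P : V → Prop
  R : V → V → V → V → Prop
  O : V → V → V → Prop

variable {V : Type}

/-- `o` is a proper orientation on `S`: it orients each edge, and no vertex has three outgoing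
edges related by `R`. -/
structure Act (r : Rels V) (o : V → V → Prop) (S : Set V) : Prop where
  adj : ∀ v ∈ S, ∀ w ∈ S, o v w → r.G.Adj v w
  cov : ∀ v ∈ S, ∀ w ∈ S, r.G.Adj v w → o v w ∨ o w v
  rf : ∀ v ∈ S, ∀ a ∈ S, ∀ b ∈ S, ∀ c ∈ S, r.R v a b c → o v a → o v b → ¬ o v c

/-- The axioms not mentioning `O`. -/
structure Ax0 (r : Rels V) (S : Set V) : Prop where
  gr : Gr r.G S
  GP : ∀ u ∈ S, ∀ v ∈ S, r.G.Adj u v → ¬ r.P u
  RG : ∀ v ∈ S, ∀ a ∈ S, ∀ b ∈ S, ∀ c ∈ S, r.R v a b c →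
    r.G.Adj v a ∧ r.G.Adj v b ∧ r.G.Adj v c ∧ a ≠ b ∧ a ≠ c ∧ b ≠ c

/-- The axioms. -/
structure Ax (r : Rels V) (S : Set V) : Prop extends Ax0 r S where
  OP : ∀ x ∈ S, ∀ v ∈ S, ∀ w ∈ S, r.O x v w → r.P x
  act : ∀ x ∈ S, r.P x → Act r (r.O x) S

theorem Act.mono {r : Rels V} {o : V → V → Prop} {S T : Set V} (h : Act r o T) (hS : S ⊆ T) :
    Act r o S where
  adj v hv w hw := h.adj v (hS hv) w (hS hw)
  cov v hv w hw := h.cov v (hS hv) w (hS hw)
  rf v hv a ha b hb c hc := h.rf v (hS hv) a (hS ha) b (hS hb) c (hS hc)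

theorem Act.congr {r : Rels V} {o o' : V → V → Prop} {S : Set V} (h : Act r o S)
    (ho : ∀ v ∈ S, ∀ w ∈ S, (o' v w ↔ o v w)) : Act r o' S where
  adj v hv w hw h1 := h.adj v hv w hw ((ho v hv w hw).1 h1)
  cov v hv w hw h1 := by
    rw [ho v hv w hw, ho w hw v hv]
    exact h.cov v hv w hw h1
  rf v hv a ha b hb c hc h0 h1 h2 h3 := h.rf v hv a ha b hb c hc h0 ((ho v hv a ha).1 h1)
    ((ho v hv b hb).1 h2) ((ho v hv c hc).1 h3)

theorem Ax0.mono {r : Rels V} {S T : Set V} (h : Ax0 r T) (hS : S ⊆ T) : Ax0 r S where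
  gr := h.gr.mono hS
  GP u hu v hv := h.GP u (hS hu) v (hS hv)
  RG v hv a ha b hb c hc := h.RG v (hS hv) a (hS ha) b (hS hb) c (hS hc)

theorem Ax.mono {r : Rels V} {S T : Set V} (h : Ax r T) (hS : S ⊆ T) : Ax r S where
  toAx0 := h.toAx0.mono hS
  OP x hx v hv w hw := h.OP x (hS hx) v (hS hv) w (hS hw)
  act x hx hp := (h.act x (hS hx) hp).mono hS

/-- A proper orientation of a closed subset extends. -/
theorem Act.extend {r : Rels V} {o : V → V → Prop} {A B : Finset V} (hB : Ax0 r (B : Set V))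
    (hc : Cl r.G A (B : Set V)) (h : Act r o (A : Set V)) :
    ∃ o' : V → V → Prop, Act r o' (B : Set V) ∧ ∀ v ∈ A, ∀ w ∈ A, (o' v w ↔ o v w) := by
  obtain ⟨f, hf1, hf2⟩ := hc.exists_assign
  have hmem : ∀ v w (S : Finset V), s(v, w) ∈ es r.G S ↔ (v ∈ S ∧ w ∈ S) ∧ r.G.Adj v w := by
    intro v w S
    rw [mem_es]
    simp
  have hAB : A ⊆ B := by exact_mod_cast hc.sub
  refine ⟨fun v w => (v ∈ A ∧ w ∈ A ∧ o v w) ∨
    (s(v, w) ∈ es r.G B ∧ s(v, w) ∉ es r.G A ∧ f s(v, w) = v), ⟨?_, ?_, ?_⟩, ?_⟩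
  · rintro v hv w hw (⟨a, b, c⟩ | ⟨a, _, _⟩)
    · exact h.adj v a w b c
    · exact ((hmem _ _ _).1 a).2
  · intro v hv w hw hvw
    have h1 : s(v, w) ∈ es r.G B := (hmem _ _ _).2 ⟨⟨hv, hw⟩, hvw⟩
    by_cases h2 : s(v, w) ∈ es r.G A
    · have h3 := (hmem _ _ _).1 h2
      rcases h.cov v h3.1.1 w h3.1.2 hvw with h4 | h4
      · exact Or.inl (Or.inl ⟨h3.1.1, h3.1.2, h4⟩)
      · exact Or.inr (Or.inl ⟨h3.1.2, h3.1.1, h4⟩)
    · have h3 := (hf1 _ h1 h2).1
      rcases Sym2.mem_iff.1 h3 with h4 | h4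
      · exact Or.inl (Or.inr ⟨h1, h2, h4⟩)
      · refine Or.inr (Or.inr ?_)
        rw [Sym2.eq_swap]
        exact ⟨h1, h2, h4⟩
  · intro v hv a ha b hb c hc' hR oa ob oc
    obtain ⟨ea, eb, ec, nab, nac, nbc⟩ := hB.RG v hv a ha b hb c hc' hR
    by_cases hvA : v ∈ A
    · have hold : ∀ a, ((v ∈ A ∧ a ∈ A ∧ o v a) ∨
          (s(v, a) ∈ es r.G B ∧ s(v, a) ∉ es r.G A ∧ f s(v, a) = v)) → a ∈ A ∧ o v a := by
        rintro a (⟨_, h1, h2⟩ | ⟨h1, h2, h3⟩)
        · exact ⟨h1, h2⟩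
        · have := (hf1 _ h1 h2).2.2
          rw [h3] at this
          exact absurd hvA this
      obtain ⟨a1, a2⟩ := hold a oa
      obtain ⟨b1, b2⟩ := hold b ob
      obtain ⟨c1, c2⟩ := hold c oc
      exact h.rf v hvA a a1 b b1 c c1 hR a2 b2 c2
    · have hnew : ∀ a, ((v ∈ A ∧ a ∈ A ∧ o v a) ∨
          (s(v, a) ∈ es r.G B ∧ s(v, a) ∉ es r.G A ∧ f s(v, a) = v)) →
          s(v, a) ∈ (es r.G B \ es r.G A).filter (fun e => f e = v) := by
        rintro a (⟨h1, _⟩ | ⟨h1, h2, h3⟩)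
        · exact absurd h1 hvA
        · exact Finset.mem_filter.2 ⟨Finset.mem_sdiff.2 ⟨h1, h2⟩, h3⟩
      have h3 : ({s(v, a), s(v, b), s(v, c)} : Finset (Sym2 V)) ⊆
          (es r.G B \ es r.G A).filter (fun e => f e = v) := by
        intro e he
        simp only [Finset.mem_insert, Finset.mem_singleton] at he
        rcases he with rfl | rfl | rfl
        · exact hnew a oa
        · exact hnew b ob
        · exact hnew c oc
      have h4 := Finset.card_le_card h3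
      have h5 := hf2 v
      have h6 : ({s(v, a), s(v, b), s(v, c)} : Finset (Sym2 V)).card = 3 := by
        rw [Finset.card_eq_three]
        refine ⟨_, _, _, ?_, ?_, ?_, rfl⟩
        · exact fun h => nab (Sym2.congr_right.1 h)
        · exact fun h => nac (Sym2.congr_right.1 h)
        · exact fun h => nbc (Sym2.congr_right.1 h)
      omega
  · intro v hv w hw
    constructor
    · rintro (⟨_, _, h1⟩ | ⟨h1, h2, _⟩)
      · exact h1
      · exact absurd ((hmem _ _ _).2 ⟨⟨hv, hw⟩, ((hmem _ _ _).1 h1).2⟩) h2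
    · intro h1
      exact Or.inl ⟨hv, hw, h1⟩

/-- The relations on `S ∪ T` not involving `O` are free over `S ∩ T`. -/
structure FreeR (r : Rels V) (S T : Finset V) : Prop where
  G : Free r.G S T
  R : ∀ v ∈ S ∪ T, ∀ a ∈ S ∪ T, ∀ b ∈ S ∪ T, ∀ c ∈ S ∪ T, r.R v a b c →
    (v ∈ S ∧ a ∈ S ∧ b ∈ S ∧ c ∈ S) ∨ (v ∈ T ∧ a ∈ T ∧ b ∈ T ∧ c ∈ T)

theorem FreeR.symm {r : Rels V} {S T : Finset V} (h : FreeR r S T) : FreeR r T S where
  G := h.G.symm
  R v hv a ha b hb c hc h1 := by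
    rw [Finset.union_comm] at hv ha hb hc
    exact (h.R v hv a ha b hb c hc h1).symm

theorem FreeR.ax0 {r : Rels V} {S T : Finset V} (h : FreeR r S T) (hS : Ax0 r (S : Set V))
    (hT : Ax0 r (T : Set V)) (hcS : Cl r.G (S ∩ T) (S : Set V))
    (hcT : Cl r.G (S ∩ T) (T : Set V)) : Ax0 r ((S ∪ T : Finset V) : Set V) where
  gr := h.G.gr hS.gr hT.gr hcS hcT
  GP u hu v hv huv := by
    rcases h.G u hu v hv huv with ⟨a, b⟩ | ⟨a, b⟩
    · exact hS.GP u a v b huv
    · exact hT.GP u a v b huv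
  RG v hv a ha b hb c hc h1 := by
    rcases h.R v hv a ha b hb c hc h1 with ⟨h2, h3, h4, h5⟩ | ⟨h2, h3, h4, h5⟩
    · exact hS.RG v h2 a h3 b h4 c h5 h1
    · exact hT.RG v h2 a h3 b h4 c h5 h1

/-- Proper orientations glue. -/
theorem FreeR.act {r : Rels V} {S T : Finset V} (h : FreeR r S T) {o : V → V → Prop}
    (hS : Act r o (S : Set V)) (hT : Act r o (T : Set V))
    (ho : ∀ v ∈ S ∪ T, ∀ w ∈ S ∪ T, o v w → r.G.Adj v w) :
    Act r o ((S ∪ T : Finset V) : Set V) where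
  adj v hv w hw h1 := ho v hv w hw h1
  cov v hv w hw h1 := by
    rcases h.G v hv w hw h1 with ⟨a, b⟩ | ⟨a, b⟩
    · exact hS.cov v a w b h1
    · exact hT.cov v a w b h1
  rf v hv a ha b hb c hc h1 := by
    rcases h.R v hv a ha b hb c hc h1 with ⟨h2, h3, h4, h5⟩ | ⟨h2, h3, h4, h5⟩
    · exact hS.rf v h2 a h3 b h4 c h5 h1
    · exact hT.rf v h2 a h3 b h4 c h5 h1

/-- On the set `A` the map `g` is injective and preserves and reflects the relations. -/
structure RefOn {F V : Type} (Q : Rels F) (r : Rels V) (A : Set F) (g : F → V) : Prop where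
  inj : Set.InjOn g A
  P : ∀ x ∈ A, (r.P (g x) ↔ Q.P x)
  G : ∀ x ∈ A, ∀ y ∈ A, (r.G.Adj (g x) (g y) ↔ Q.G.Adj x y)
  R : ∀ v ∈ A, ∀ a ∈ A, ∀ b ∈ A, ∀ c ∈ A, (r.R (g v) (g a) (g b) (g c) ↔ Q.R v a b c)
  O : ∀ x ∈ A, ∀ v ∈ A, ∀ w ∈ A, (r.O (g x) (g v) (g w) ↔ Q.O x v w)

/-- The extension property. -/
def EP {V : Type} (r : Rels V) : Prop :=
  ∀ (F : Type) (Q : Rels F) (A B : Finset F) (g : F → V), Ax Q (B : Set F) →
    Cl Q.G A (B : Set F) → RefOn Q r (A : Set F) g → Cl r.G (A.image g) Set.univ →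
    ∃ g' : F → V, RefOn Q r (B : Set F) g' ∧ (∀ x ∈ A, g' x = g x) ∧
      Cl r.G (B.image g') Set.univ

theorem RefOn.mono {F : Type} {Q : Rels F} {r : Rels V} {A B : Set F} {g : F → V}
    (h : RefOn Q r B g) (hA : A ⊆ B) : RefOn Q r A g where
  inj := h.inj.mono hA
  P x hx := h.P x (hA hx)
  G x hx y hy := h.G x (hA hx) y (hA hy)
  R v hv a ha b hb c hc := h.R v (hA hv) a (hA ha) b (hA hb) c (hA hc)
  O x hx v hv w hw := h.O x (hA hx) v (hA hv) w (hA hw)

/-- The predimension is invariant. -/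
theorem dl_image {F V : Type} {H : SimpleGraph F} {G : SimpleGraph V} {X : Finset F} {g : F → V}
    (hi : Set.InjOn g (X : Set F)) (hG : ∀ x ∈ X, ∀ y ∈ X, (G.Adj (g x) (g y) ↔ H.Adj x y)) :
    dl G (X.image g) = dl H X := by
  have h1 : (X.image g).card = X.card := Finset.card_image_of_injOn hi
  have h2 : es G (X.image g) = (es H X).image (Sym2.map g) := by
    ext e
    induction e using Sym2.inductionOn with
    | _ u v =>
      rw [mem_es]
      simp only [Sym2.mem_iff, SimpleGraph.mem_edgeSet, Finset.mem_image, forall_eq_or_imp,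
        forall_eq]
      constructor
      · rintro ⟨⟨⟨x, hx, rfl⟩, ⟨y, hy, rfl⟩⟩, h3⟩
        refine ⟨s(x, y), ?_, by simp⟩
        rw [mem_es]
        simp only [Sym2.mem_iff, SimpleGraph.mem_edgeSet, forall_eq_or_imp, forall_eq]
        exact ⟨⟨hx, hy⟩, (hG x hx y hy).1 h3⟩
      · rintro ⟨e, he, h3⟩
        induction e using Sym2.inductionOn with
        | _ x y =>
          rw [mem_es] at he
          simp only [Sym2.mem_iff, SimpleGraph.mem_edgeSet, forall_eq_or_imp, forall_eq] at he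
          obtain ⟨⟨hx, hy⟩, hxy⟩ := he
          simp only [Sym2.map_mk, Sym2.eq_iff] at h3
          rcases h3 with ⟨rfl, rfl⟩ | ⟨rfl, rfl⟩
          · exact ⟨⟨⟨x, hx, rfl⟩, ⟨y, hy, rfl⟩⟩, (hG x hx y hy).2 hxy⟩
          · exact ⟨⟨⟨y, hy, rfl⟩, ⟨x, hx, rfl⟩⟩, ((hG x hx y hy).2 hxy).symm⟩
  have h3 : (es G (X.image g)).card = (es H X).card := by
    rw [h2]
    apply Finset.card_image_of_injOn
    intro e he e' he' heq
    induction e using Sym2.inductionOn with
    | _ x y =>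
      induction e' using Sym2.inductionOn with
      | _ x' y' =>
        rw [Finset.mem_coe, mem_es] at he he'
        simp only [Sym2.mem_iff, SimpleGraph.mem_edgeSet, forall_eq_or_imp, forall_eq] at he he'
        simp only [Sym2.map_mk, Sym2.eq_iff] at heq ⊢
        rcases heq with ⟨h4, h5⟩ | ⟨h4, h5⟩
        · exact Or.inl ⟨hi he.1.1 he'.1.1 h4, hi he.1.2 he'.1.2 h5⟩
        · exact Or.inr ⟨hi he.1.1 he'.1.2 h4, hi he.1.2 he'.1.1 h5⟩
  simp only [dl, h1, h3]

/-- Agreement of two graphs on a set. -/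
theorem dl_congr {G H : SimpleGraph V} {X : Finset V}
    (hG : ∀ x ∈ X, ∀ y ∈ X, (G.Adj x y ↔ H.Adj x y)) : dl G X = dl H X := by
  have := dl_image (g := id) (X := X) (H := H) (G := G) (Set.injOn_id _) hG
  simpa using this

theorem RefOn.dl {F : Type} {Q : Rels F} {r : Rels V} {A : Set F} {g : F → V}
    (h : RefOn Q r A g) {X : Finset F} (hX : (X : Set F) ⊆ A) :
    dl r.G (X.image g) = dl Q.G X :=
  dl_image (h.inj.mono hX) fun x hx y hy => h.G x (hX hx) y (hX hy)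

/-- Closedness is invariant. -/
theorem RefOn.cl {F : Type} {Q : Rels F} {r : Rels V} {B : Finset F} {g : F → V}
    (h : RefOn Q r (B : Set F) g) {A : Finset F} (hA : Cl Q.G A (B : Set F)) :
    Cl r.G (A.image g) ((B.image g : Finset V) : Set V) where
  sub := by
    have : A ⊆ B := by exact_mod_cast hA.sub
    exact_mod_cast Finset.image_subset_image this
  lt X hX hAX := by
    have hX' : X ⊆ B.image g := by exact_mod_cast hX
    obtain ⟨Y, hY, rfl⟩ := Finset.subset_image_iff.1 hX'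
    have hAB : A ⊆ B := by exact_mod_cast hA.sub
    have hAY : A ⊂ Y := by
      refine Finset.ssubset_iff_subset_ne.2 ⟨?_, ?_⟩
      · intro x hx
        have h1 := hAX.1 (Finset.mem_image_of_mem g hx)
        obtain ⟨y, hy, hxy⟩ := Finset.mem_image.1 h1
        have := h.inj (hY hy) (hAB hx) hxy
        exact this ▸ hy
      · rintro rfl
        exact lt_irrefl _ hAX
    rw [h.dl (by exact_mod_cast hAB), h.dl (by exact_mod_cast hY)]
    exact hA.lt Y (by exact_mod_cast hY) hAY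

theorem RefOn.comp {F W : Type} {Q : Rels F} {r : Rels V} {s : Rels W} {A : Set F} {g : F → V}
    {k : V → W} (h : RefOn Q r A g) (h' : RefOn r s (g '' A) k) : RefOn Q s A (k ∘ g) where
  inj := h'.inj.comp h.inj (fun x hx => Set.mem_image_of_mem g hx)
  P x hx := (h'.P _ (Set.mem_image_of_mem g hx)).trans (h.P x hx)
  G x hx y hy := (h'.G _ (Set.mem_image_of_mem g hx) _ (Set.mem_image_of_mem g hy)).trans
    (h.G x hx y hy)
  R v hv a ha b hb c hc := (h'.R _ (Set.mem_image_of_mem g hv) _ (Set.mem_image_of_mem g ha) _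
    (Set.mem_image_of_mem g hb) _ (Set.mem_image_of_mem g hc)).trans (h.R v hv a ha b hb c hc)
  O x hx v hv w hw := (h'.O _ (Set.mem_image_of_mem g hx) _ (Set.mem_image_of_mem g hv) _
    (Set.mem_image_of_mem g hw)).trans (h.O x hx v hv w hw)

theorem img_eq {α : Type} (X : Finset α) (h : α → ℕ) :
    @Finset.image α ℕ (fun a b => propDecidable (a = b)) h X =
      @Finset.image α ℕ instDecidableEqNat h X := by
  have : (fun a b : ℕ => propDecidable (a = b)) = instDecidableEqNat := Subsingleton.elim _ _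
  rw [this]

end H968E
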