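import Mathlib

/-!
Sparse graphs: the predimension `2 |X| - |E(X)|`, closed sets and free amalgamation.
-/

namespace H968E

open Classical Finset

variable {V : Type} (G : SimpleGraph V)

/-- The edges inside `X`. -/
noncomputable def es (X : Finset V) : Finset (Sym2 V) := X.sym2.filter (· ∈ G.edgeSet)

/-- The predimension. -/
noncomputable def dl (X : Finset V) : ℤ := 2 * (X.card : ℤ) - ((es G X).card : ℤ)

/-- The growth condition, on the subset `S`. -/
def Gr (S : Set V) : Prop :=
  ∀ X : Finset V, (X : Set V) ⊆ S → X.Nonempty → 4 * X.card ≤ 2 ^ (dl G X).toNat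

/-- `A` is closed in `S`. -/
structure Cl (A : Finset V) (S : Set V) : Prop where
  sub : (A : Set V) ⊆ S
  lt : ∀ X : Finset V, (X : Set V) ⊆ S → A ⊂ X → dl G A < dl G X

variable {G}

theorem mem_es {X : Finset V} {e : Sym2 V} : e ∈ es G X ↔ (∀ a ∈ e, a ∈ X) ∧ e ∈ G.edgeSet := by
  simp [es, Finset.mem_sym2_iff]

theorem es_mono {X Y : Finset V} (h : X ⊆ Y) : es G X ⊆ es G Y := by
  intro e he
  rw [mem_es] at he ⊢
  exact ⟨fun a ha => h (he.1 a ha), he.2⟩

theorem es_inter (X Y : Finset V) : es G (X ∩ Y) = es G X ∩ es G Y := by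
  ext e
  simp only [mem_es, Finset.mem_inter]
  constructor
  · rintro ⟨h1, h2⟩
    exact ⟨⟨fun a ha => (h1 a ha).1, h2⟩, ⟨fun a ha => (h1 a ha).2, h2⟩⟩
  · rintro ⟨⟨h1, h2⟩, ⟨h3, _⟩⟩
    exact ⟨fun a ha => ⟨h1 a ha, h3 a ha⟩, h2⟩

theorem es_union_sub (X Y : Finset V) : es G X ∪ es G Y ⊆ es G (X ∪ Y) :=
  Finset.union_subset (es_mono Finset.subset_union_left) (es_mono Finset.subset_union_right)

theorem dl_submod (X Y : Finset V) : dl G (X ∪ Y) + dl G (X ∩ Y) ≤ dl G X + dl G Y := by
  have h1 := Finset.card_le_card (es_union_sub (G := G) X Y)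
  have h2 := Finset.card_union_add_card_inter (es G X) (es G Y)
  have h3 := Finset.card_union_add_card_inter X Y
  rw [← es_inter] at h2
  simp only [dl]
  omega

/-- Equality in the free case. -/
theorem dl_free {X Y : Finset V} (h : ∀ u ∈ X ∪ Y, ∀ v ∈ X ∪ Y, G.Adj u v →
    (u ∈ X ∧ v ∈ X) ∨ (u ∈ Y ∧ v ∈ Y)) : dl G (X ∪ Y) + dl G (X ∩ Y) = dl G X + dl G Y := by
  have h1 : es G (X ∪ Y) = es G X ∪ es G Y := by
    apply Finset.Subset.antisymm _ (es_union_sub X Y)
    intro e he
    rw [mem_es] at he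
    induction e using Sym2.inductionOn with
    | _ u v =>
      have hu := he.1 u (by simp)
      have hv := he.1 v (by simp)
      have := h u hu v hv (by simpa using he.2)
      rw [Finset.mem_union, mem_es, mem_es]
      rcases this with ⟨a, b⟩ | ⟨a, b⟩
      · left
        refine ⟨?_, he.2⟩
        intro c hc
        rcases Sym2.mem_iff.1 hc with rfl | rfl <;> assumption
      · right
        refine ⟨?_, he.2⟩
        intro c hc
        rcases Sym2.mem_iff.1 hc with rfl | rfl <;> assumption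
  have h2 := Finset.card_union_add_card_inter (es G X) (es G Y)
  have h3 := Finset.card_union_add_card_inter X Y
  rw [← es_inter, ← h1] at h2
  simp only [dl]
  omega

@[simp] theorem dl_empty : dl G ∅ = 0 := by simp [dl, es]

theorem Gr.mono {S T : Set V} (h : Gr G T) (hS : S ⊆ T) : Gr G S :=
  fun X hX hne => h X (hX.trans hS) hne

theorem Gr.two_le {S : Set V} (h : Gr G S) {X : Finset V} (hX : (X : Set V) ⊆ S)
    (hne : X.Nonempty) : 2 ≤ dl G X := by
  have h1 := h X hX hne
  have h2 : 1 ≤ X.card := Finset.card_pos.2 hne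
  by_contra hcon
  have h3 : (dl G X).toNat ≤ 1 := by omega
  have h4 : 2 ^ (dl G X).toNat ≤ 2 ^ 1 := Nat.pow_le_pow_right (by norm_num) h3
  omega

theorem Cl.refl (A : Finset V) : Cl G A (A : Set V) where
  sub := subset_rfl
  lt X hX hA := by
    have : X ⊆ A := by exact_mod_cast hX
    exact absurd (hA.trans_subset this) (lt_irrefl A)

theorem Cl.le {A : Finset V} {S : Set V} (h : Cl G A S) {X : Finset V} (hX : (X : Set V) ⊆ S)
    (hA : A ⊆ X) : dl G A ≤ dl G X := by
  by_cases hne : A = X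
  · rw [hne]
  · exact (h.lt X hX (Finset.ssubset_iff_subset_ne.2 ⟨hA, hne⟩)).le

theorem Cl.mono {A : Finset V} {S T : Set V} (h : Cl G A T) (hA : (A : Set V) ⊆ S)
    (hS : S ⊆ T) : Cl G A S where
  sub := hA
  lt X hX h' := h.lt X (hX.trans hS) h'

/-- Closedness restricts to subsets. -/
theorem Cl.inter_sub {A : Finset V} {S T : Set V} (h : Cl G A S) (hT : T ⊆ S)
    {B : Finset V} (hB : ∀ x, x ∈ B ↔ x ∈ A ∧ x ∈ T) : Cl G B T where
  sub x hx := ((hB x).1 hx).2
  lt Y hY hBY := by
    have h1 : Y ∩ A = B := by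
      ext x
      rw [Finset.mem_inter, hB]
      constructor
      · rintro ⟨a, b⟩
        exact ⟨b, hY a⟩
      · rintro ⟨a, b⟩
        exact ⟨hBY.1 ((hB x).2 ⟨a, b⟩), a⟩
    have h2 := dl_submod (G := G) Y A
    rw [h1] at h2
    have h3 : A ⊂ Y ∪ A := by
      refine Finset.ssubset_iff_subset_ne.2 ⟨Finset.subset_union_right, fun heq => ?_⟩
      apply (Finset.ssubset_iff_subset_ne.1 hBY).2
      apply Finset.Subset.antisymm hBY.1
      intro x hx
      exact (hB x).2 ⟨by rw [heq]; exact Finset.mem_union_left _ hx, hY hx⟩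
    have h4 := h.lt (Y ∪ A) (by
      rw [Finset.coe_union]
      exact Set.union_subset (hY.trans hT) h.sub) h3
    omega

theorem Cl.trans {A B : Finset V} {S : Set V} (h1 : Cl G A (B : Set V)) (h2 : Cl G B S) :
    Cl G A S where
  sub := h1.sub.trans h2.sub
  lt X hX hA := by
    have hAB : A ⊆ B := by exact_mod_cast h1.sub
    have h3 : Cl G (B ∩ X) (X : Set V) := h2.inter_sub hX (by simp)
    have h4 : A ⊆ B ∩ X := Finset.subset_inter hAB hA.1
    have h5 := h3.le subset_rfl Finset.inter_subset_right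
    have h6 := h1.le (X := B ∩ X) (by exact_mod_cast Finset.inter_subset_left) h4
    by_cases h7 : A = B ∩ X
    · have h8 : B ∩ X ⊂ X := h7 ▸ hA
      have := h3.lt X subset_rfl h8
      omega
    · have := h1.lt (B ∩ X) (by exact_mod_cast Finset.inter_subset_left)
        (Finset.ssubset_iff_subset_ne.2 ⟨h4, h7⟩)
      omega

theorem Cl.inter {A B : Finset V} {S : Set V} (h1 : Cl G A S) (h2 : Cl G B S) :
    Cl G (A ∩ B) S :=
  (h1.inter_sub h2.sub (B := A ∩ B) (by simp)).trans h2

theorem Gr.cl_empty {S : Set V} (h : Gr G S) : Cl G ∅ S where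
  sub := by simp
  lt X hX hA := by
    have := h.two_le hX (Finset.empty_ssubset.1 hA)
    rw [dl_empty]
    omega

theorem Gr.card_le {S : Set V} (h : Gr G S) {X : Finset V} (hX : (X : Set V) ⊆ S) {n : ℕ}
    (hn : dl G X ≤ n) : X.card ≤ 2 ^ n := by
  rcases X.eq_empty_or_nonempty with rfl | hne
  · simp
  · have h1 := h X hX hne
    have h2 : (dl G X).toNat ≤ n := by omega
    have h3 : 2 ^ (dl G X).toNat ≤ 2 ^ n := Nat.pow_le_pow_right (by norm_num) h2
    omega

/-- Every finite set is contained in a finite closed set of bounded size. -/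
theorem Gr.exists_closed {S : Set V} (h : Gr G S) {X : Finset V} (hX : (X : Set V) ⊆ S) :
    ∃ Y : Finset V, X ⊆ Y ∧ Cl G Y S ∧ Y.card ≤ 2 ^ (2 * X.card) := by
  -- sets Z ⊇ X with minimal predimension, of maximal size
  have hb : ∀ Z : Finset V, (Z : Set V) ⊆ S → 0 ≤ dl G Z := by
    intro Z hZ
    rcases Z.eq_empty_or_nonempty with rfl | hne
    · simp
    · have := h.two_le hZ hne
      omega
  let Q : ℕ → Prop := fun d => ∃ Z : Finset V, X ⊆ Z ∧ (Z : Set V) ⊆ S ∧ dl G Z = d
  have hQ : ∃ d, Q d := ⟨(dl G X).toNat, X, subset_rfl, hX, by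
    have := hb X hX
    omega⟩
  set d := Nat.find hQ with hd
  have hd1 : Q d := Nat.find_spec hQ
  have hd2 : ∀ Z : Finset V, X ⊆ Z → (Z : Set V) ⊆ S → (d : ℤ) ≤ dl G Z := by
    intro Z h1 h2
    have h3 : d ≤ (dl G Z).toNat := Nat.find_min' hQ ⟨Z, h1, h2, by
      have := hb Z h2
      omega⟩
    have := hb Z h2
    omega
  have hdX : (d : ℤ) ≤ 2 * X.card := by
    have := hd2 X subset_rfl hX
    simp only [dl] at this
    omega
  let P : ℕ → Prop := fun n => ∃ Z : Finset V, X ⊆ Z ∧ (Z : Set V) ⊆ S ∧ dl G Z = d ∧ Z.card = n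
  have hP1 : ∃ n, P n := by
    obtain ⟨Z, h1, h2, h3⟩ := hd1
    exact ⟨_, Z, h1, h2, h3, rfl⟩
  have hP2 : ∀ n, P n → n ≤ 2 ^ d := by
    rintro n ⟨Z, h1, h2, h3, rfl⟩
    exact h.card_le h2 h3.le
  obtain ⟨Y, h1, h2, h3, h4⟩ : P (Nat.findGreatest P (2 ^ d)) := by
    obtain ⟨n, hn⟩ := hP1
    exact Nat.findGreatest_spec (hP2 n hn) hn
  refine ⟨Y, h1, ⟨h2, ?_⟩, ?_⟩
  · intro Z hZ hYZ
    have h5 := hd2 Z (h1.trans hYZ.1) hZ
    by_contra hcon
    have h6 : dl G Z = d := by omega
    have h7 : P Z.card := ⟨Z, h1.trans hYZ.1, hZ, h6, rfl⟩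
    have h8 := Nat.le_findGreatest (hP2 _ h7) h7
    have h9 := Finset.card_lt_card hYZ
    omega
  · have h5 := h.card_le h2 h3.le
    have h6 : (2 : ℕ) ^ d ≤ 2 ^ (2 * X.card) := Nat.pow_le_pow_right (by norm_num) (by omega)
    omega

/-- Freeness of `S ∪ T` over `S ∩ T`. -/
def Free (G : SimpleGraph V) (S T : Finset V) : Prop :=
  ∀ u ∈ S ∪ T, ∀ v ∈ S ∪ T, G.Adj u v → (u ∈ S ∧ v ∈ S) ∨ (u ∈ T ∧ v ∈ T)

theorem Free.symm {S T : Finset V} (h : Free G S T) : Free G T S := by
  intro u hu v hv huv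
  rw [Finset.union_comm] at hu hv
  exact (h u hu v hv huv).symm

theorem Free.dl_eq {S T : Finset V} (h : Free G S T) {X : Finset V} (hX : X ⊆ S ∪ T) :
    dl G X + dl G (X ∩ (S ∩ T)) = dl G (X ∩ S) + dl G (X ∩ T) := by
  have h1 : (X ∩ S) ∪ (X ∩ T) = X := by
    rw [← Finset.inter_union_distrib_left]
    exact Finset.inter_eq_left.2 hX
  have h2 : (X ∩ S) ∩ (X ∩ T) = X ∩ (S ∩ T) := by
    ext x
    simp only [Finset.mem_inter]
    tauto
  have h3 := dl_free (G := G) (X := X ∩ S) (Y := X ∩ T) (by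
    rw [h1]
    intro u hu v hv huv
    simp only [Finset.mem_inter]
    rcases h u (hX hu) v (hX hv) huv with ⟨a, b⟩ | ⟨a, b⟩
    · exact Or.inl ⟨⟨hu, a⟩, ⟨hv, b⟩⟩
    · exact Or.inr ⟨⟨hu, a⟩, ⟨hv, b⟩⟩)
  rw [h1, h2] at h3
  exact h3

/-- In a free union over a set closed in `T`, the set `S` is closed. -/
theorem Free.closed {S T : Finset V} (h : Free G S T) (hc : Cl G (S ∩ T) (T : Set V)) :
    Cl G S ((S ∪ T : Finset V) : Set V) where
  sub := by exact_mod_cast Finset.subset_union_left
  lt X hX hS := by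
    have hX' : X ⊆ S ∪ T := by exact_mod_cast hX
    have h1 := h.dl_eq hX'
    have h2 : X ∩ S = S := Finset.inter_eq_right.2 hS.1
    have h3 : X ∩ (S ∩ T) = S ∩ T := Finset.inter_eq_right.2 (Finset.inter_subset_left.trans hS.1)
    rw [h2, h3] at h1
    have h4 : S ∩ T ⊂ X ∩ T := by
      refine Finset.ssubset_iff_subset_ne.2 ⟨Finset.inter_subset_inter_right hS.1, fun heq => ?_⟩
      apply (Finset.ssubset_iff_subset_ne.1 hS).2
      apply Finset.Subset.antisymm hS.1
      intro x hx
      rcases Finset.mem_union.1 (hX' hx) with h5 | h5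
      · exact h5
      · have : x ∈ X ∩ T := Finset.mem_inter.2 ⟨hx, h5⟩
        rw [← heq] at this
        exact (Finset.mem_inter.1 this).1
    have h5 := hc.lt (X ∩ T) (by exact_mod_cast Finset.inter_subset_right) h4
    omega

/-- The growth condition passes to free unions. -/
theorem Free.gr {S T : Finset V} (h : Free G S T) (hS : Gr G (S : Set V)) (hT : Gr G (T : Set V))
    (hcS : Cl G (S ∩ T) (S : Set V)) (hcT : Cl G (S ∩ T) (T : Set V)) :
    Gr G ((S ∪ T : Finset V) : Set V) := by
  -- one half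
  have key : ∀ S T : Finset V, Free G S T → Gr G (S : Set V) → Cl G (S ∩ T) (T : Set V) →
      ∀ X : Finset V, X ⊆ S ∪ T → X.Nonempty → (X ∩ T).card ≤ (X ∩ S).card →
      4 * X.card ≤ 2 ^ (dl G X).toNat := by
    intro S T h hS hcT X hX hne hcard
    have h1 := h.dl_eq hX
    have h2 : X.card + (X ∩ (S ∩ T)).card = (X ∩ S).card + (X ∩ T).card := by
      have := Finset.card_union_add_card_inter (X ∩ S) (X ∩ T)
      have h3 : (X ∩ S) ∪ (X ∩ T) = X := by
        rw [← Finset.inter_union_distrib_left]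
        exact Finset.inter_eq_left.2 hX
      have h4 : (X ∩ S) ∩ (X ∩ T) = X ∩ (S ∩ T) := by
        ext x
        simp only [Finset.mem_inter]
        tauto
      rw [h3, h4] at this
      exact this
    have hne' : (X ∩ S).Nonempty := by
      rw [← Finset.card_pos]
      have := Finset.card_pos.2 hne
      omega
    have h3 := hS (X ∩ S) (by exact_mod_cast Finset.inter_subset_right) hne'
    have h4 : Cl G (X ∩ (S ∩ T)) ((X ∩ T : Finset V) : Set V) :=
      hcT.inter_sub (by exact_mod_cast Finset.inter_subset_right) (by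
        intro x
        simp only [Finset.mem_inter, Finset.coe_inter, Set.mem_inter_iff, Finset.mem_coe]
        tauto)
    by_cases h5 : X ∩ (S ∩ T) = X ∩ T
    · rw [h5] at h1 h2
      have h6 : dl G X = dl G (X ∩ S) := by omega
      have h7 : X.card = (X ∩ S).card := by omega
      rw [h6, h7]
      exact h3
    · have h6 : X ∩ (S ∩ T) ⊂ X ∩ T := Finset.ssubset_iff_subset_ne.2
        ⟨Finset.inter_subset_inter_left Finset.inter_subset_right, h5⟩
      have h7 := h4.lt (X ∩ T) subset_rfl h6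
      have h8 : (dl G (X ∩ S)).toNat + 1 ≤ (dl G X).toNat := by
        have := hS.two_le (X := X ∩ S) (by exact_mod_cast Finset.inter_subset_right) hne'
        omega
      have h9 : 2 ^ ((dl G (X ∩ S)).toNat + 1) ≤ 2 ^ (dl G X).toNat :=
        Nat.pow_le_pow_right (by norm_num) h8
      rw [pow_succ] at h9
      omega
  intro X hX hne
  have hX' : X ⊆ S ∪ T := by exact_mod_cast hX
  rcases le_total (X ∩ T).card (X ∩ S).card with h1 | h1
  · exact key S T h hS hcT X hX' hne h1
  · rw [Finset.inter_comm] at hcS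
    exact key T S h.symm hT hcS X (by rwa [Finset.union_comm] at hX') hne h1

/-- Closed sets allow to distribute the new edges over the new vertices, at most two each. -/
theorem Cl.exists_assign {A B : Finset V} (h : Cl G A (B : Set V)) :
    ∃ f : Sym2 V → V, (∀ e ∈ es G B, e ∉ es G A → f e ∈ e ∧ f e ∈ B ∧ f e ∉ A) ∧
      ∀ v : V, ((es G B \ es G A).filter (fun e => f e = v)).card ≤ 2 := by
  let ι := {e // e ∈ es G B \ es G A}
  let t : ι → Finset (V × Fin 2) := fun e => (B \ A).filter (· ∈ e.1) ×ˢ Finset.univ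
  have hall : ∀ s : Finset ι, s.card ≤ (s.biUnion t).card := by
    intro s
    let W : Finset V := s.biUnion fun e => (B \ A).filter (· ∈ e.1)
    have h1 : s.biUnion t = W ×ˢ Finset.univ := by
      ext ⟨v, i⟩
      simp only [t, W, Finset.mem_biUnion, Finset.mem_product, Finset.mem_univ, and_true]
    have hAB : A ⊆ B := by exact_mod_cast h.sub
    have hWB : W ⊆ B \ A := by
      intro v hv
      simp only [W, Finset.mem_biUnion, Finset.mem_filter] at hv
      obtain ⟨_, _, hv, _⟩ := hv
      exact hv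
    have hdisj : Disjoint A W := Finset.disjoint_of_subset_right hWB Finset.disjoint_sdiff
    have h2 : s.map (Function.Embedding.subtype _) ⊆ es G (A ∪ W) \ es G A := by
      intro e he
      simp only [Finset.mem_map, Function.Embedding.subtype_apply] at he
      obtain ⟨e', he', rfl⟩ := he
      have he2 := Finset.mem_sdiff.1 e'.2
      refine Finset.mem_sdiff.2 ⟨?_, he2.2⟩
      rw [mem_es] at he2 ⊢
      refine ⟨fun a ha => ?_, he2.1.2⟩
      by_cases haA : a ∈ A
      · exact Finset.mem_union_left _ haA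
      · apply Finset.mem_union_right
        simp only [W, Finset.mem_biUnion, Finset.mem_filter]
        exact ⟨e', he', Finset.mem_sdiff.2 ⟨he2.1.1 a ha, haA⟩, ha⟩
    have h3 := Finset.card_le_card h2
    rw [Finset.card_map, Finset.card_sdiff_of_subset (es_mono Finset.subset_union_left)] at h3
    have h4 := h.le (X := A ∪ W) (by
      rw [Finset.coe_union]
      exact Set.union_subset h.sub (by
        intro x hx
        exact (Finset.mem_sdiff.1 (hWB hx)).1)) Finset.subset_union_left
    have h5 : (A ∪ W).card = A.card + W.card := Finset.card_union_of_disjoint hdisj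
    have h6 := Finset.card_le_card (es_mono (G := G) (Finset.subset_union_left (s₁ := A) (s₂ := W)))
    rw [h1, Finset.card_product, Finset.card_univ, Fintype.card_fin]
    simp only [dl] at h4
    omega
  obtain ⟨g, hg1, hg2⟩ := (Finset.all_card_le_biUnion_card_iff_exists_injective t).1 hall
  refine ⟨fun e => if he : e ∈ es G B \ es G A then (g ⟨e, he⟩).1 else e.out.1, ?_, ?_⟩
  · intro e he1 he2
    have he : e ∈ es G B \ es G A := Finset.mem_sdiff.2 ⟨he1, he2⟩
    simp only [dif_pos he]
    have := hg2 ⟨e, he⟩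
    simp only [t, Finset.mem_product, Finset.mem_filter, Finset.mem_sdiff, Finset.mem_univ,
      and_true] at this
    exact ⟨this.2, this.1.1, this.1.2⟩
  · intro v
    let g' : Sym2 V → Fin 2 := fun e => if he : e ∈ es G B \ es G A then (g ⟨e, he⟩).2 else 0
    have : Set.InjOn g' ((es G B \ es G A).filter (fun e =>
        (if he : e ∈ es G B \ es G A then (g ⟨e, he⟩).1 else e.out.1) = v) : Finset (Sym2 V)) := by
      intro e he e' he' heq
      simp only [Finset.coe_filter, Set.mem_ofPred_eq] at he he'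
      have h1 := he.2
      have h2 := he'.2
      rw [dif_pos he.1] at h1
      rw [dif_pos he'.1] at h2
      simp only [g', dif_pos he.1, dif_pos he'.1] at heq
      have h3 : g ⟨e, he.1⟩ = g ⟨e', he'.1⟩ := Prod.ext (h1.trans h2.symm) heq
      exact congrArg Subtype.val (hg1 h3)
    have h4 := Finset.card_le_card_of_injOn (t := (Finset.univ : Finset (Fin 2))) g'
      (fun _ _ => Finset.mem_univ _) this
    simpa using h4

end H968E
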